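import Pool.Agent.Helper206.BoxS.CycBase
set_option autoImplicit false
open Set Filter Topology

namespace Pool.Agent.Helper206.BoxS.Cyc

/-- On a simply connected, locally path connected space every cocycle whose charts cover
is trivial. -/
theorem exists_triv {X : Type} [TopologicalSpace X] [SimplyConnectedSpace X]
    [LocallyPathConnectedSpace X] {G : Type} [Group G] {ι : Type} (C : Cyc X G ι)
    (hcov : ∀ x, ∃ i, x ∈ C.W i) : ∃ t : ι → X → G, IsTriv C univ t := by
  classical
  let tG : TopologicalSpace G := ⊥
  have hdG : DiscreteTopology G := ⟨rfl⟩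
  have hcii : ∀ i x, x ∈ C.W i → C.c i i x = 1 := by
    intro i x hx
    have := C.cocycle i i i x hx hx hx
    exact mul_eq_left.1 this
  choose idx hidx using hcov
  let Z : FiberBundleCore ι X G :=
    { baseSet := C.W
      isOpen_baseSet := C.isOpen_W
      indexAt := idx
      mem_baseSet_at := hidx
      coordChange := fun i j x g => C.c i j x * g
      coordChange_self := by
        intro i x hx v
        rw [hcii i x hx, one_mul]
      continuousOn_coordChange := by
        rintro i j ⟨x, g⟩ ⟨hx, _⟩
        apply ContinuousAt.continuousWithinAt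
        have h1 : ∀ᶠ p in 𝓝 (x, g), C.c i j p.1 = C.c i j x :=
          (continuous_fst.tendsto (x, g)).eventually (C.loc i j x hx)
        have h2 : ∀ᶠ p in 𝓝 (x, g), p.2 = g :=
          (continuous_snd.tendsto (x, g)).eventually ((isOpen_discrete {g}).mem_nhds rfl)
        have h3 : (fun p : X × G => C.c i j p.1 * p.2) =ᶠ[𝓝 (x, g)] fun _ => C.c i j x * g := by
          filter_upwards [h1, h2] with p hp1 hp2
          rw [hp1, hp2]
        exact continuousAt_const.congr h3.symm
      coordChange_comp := by
        rintro i j k x ⟨⟨hi, hj⟩, hk⟩ v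
        rw [← mul_assoc, C.cocycle i j k x hi hj hk] }
  have hcovmap : IsCoveringMap (Bundle.TotalSpace.proj : Bundle.TotalSpace G Z.Fiber → X) :=
    FiberBundle.isCoveringMap
  obtain ⟨x0⟩ : Nonempty X := inferInstance
  obtain ⟨σ, ⟨_, hσ⟩, _⟩ := hcovmap.existsUnique_continuousMap_lifts (ContinuousMap.id X) x0
    (⟨x0, (1 : G)⟩ : Bundle.TotalSpace G Z.Fiber) rfl
  have hσ' : ∀ x, (σ x).1 = x := fun x => congrFun hσ x
  let t : ι → X → G := fun i x => (Z.localTriv i (σ x)).2
  let s : X → G := fun x => (σ x).2
  have ht : ∀ i x, t i x = C.c (idx (σ x).1) i (σ x).1 * s x := fun i x => rfl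
  refine ⟨t, ⟨?_, ?_⟩⟩
  · intro i x hx
    rw [nhdsWithin_univ]
    have hsrc : σ x ∈ (Z.localTriv i).source := by
      rw [FiberBundleCore.mem_localTriv_source, hσ' x]
      exact hx.2
    have hcont : ContinuousAt (fun y => (Z.localTriv i (σ y)).2) x := by
      have h1 : ContinuousAt (Z.localTriv i) (σ x) :=
        (Z.localTriv i).toOpenPartialHomeomorph.continuousAt hsrc
      have h2 : ContinuousAt σ x := σ.continuous.continuousAt
      exact continuous_snd.continuousAt.comp (ContinuousAt.comp h1 h2)
    exact hcont.eventually ((isOpen_discrete {t i x}).mem_nhds rfl)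
  · intro i j x _ hi hj
    rw [ht, ht, hσ' x, ← mul_assoc, C.cocycle _ i j x (hidx x) hi hj]

/-- pull back along an injective continuous map from a compact space -/
theorem exists_triv_range {Y : Type} [TopologicalSpace Y] [SimplyConnectedSpace Y]
    [LocallyPathConnectedSpace Y] [CompactSpace Y] {X : Type} [TopologicalSpace X] [T2Space X]
    {G : Type} [Group G] {ι : Type} (C : Cyc X G ι) (f : Y → X) (hf : Continuous f)
    (hinj : Function.Injective f) (hcov : ∀ y, ∃ i, f y ∈ C.W i) :
    ∃ t : ι → X → G, IsTriv C (range f) t := by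
  classical
  let C' : Cyc Y G ι :=
    { W := fun i => f ⁻¹' C.W i
      c := fun i j y => C.c i j (f y)
      isOpen_W := fun i => (C.isOpen_W i).preimage hf
      loc := fun i j y hy => (hf.tendsto y).eventually (C.loc i j (f y) hy)
      cocycle := fun i j k y hi hj hk => C.cocycle i j k (f y) hi hj hk }
  obtain ⟨t', ht'⟩ := exists_triv C' hcov
  have hne : Nonempty Y := inferInstance
  have hinv : ∀ y, Function.invFun f (f y) = y := Function.leftInverse_invFun hinj
  refine ⟨fun i x => t' i (Function.invFun f x), ⟨?_, ?_⟩⟩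
  · rintro i _ ⟨⟨y, rfl⟩, hi⟩
    rw [← (hf.isClosedEmbedding hinj).isInducing.map_nhds_eq, eventually_map]
    have := ht'.loc i y ⟨mem_univ _, hi⟩
    rw [nhdsWithin_univ] at this
    simpa only [hinv] using this
  · rintro i j _ ⟨y, rfl⟩ hi hj
    simp only [hinv]
    exact ht'.compat i j y (mem_univ _) hi hj

end Pool.Agent.Helper206.BoxS.Cyc
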