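import Mathlib
set_option autoImplicit false
open scoped Topology
open MeasureTheory Set Metric Module

noncomputable section

/-! # Polyhedral 3-spheres in `ℝ⁴` built from boxes: definitions -/

namespace Pool.Agent.Helper206.BoxS

/-- Euclidean 4-space -/
abbrev R4 := EuclideanSpace ℝ (Fin 4)

/-- Euclidean 3-space -/
abbrev R3 := EuclideanSpace ℝ (Fin 3)

/-- A rectangular box in `ℝ⁴`: a corner `p` and three nonzero pairwise orthogonal edge vectors. -/
structure Box where
  p : R4
  v : Fin 3 → R4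
  ne : ∀ k, v k ≠ 0
  orth : ∀ k l, k ≠ l → inner ℝ (v k) (v l) = 0

/-- The box as a set of points: `{p + ∑ tₖ vₖ : 0 ≤ tₖ ≤ 1}`. -/
def Box.carrier (B : Box) : Set R4 :=
  {x | ∃ t : Fin 3 → ℝ, (∀ k, 0 ≤ t k ∧ t k ≤ 1) ∧ x = B.p + ∑ k, t k • B.v k}

/-- The relative interior of the box: `{p + ∑ tₖ vₖ : 0 < tₖ < 1}`. -/
def Box.core (B : Box) : Set R4 :=
  {x | ∃ t : Fin 3 → ℝ, (∀ k, 0 < t k ∧ t k < 1) ∧ x = B.p + ∑ k, t k • B.v k}

/-- The 3-flat of a box: its affine hull. -/
def Box.flat (B : Box) : AffineSubspace ℝ R4 := affineSpan ℝ B.carrier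

/-- A finite family of boxes in `ℝ⁴` with pairwise disjoint relative interiors whose union is
homeomorphic to the 3-sphere. -/
structure IsBoxSphere {ι : Type} (b : ι → Box) : Prop where
  fin : Finite ι
  disj : ∀ i j, i ≠ j → Disjoint (b i).core (b j).core
  sphere : Nonempty ((⋃ i, (b i).carrier : Set R4) ≃ₜ Metric.sphere (0 : R4) 1)

/-- Two boxes are adjacent if their intersection has positive two-dimensional area
(Hausdorff measure). -/
def Adjacent (A B : Box) : Prop := 0 < (μH[2] : Measure R4) (A.carrier ∩ B.carrier)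

/-- Two 3-flats are orthogonal: their unit normal vectors are orthogonal. -/
def OrthFlats (F H : AffineSubspace ℝ R4) : Prop :=
  ∀ m n : R4, ‖m‖ = 1 → ‖n‖ = 1 → (∀ w ∈ F.direction, inner ℝ m w = 0) →
    (∀ w ∈ H.direction, inner ℝ n w = 0) → inner ℝ m n = 0

/-! ## Auxiliary definitions for the proof -/

/-- the linear span of the edge vectors -/
def Box.dirs (B : Box) : Submodule ℝ R4 := Submodule.span ℝ (Set.range B.v)

/-- the `k`-th dual coordinate of a vector -/
def Box.dc (B : Box) (w : R4) (k : Fin 3) : ℝ := inner ℝ w (B.v k) / ‖B.v k‖ ^ 2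

/-- the `k`-th coordinate of a point -/
def Box.coord (B : Box) (x : R4) (k : Fin 3) : ℝ := B.dc (x - B.p) k

/-- every box containing `x` contains a neighbourhood of `x` in `x + D` -/
def Gen {ι : Type} (b : ι → Box) (D : Submodule ℝ R4) (x : R4) : Prop :=
  ∃ ε > 0, ∀ j, x ∈ (b j).carrier → ∀ w ∈ D, ‖w‖ < ε → x + w ∈ (b j).carrier

/-- tangent cone membership -/
def TC (B : Box) (x w : R4) : Prop := ∃ δ > 0, ∀ s : ℝ, 0 ≤ s → s ≤ δ → x + s • w ∈ B.carrier

/-- `D` is the direction plane of the two faces of `B` orthogonal to `B.v k` -/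
def FacePl (B : Box) (D : Submodule ℝ R4) (k : Fin 3) : Prop :=
  (∀ l, B.v l ∈ D ↔ l ≠ k) ∧ ∀ w ∈ D, inner ℝ w (B.v k) = 0

/-- the edge directions of `A` and `B` lying in `D` are parallel or orthogonal -/
def Aligned (D : Submodule ℝ R4) (A B : Box) : Prop :=
  ∀ k l, A.v k ∈ D → B.v l ∈ D → inner ℝ (A.v k) (B.v l) = 0 ∨ ∃ c : ℝ, B.v l = c • A.v k

/-- complex coordinate of the orthogonal projection to the plane of `e`, `f` -/
def kap (e f w : R4) : ℂ := ⟨inner ℝ w e, inner ℝ w f⟩

/-- the plane of `e`, `f` -/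
def PiS (e f : R4) : Submodule ℝ R4 := Submodule.span ℝ {e, f}

open Classical in
/-- the part of `w` along the edges of `B` lying in the plane of `e`, `f` -/
def piB (e f : R4) (B : Box) (w : R4) : ℂ :=
  ∑ k, if B.v k ∈ PiS e f then (B.dc w k : ℂ) * kap e f (B.v k) else 0

open Classical in
/-- the frame of `B` in the plane of `e`, `f` -/
def frame (e f : R4) (B : Box) : ℂ :=
  if h : ∃ k, B.v k ∈ PiS e f then
    (kap e f (B.v h.choose) / (‖kap e f (B.v h.choose)‖ : ℂ)) ^ 4
  else 0

/-- the free product of copies of the plane, indexed by frames -/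
abbrev G := Monoid.CoprodI (fun _ : ℂ => Multiplicative ℂ)

/-- holonomy of the displacement `w` in the box `B` -/
def hol (e f : R4) (B : Box) (w : R4) : G :=
  Monoid.CoprodI.of (i := frame e f B) (Multiplicative.ofAdd (piB e f B w))

/-- the candidate points of the belt through `X` -/
def Cand {ι : Type} (b : ι → Box) (D : Submodule ℝ R4) (X : R4) : Set R4 :=
  {y | y - X ∈ Dᗮ ∧ ∃ l k, FacePl (b l) D k ∧ y ∈ (b l).carrier ∧
    ((b l).coord y k = 0 ∨ (b l).coord y k = 1)}

end Pool.Agent.Helper206.BoxS
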