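import Mathlib
import Pool.Agent.Helper206.BoxS.Brouwer

set_option autoImplicit false

open MeasureTheory Metric Set Filter Topology
open scoped Topology ContDiff NNReal

namespace Pool.Agent.Helper206.BoxS.IoD

variable {E : Type*} [NormedAddCommGroup E] [InnerProductSpace ℝ E] [FiniteDimensional ℝ E]

/-- A continuous self-map of the unit ball at distance at most `1/2` from the identity
has a zero. -/
theorem exists_zero_of_close (φ : E → E) (hφ : ContinuousOn φ (closedBall 0 1))
    (hclose : ∀ x ∈ closedBall (0:E) 1, ‖φ x - x‖ ≤ 1/2) :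
    ∃ x ∈ closedBall (0:E) 1, φ x = 0 := by
  by_contra hno
  push Not at hno
  let p : E → E := fun x => (max 1 ‖x‖)⁻¹ • x
  have hpos : ∀ x : E, 0 < max 1 ‖x‖ := fun x => lt_of_lt_of_le one_pos (le_max_left _ _)
  have hpc : Continuous p := by
    apply Continuous.smul _ continuous_id
    exact (continuous_const.max continuous_norm).inv₀ (fun x => (hpos x).ne')
  have hpm : ∀ x, p x ∈ closedBall (0:E) 1 := by
    intro x
    rw [mem_closedBall, dist_zero_right]
    show ‖(max 1 ‖x‖)⁻¹ • x‖ ≤ 1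
    rw [norm_smul, norm_inv, Real.norm_eq_abs, abs_of_pos (hpos x)]
    rw [inv_mul_le_iff₀ (hpos x), mul_one]
    exact le_max_right _ _
  have hp1 : ∀ x, ‖x‖ ≤ 1 → p x = x := by
    intro x hx
    show (max 1 ‖x‖)⁻¹ • x = x
    rw [max_eq_left hx, inv_one, one_smul]
  let χ : E → ℝ := fun x => max 0 (min 1 (2 - ‖x‖))
  have hχc : Continuous χ := by fun_prop
  have hχ0 : ∀ x, 0 ≤ χ x := fun x => le_max_left _ _
  have hχ1 : ∀ x, χ x ≤ 1 := fun x => max_le zero_le_one (min_le_left _ _)
  have hχin : ∀ x, ‖x‖ ≤ 1 → χ x = 1 := by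
    intro x hx
    show max 0 (min 1 (2 - ‖x‖)) = 1
    rw [min_eq_left (by linarith), max_eq_right zero_le_one]
  have hχout : ∀ x, 2 ≤ ‖x‖ → χ x = 0 := by
    intro x hx
    show max 0 (min 1 (2 - ‖x‖)) = 0
    rw [max_eq_left]
    exact (min_le_right _ _).trans (by linarith)
  let G : E → E := fun x => χ x • (φ (p x) - p x)
  have hφp : Continuous (fun x => φ (p x)) := by
    have := hφ.comp_continuous hpc hpm
    exact this
  have hGc : Continuous G := hχc.smul (hφp.sub hpc)
  have hGn : ∀ x, ‖G x‖ ≤ 1/2 := by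
    intro x
    show ‖χ x • (φ (p x) - p x)‖ ≤ 1/2
    rw [norm_smul, Real.norm_eq_abs, abs_of_nonneg (hχ0 x)]
    calc χ x * ‖φ (p x) - p x‖ ≤ 1 * ‖φ (p x) - p x‖ := by
          gcongr; exact hχ1 x
      _ ≤ 1/2 := by rw [one_mul]; exact hclose _ (hpm x)
  have hF0 : ∀ x, x + G x ≠ 0 := by
    intro x h0
    by_cases hx : ‖x‖ ≤ 1
    · have h1 : x + G x = φ x := by
        show x + χ x • (φ (p x) - p x) = φ x
        rw [hχin x hx, hp1 x hx, one_smul]; abel
      rw [h1] at h0
      exact hno x (by simpa using hx) h0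
    · have h1 : x = -G x := eq_neg_of_add_eq_zero_left h0
      have h2 : ‖x‖ ≤ 1/2 := by
        rw [h1, norm_neg]; exact hGn x
      push Not at hx
      linarith
  obtain ⟨m, hm0, hm⟩ : ∃ m : ℝ, 0 < m ∧ ∀ x ∈ closedBall (0:E) 2, m ≤ ‖x + G x‖ := by
    have hcont : ContinuousOn (fun x => ‖x + G x‖) (closedBall (0:E) 2) :=
      (continuous_id.add hGc).norm.continuousOn
    obtain ⟨x0, hx0, hmin⟩ := (isCompact_closedBall (0:E) 2).exists_isMinOn
      ⟨0, by simp⟩ hcont
    exact ⟨‖x0 + G x0‖, norm_pos_iff.2 (hF0 x0), fun x hx => hmin hx⟩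
  obtain ⟨g, hgs, hgd, hgsupp⟩ := hGc.exists_contDiff_approx (ε := fun _ => m) 1
    continuous_const (fun _ => hm0)
  have hg0 : ∀ x, 2 ≤ ‖x‖ → g x = 0 := by
    intro x hx
    by_contra hne
    have : x ∈ Function.support G := hgsupp hne
    apply this
    show χ x • (φ (p x) - p x) = 0
    rw [hχout x hx, zero_smul]
  obtain ⟨x, hx⟩ := Brouwer.exists_zero_of_C1 (fun x => x + g x)
    (contDiff_id.add (by simpa using hgs)) 2 (by norm_num) (by
      intro x hx
      simp [hg0 x hx.ge])
  by_cases hx2 : ‖x‖ ≤ 2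
  · have h1 := hm x (by simpa using hx2)
    have h2 : x + G x = G x - g x := by
      have : x + g x = 0 := hx
      have h3 : x = - g x := eq_neg_of_add_eq_zero_left this
      nth_rewrite 1 [h3]; abel
    have h3 := hgd x
    rw [dist_comm, dist_eq_norm, ← h2] at h3
    linarith
  · push Not at hx2
    have : x + g x = 0 := hx
    rw [hg0 x hx2.le, add_zero] at this
    rw [this, norm_zero] at hx2
    linarith

/-- Invariance of domain at the centre of the unit ball. -/
theorem image_mem_nhds_unit (f : E → E) (hc : ContinuousOn f (closedBall 0 1))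
    (hi : InjOn f (closedBall 0 1)) : f '' closedBall 0 1 ∈ 𝓝 (f 0) := by
  rcases subsingleton_or_nontrivial E with hE | hE
  · have : f '' closedBall 0 1 = univ := by
      apply Set.eq_univ_of_forall
      intro y
      exact ⟨0, by simp, Subsingleton.elim _ _⟩
    rw [this]; exact univ_mem
  let _ : MeasurableSpace E := borel E
  have _ : BorelSpace E := ⟨rfl⟩
  let μ : Measure E := MeasureTheory.Measure.addHaar
  set B : Set E := closedBall 0 1 with hB
  have hBc : IsCompact B := isCompact_closedBall 0 1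
  have h0B : (0:E) ∈ B := by simp [hB]
  set K : Set E := f '' B with hK
  have hKc : IsCompact K := hBc.image_of_continuousOn hc
  -- the continuous left inverse
  obtain ⟨G, hG⟩ : ∃ G : E → E, Continuous G ∧ ∀ x ∈ B, G (f x) = x := by
    have : CompactSpace B := isCompact_iff_compactSpace.1 hBc
    let e : B ≃ K := Set.BijOn.equiv f (hi.bijOn_image)
    have hec : Continuous e := by
      apply Continuous.subtype_mk
      exact hc.domRestrict
    let e' : B ≃ₜ K := hec.homeoOfEquivCompactToT2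
    let g0 : C(K, E) := ⟨fun y => (e'.symm y : E), continuous_subtype_val.comp e'.symm.continuous⟩
    have : TietzeExtension E := TietzeExtension.of_tvs ℝ
    obtain ⟨G, hG⟩ := ContinuousMap.exists_restrict_eq hKc.isClosed g0
    refine ⟨G, G.continuous, ?_⟩
    intro x hx
    have h1 : G (f x) = g0 ⟨f x, ⟨x, hx, rfl⟩⟩ := by
      rw [← hG]; rfl
    rw [h1]
    have h2 : e' ⟨x, hx⟩ = ⟨f x, ⟨x, hx, rfl⟩⟩ := rfl
    show ((e'.symm ⟨f x, ⟨x, hx, rfl⟩⟩ : B) : E) = x
    rw [← h2, Homeomorph.symm_apply_apply]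
  obtain ⟨hGc, hGf⟩ := hG
  by_contra hnot
  have hG0 : G (f 0) = 0 := hGf 0 h0B
  obtain ⟨ρ, hρ, hGρ⟩ : ∃ ρ > 0, ∀ y, dist y (f 0) < ρ → ‖G y‖ < 1/10 := by
    have := Metric.continuous_iff.1 hGc (f 0) (1/10) (by norm_num)
    obtain ⟨ρ, hρ, h⟩ := this
    refine ⟨ρ, hρ, fun y hy => ?_⟩
    have := h y hy
    rwa [hG0, dist_zero_right] at this
  set ε : ℝ := ρ / 3 with hε
  have hε0 : 0 < ε := by positivity
  obtain ⟨c, hcb, hcK⟩ : ∃ c, dist c (f 0) < ε ∧ c ∉ K := by
    rw [Metric.mem_nhds_iff] at hnot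
    push Not at hnot
    have := hnot ε hε0
    rw [Set.not_subset] at this
    obtain ⟨c, h1, h2⟩ := this
    exact ⟨c, h1, h2⟩
  let S1 : Set E := K ∩ {y | ε ≤ dist y c}
  have hS1c : IsCompact S1 := by
    apply hKc.inter_right
    exact isClosed_le continuous_const (continuous_id.dist continuous_const)
  have hS1ne : ∀ y ∈ S1, G y ≠ 0 := by
    rintro y ⟨⟨x, hx, rfl⟩, hyc⟩ h0
    rw [hGf x hx] at h0
    subst h0
    have : ε ≤ dist (f 0) c := hyc
    rw [dist_comm] at this
    linarith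
  obtain ⟨δ, hδ0, hδ1, hδ⟩ : ∃ δ : ℝ, 0 < δ ∧ δ ≤ 1/10 ∧ ∀ y ∈ S1, δ ≤ ‖G y‖ := by
    rcases S1.eq_empty_or_nonempty with h | h
    · exact ⟨1/10, by norm_num, le_rfl, by simp [h]⟩
    · obtain ⟨y0, hy0, hmin⟩ := hS1c.exists_isMinOn h hGc.norm.continuousOn
      refine ⟨min ‖G y0‖ (1/10), lt_min (norm_pos_iff.2 (hS1ne y0 hy0)) (by norm_num),
        min_le_right _ _, fun y hy => (min_le_left _ _).trans (hmin hy)⟩
  obtain ⟨P0, hP0s, hP0d, -⟩ := hGc.exists_contDiff_approx (ε := fun _ => δ/4) 1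
    continuous_const (fun _ => by positivity)
  obtain ⟨v, hv, hvn⟩ : ∃ v : E, ‖v‖ < δ/4 ∧ v ∉ P0 '' sphere c ε := by
    have hnull : μ (P0 '' sphere c ε) = 0 := by
      apply addHaar_image_eq_zero_of_differentiableOn_of_addHaar_eq_zero
      · exact (hP0s.differentiable (by norm_num)).differentiableOn
      · exact Measure.addHaar_sphere μ c ε
    by_contra hcon
    push Not at hcon
    have hsub : ball (0:E) (δ/4) ⊆ P0 '' sphere c ε := by
      intro v hv
      exact hcon v (by simpa using hv)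
    have h1 := measure_mono (μ := μ) hsub
    rw [hnull] at h1
    have h2 : 0 < μ (ball (0:E) (δ/4)) := measure_ball_pos μ 0 (by positivity)
    exact absurd h1 (not_le.2 h2)
  let P : E → E := fun x => P0 x - v
  have hPc : Continuous P := hP0s.continuous.sub continuous_const
  have hPG : ∀ x, ‖P x - G x‖ < δ / 2 := by
    intro x
    have h1 := hP0d x
    rw [dist_eq_norm] at h1
    calc ‖P x - G x‖ = ‖(P0 x - G x) - v‖ := by
          congr 1; show P0 x - v - G x = _; abel
      _ ≤ ‖P0 x - G x‖ + ‖v‖ := norm_sub_le _ _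
      _ < δ/4 + δ/4 := by gcongr
      _ = δ / 2 := by ring
  have hPsph : ∀ y ∈ sphere c ε, P y ≠ 0 := by
    intro y hy h0
    apply hvn
    exact ⟨y, hy, sub_eq_zero.1 h0⟩
  have hPS1 : ∀ y ∈ S1, P y ≠ 0 := by
    intro y hy h0
    have h1 := hPG y
    rw [h0, zero_sub, norm_neg] at h1
    have h2 := hδ y hy
    linarith
  let Φ : E → E := fun y => c + (max (ε / ‖y - c‖) 1) • (y - c)
  have hΦc : ContinuousOn Φ K := by
    apply ContinuousOn.add continuousOn_const
    apply ContinuousOn.smul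
    · have h1 : ContinuousOn (fun y : E => ε / ‖y - c‖) K := by
        apply ContinuousOn.div continuousOn_const (by fun_prop)
        intro y hy
        rw [norm_ne_zero_iff, sub_ne_zero]
        rintro rfl
        exact hcK hy
      exact h1.sup continuousOn_const
    · fun_prop
  have hΦ : ∀ y ∈ K, (ε ≤ dist y c ∧ Φ y = y) ∨ (dist y c < ε ∧ Φ y ∈ sphere c ε) := by
    intro y hy
    have hne : 0 < ‖y - c‖ := by
      rw [norm_pos_iff, sub_ne_zero]
      rintro rfl
      exact hcK hy
    rcases le_or_gt ε (dist y c) with h | h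
    · left
      refine ⟨h, ?_⟩
      rw [dist_eq_norm] at h
      have : ε / ‖y - c‖ ≤ 1 := (div_le_one hne).2 h
      show c + (max (ε / ‖y - c‖) 1) • (y - c) = y
      rw [max_eq_right this, one_smul]; abel
    · right
      refine ⟨h, ?_⟩
      rw [dist_eq_norm] at h
      have : 1 ≤ ε / ‖y - c‖ := (one_le_div hne).2 h.le
      show c + (max (ε / ‖y - c‖) 1) • (y - c) ∈ sphere c ε
      rw [max_eq_left this, mem_sphere, dist_eq_norm, add_sub_cancel_left, norm_smul,
        Real.norm_eq_abs, abs_of_pos (by positivity), div_mul_cancel₀ _ hne.ne']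
  obtain ⟨x, hx, hx0⟩ := exists_zero_of_close (fun x => P (Φ (f x))) (by
      apply hPc.comp_continuousOn
      exact hΦc.comp hc (fun x hx => ⟨x, hx, rfl⟩)) (by
      intro x hx
      have hxK : f x ∈ K := ⟨x, hx, rfl⟩
      have hGx : G (f x) = x := hGf x hx
      rcases hΦ (f x) hxK with ⟨-, h2⟩ | ⟨h1, h2⟩
      · show ‖P (Φ (f x)) - x‖ ≤ 1/2
        rw [h2]
        nth_rewrite 2 [← hGx]
        have := hPG (f x)
        linarith
      · show ‖P (Φ (f x)) - x‖ ≤ 1/2
        have h3 : ‖G (f x)‖ < 1/10 := by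
          apply hGρ
          calc dist (f x) (f 0) ≤ dist (f x) c + dist c (f 0) := dist_triangle _ _ _
            _ < ε + ε := by gcongr
            _ < ρ := by rw [hε]; linarith
        have h4 : ‖G (Φ (f x))‖ < 1/10 := by
          apply hGρ
          have h5 : dist (Φ (f x)) c = ε := h2
          calc dist (Φ (f x)) (f 0) ≤ dist (Φ (f x)) c + dist c (f 0) := dist_triangle _ _ _
            _ < ε + ε := by rw [h5]; gcongr
            _ < ρ := by rw [hε]; linarith
        rw [hGx] at h3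
        have h6 := hPG (Φ (f x))
        calc ‖P (Φ (f x)) - x‖ = ‖(P (Φ (f x)) - G (Φ (f x))) + (G (Φ (f x)) - x)‖ := by
              congr 1; abel
          _ ≤ ‖P (Φ (f x)) - G (Φ (f x))‖ + ‖G (Φ (f x)) - x‖ := norm_add_le _ _
          _ ≤ ‖P (Φ (f x)) - G (Φ (f x))‖ + (‖G (Φ (f x))‖ + ‖x‖) := by
              gcongr; exact norm_sub_le _ _
          _ ≤ 1/2 := by linarith)
  have hxK : f x ∈ K := ⟨x, hx, rfl⟩
  rcases hΦ (f x) hxK with ⟨h1, h2⟩ | ⟨h1, h2⟩
  · have h3 : P (Φ (f x)) = 0 := hx0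
    rw [h2] at h3
    exact hPS1 (f x) ⟨hxK, h1⟩ h3
  · exact hPsph _ h2 hx0

/-- Invariance of domain: the image of a closed ball under a continuous injection is a
neighbourhood of the image of the centre. -/
theorem image_mem_nhds (f : E → E) (x0 : E) (r : ℝ) (hr : 0 < r)
    (hc : ContinuousOn f (closedBall x0 r))
    (hi : InjOn f (closedBall x0 r)) : f '' closedBall x0 r ∈ 𝓝 (f x0) := by
  let g : E → E := fun y => x0 + r • y
  have hg : ∀ y ∈ closedBall (0:E) 1, g y ∈ closedBall x0 r := by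
    intro y hy
    have hy' : ‖y‖ ≤ 1 := by simpa using hy
    rw [mem_closedBall, dist_eq_norm]
    show ‖x0 + r • y - x0‖ ≤ r
    rw [add_sub_cancel_left, norm_smul, Real.norm_eq_abs, abs_of_pos hr]
    nlinarith
  have hginj : Function.Injective g := by
    intro a b hab
    have : r • a = r • b := add_left_cancel (show x0 + r • a = x0 + r • b from hab)
    exact smul_right_injective E hr.ne' this
  have h1 := image_mem_nhds_unit (fun y => f (g y))
    (hc.comp (by fun_prop) hg) (by
      intro a ha b hb hab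
      exact hginj (hi (hg a ha) (hg b hb) hab))
  have h2 : g 0 = x0 := by simp [g]
  have h3 : (fun y => f (g y)) '' closedBall 0 1 ⊆ f '' closedBall x0 r := by
    rintro _ ⟨y, hy, rfl⟩
    exact ⟨g y, hg y hy, rfl⟩
  have h4 := Filter.mem_of_superset h1 h3
  simpa [h2] using h4

end Pool.Agent.Helper206.BoxS.IoD
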