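import Mathlib
import Pool.Agent.Helper206.BoxS.Defs
import Pool.Agent.Helper206.BoxS.IoD
import Pool.Agent.Helper206.BoxS.CycTriv
import Pool.Agent.Helper206.BoxS.SphereSC
set_option autoImplicit false
open scoped Topology
open MeasureTheory Set Metric Module

noncomputable section

/-! # Polyhedral 3-spheres in `ℝ⁴` built from boxes: the proof -/

namespace Pool.Agent.Helper206.BoxS

/-! ## Topological inputs -/

/-- invariance of domain in `ℝ³` -/
theorem iod3 (f : R3 → R3) (x0 : R3) (r : ℝ) (hr : 0 < r)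
    (hc : ContinuousOn f (closedBall x0 r)) (hi : InjOn f (closedBall x0 r)) :
    f '' closedBall x0 r ∈ 𝓝 (f x0) :=
  Pool.Agent.Helper206.BoxS.IoD.image_mem_nhds f x0 r hr hc hi

/-- the 3-sphere is simply connected -/
theorem sc_sphere : SimplyConnectedSpace (sphere (0 : R4) 1) :=
  Pool.Agent.Helper206.BoxS.Sph.simplyConnected_sphere (by simp)

/-- cocycles on simply connected spaces are trivial -/
theorem cyc_triv {X : Type} [TopologicalSpace X] [SimplyConnectedSpace X]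
    [LocallyPathConnectedSpace X] {G' : Type} [Group G'] {κ : Type} (W : κ → Set X)
    (c : κ → κ → X → G') (hW : ∀ i, IsOpen (W i))
    (hloc : ∀ i j, ∀ x ∈ W i ∩ W j, ∀ᶠ y in 𝓝 x, c i j y = c i j x)
    (hco : ∀ i j k, ∀ x, x ∈ W i → x ∈ W j → x ∈ W k → c j k x * c i j x = c i k x)
    (hcov : ∀ x, ∃ i, x ∈ W i) :
    ∃ t : κ → X → G', (∀ i, ∀ x ∈ W i, ∀ᶠ y in 𝓝 x, t i y = t i x) ∧
      ∀ i j x, x ∈ W i → x ∈ W j → t j x = c i j x * t i x := by
  obtain ⟨t, ht⟩ := Pool.Agent.Helper206.BoxS.Cyc.exists_triv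
    (⟨W, c, hW, hloc, hco⟩ : Pool.Agent.Helper206.BoxS.Cyc.Cyc X G' κ) hcov
  refine ⟨t, fun i x hx => ?_, fun i j x hi hj => ht.compat i j x (mem_univ _) hi hj⟩
  have := ht.loc i x ⟨mem_univ _, hx⟩
  rwa [nhdsWithin_univ] at this

/-- an embedded closed 3-ball in a topological 3-sphere is a neighbourhood of its centre -/
theorem iod_M {M : Set R4} (h : M ≃ₜ sphere (0 : R4) 1) (φ : R3 → R4) (r : ℝ) (hr : 0 < r)
    (hc : ContinuousOn φ (closedBall 0 r)) (hi : InjOn φ (closedBall 0 r))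
    (hM : ∀ z ∈ closedBall (0 : R3) r, φ z ∈ M) :
    ∃ ε > 0, ∀ y ∈ M, dist y (φ 0) < ε → y ∈ φ '' closedBall 0 r := by
  classical
  have hfact : Fact (finrank ℝ R4 = 3 + 1) := ⟨by simp [R4]⟩
  have h0 : (0 : R3) ∈ closedBall (0 : R3) r := mem_closedBall_self hr.le
  obtain ⟨s0, hs0⟩ : ∃ s0 : sphere (0 : R4) 1, s0 = h ⟨φ 0, hM 0 h0⟩ := ⟨_, rfl⟩
  obtain ⟨v, hv⟩ : ∃ v : sphere (0 : R4) 1, v = -s0 := ⟨_, rfl⟩
  have hne : s0 ≠ v := by rw [hv]; exact ne_neg_of_mem_unit_sphere ℝ s0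
  obtain ⟨st, hst⟩ : ∃ st : OpenPartialHomeomorph (sphere (0 : R4) 1) R3, st.source = {v}ᶜ :=
    ⟨stereographic' 3 v, stereographic'_source v⟩
  obtain ⟨g, hg⟩ : ∃ g : R4 → sphere (0 : R4) 1, ∀ y (hy : y ∈ M), g y = h ⟨y, hy⟩ :=
    ⟨fun y => if hy : y ∈ M then h ⟨y, hy⟩ else s0, fun y hy => dif_pos hy⟩
  have hgc : ContinuousOn g M := by
    rw [continuousOn_iff_continuous_domRestrict]
    have h1 : M.domRestrict g = h := by
      funext y
      exact hg y.1 y.2
    rw [h1]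
    exact h.continuous
  have hginj : ∀ x ∈ M, ∀ y ∈ M, g x = g y → x = y := by
    intro x hx y hy hxy
    rw [hg x hx, hg y hy] at hxy
    exact congrArg Subtype.val (h.injective hxy)
  have hg0 : g (φ 0) = s0 := by rw [hg _ (hM 0 h0), hs0]
  have hsrc : ∀ s, s ∈ st.source ↔ s ≠ v := by
    intro s; rw [hst]; rfl
  -- a smaller radius
  have hgφ : ContinuousOn (fun z => g (φ z)) (closedBall (0 : R3) r) := hgc.comp hc hM
  have hev : ∀ᶠ z in 𝓝 (0 : R3), g (φ z) ≠ v := by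
    have h1 : ContinuousAt (fun z => g (φ z)) 0 :=
      hgφ.continuousAt (closedBall_mem_nhds (0 : R3) hr)
    have h2 : {v}ᶜ ∈ 𝓝 (g (φ 0)) := by
      rw [hg0]
      exact isOpen_compl_singleton.mem_nhds hne
    exact h1 h2
  obtain ⟨δ, hδ, hδ2⟩ := Metric.eventually_nhds_iff.1 hev
  obtain ⟨r1, hr1, hr1r, hr1δ⟩ : ∃ r1 > 0, r1 ≤ r ∧ r1 < δ :=
    ⟨min r (δ / 2), lt_min hr (half_pos hδ), min_le_left _ _,
      lt_of_le_of_lt (min_le_right _ _) (half_lt_self hδ)⟩
  have hsub : closedBall (0 : R3) r1 ⊆ closedBall 0 r := closedBall_subset_closedBall hr1r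
  have hgv : ∀ z ∈ closedBall (0 : R3) r1, g (φ z) ≠ v := by
    intro z hz
    exact hδ2 (lt_of_le_of_lt (mem_closedBall.1 hz) hr1δ)
  have hfc : ContinuousOn (fun z => st (g (φ z))) (closedBall (0 : R3) r1) :=
    st.continuousOn.comp (hgφ.mono hsub) fun z hz => (hsrc _).2 (hgv z hz)
  have hfi : InjOn (fun z => st (g (φ z))) (closedBall (0 : R3) r1) := by
    intro x hx y hy hxy
    have h1 := st.injOn ((hsrc _).2 (hgv x hx)) ((hsrc _).2 (hgv y hy)) hxy
    exact hi (hsub hx) (hsub hy) (hginj _ (hM x (hsub hx)) _ (hM y (hsub hy)) h1)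
  have hio := iod3 (fun z => st (g (φ z))) 0 r1 hr1 hfc hfi
  have hcw : ContinuousWithinAt (fun y => st (g y)) M (φ 0) := by
    have h1 : ContinuousAt st (g (φ 0)) := by
      rw [hg0]
      exact st.continuousAt ((hsrc _).2 hne)
    exact h1.comp_continuousWithinAt (hgc (φ 0) (hM 0 h0))
  have h1 : ∀ᶠ y in 𝓝[M] (φ 0), st (g y) ∈ (fun z => st (g (φ z))) '' closedBall (0 : R3) r1 :=
    hcw hio
  have h2 : ∀ᶠ y in 𝓝[M] (φ 0), g y ≠ v := by
    have h3 : {v}ᶜ ∈ 𝓝 (g (φ 0)) := by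
      rw [hg0]
      exact isOpen_compl_singleton.mem_nhds hne
    exact (hgc (φ 0) (hM 0 h0)) h3
  obtain ⟨ε, hε, hε2⟩ := Metric.mem_nhdsWithin_iff.1 (h1.and h2)
  refine ⟨ε, hε, fun y hy hyε => ?_⟩
  obtain ⟨⟨z, hz, hzy⟩, hyv⟩ := hε2 ⟨mem_ball.2 hyε, hy⟩
  have h3 := st.injOn ((hsrc _).2 (hgv z hz)) ((hsrc _).2 hyv) hzy
  exact ⟨z, hsub hz, hginj _ (hM z (hsub hz)) _ hy h3⟩

/-- a topological 3-sphere is not locally contained in a half 3-flat -/
theorem no_boundary {M : Set R4} (h : M ≃ₜ sphere (0 : R4) 1) (x : R4) (hx : x ∈ M)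
    (L : Submodule ℝ R4) (hL : finrank ℝ L = 3) (a : R4) (ha : a ∈ L) (ha0 : a ≠ 0)
    (r : ℝ) (hr : 0 < r)
    (H : ∀ y ∈ M, dist y x < r → y - x ∈ L ∧ 0 ≤ inner ℝ (y - x) a) : False := by
  have hF : Fact (finrank ℝ R4 = 3 + 1) := ⟨by simp⟩
  obtain ⟨s0, hs0⟩ : ∃ s0 : sphere (0 : R4) 1, s0 = h ⟨x, hx⟩ := ⟨_, rfl⟩
  obtain ⟨σ, hσs, hσt⟩ : ∃ σ : OpenPartialHomeomorph (sphere (0 : R4) 1) R3,
      σ.source = {-s0}ᶜ ∧ σ.target = Set.univ :=
    ⟨stereographic' 3 (-s0), stereographic'_source _, stereographic'_target _⟩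
  have hs0s : s0 ∈ σ.source := by
    rw [hσs]
    intro h1
    have h2 : s0 = -s0 := h1
    exact ne_neg_of_mem_unit_sphere ℝ s0 h2
  obtain ⟨chi, hchi⟩ : ∃ chi : R3 → R4, ∀ z, chi z = (h.symm (σ.symm (z + σ s0)) : R4) :=
    ⟨fun z => (h.symm (σ.symm (z + σ s0)) : R4), fun z => rfl⟩
  have hsc : Continuous σ.symm := by
    have := σ.continuousOn_symm
    rw [hσt] at this
    exact continuousOn_univ.1 this
  have hcc : Continuous chi := by
    have e : chi = fun z => (h.symm (σ.symm (z + σ s0)) : R4) := funext hchi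
    rw [e]
    exact continuous_subtype_val.comp (h.symm.continuous.comp (hsc.comp (by fun_prop)))
  have hci : Function.Injective chi := by
    intro z w hzw
    rw [hchi, hchi] at hzw
    have h1 := h.symm.injective (Subtype.val_injective hzw)
    have h2 : Set.InjOn σ.symm σ.target := σ.symm.injOn
    rw [hσt] at h2
    have h3 := h2 (Set.mem_univ _) (Set.mem_univ _) h1
    exact add_right_cancel h3
  have hc0 : chi 0 = x := by
    rw [hchi, zero_add, σ.left_inv hs0s, hs0, h.symm_apply_apply]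
  have hcM : ∀ z, chi z ∈ M := by
    intro z
    rw [hchi]
    exact (h.symm (σ.symm (z + σ s0))).2
  obtain ⟨δ, hδ, hδ'⟩ := Metric.continuousAt_iff.1 (hcc.continuousAt (x := 0)) r hr
  rw [hc0] at hδ'
  have hr1 : 0 < δ / 2 := by positivity
  have hball : ∀ z ∈ closedBall (0 : R3) (δ / 2), chi z - x ∈ L ∧ 0 ≤ inner ℝ (chi z - x) a := by
    intro z hz
    apply H _ (hcM z)
    apply hδ'
    rw [mem_closedBall] at hz
    linarith
  let T : L ≃ₗᵢ[ℝ] R3 := ((stdOrthonormalBasis ℝ L).reindex (finCongr hL)).repr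
  obtain ⟨f, hf⟩ : ∃ f : R3 → R3, ∀ z, f z = T (L.orthogonalProjection (chi z - x)) :=
    ⟨fun z => T (L.orthogonalProjection (chi z - x)), fun z => rfl⟩
  have hfc : Continuous f := by
    have e : f = fun z => T (L.orthogonalProjection (chi z - x)) := funext hf
    rw [e]
    exact T.continuous.comp (L.orthogonalProjection.continuous.comp (hcc.sub continuous_const))
  have hproj : ∀ z ∈ closedBall (0 : R3) (δ / 2),
      ((L.orthogonalProjection (chi z - x) : L) : R4) = chi z - x := by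
    intro z hz
    have h0 := Submodule.orthogonalProjection_mem_subspace_eq_self (K := L) ⟨chi z - x, (hball z hz).1⟩
    exact congrArg Subtype.val h0
  have hfi : InjOn f (closedBall 0 (δ / 2)) := by
    intro z hz w hw hzw
    rw [hf, hf] at hzw
    have h1 := T.injective hzw
    have h2 := congrArg Subtype.val h1
    rw [hproj z hz, hproj w hw] at h2
    exact hci (sub_left_injective h2)
  have hnh := iod3 f 0 (δ / 2) hr1 hfc.continuousOn hfi
  have hf0 : f 0 = 0 := by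
    rw [hf, hc0, sub_self, map_zero, map_zero]
  rw [hf0] at hnh
  have hcurve : Continuous fun t : ℝ => T ((-t) • (⟨a, ha⟩ : L)) := by
    exact T.continuous.comp (by fun_prop)
  have hev : ∀ᶠ t in 𝓝[>] (0 : ℝ), T ((-t) • (⟨a, ha⟩ : L)) ∈ f '' closedBall 0 (δ / 2) := by
    have h1 : Filter.Tendsto (fun t : ℝ => T ((-t) • (⟨a, ha⟩ : L))) (𝓝[>] (0 : ℝ)) (𝓝 0) := by
      have h2 := hcurve.tendsto 0
      simp only [neg_zero, zero_smul, map_zero] at h2
      exact h2.mono_left nhdsWithin_le_nhds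
    exact h1.eventually hnh
  obtain ⟨t, ⟨z, hz, hzt⟩, ht⟩ := (hev.and self_mem_nhdsWithin).exists
  have ht0 : 0 < t := ht
  rw [hf] at hzt
  have h1 := T.injective hzt
  have h2 := congrArg Subtype.val h1
  rw [hproj z hz] at h2
  have h3 := (hball z hz).2
  rw [h2] at h3
  have h4 : inner ℝ (((-t) • (⟨a, ha⟩ : L) : L) : R4) a = -t * ‖a‖ ^ 2 := by
    rw [Submodule.coe_smul, inner_smul_left, real_inner_self_eq_norm_sq]
    simp
  rw [h4] at h3
  have h5 : 0 < ‖a‖ ^ 2 := by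
    have := norm_pos_iff.2 ha0
    positivity
  nlinarith

theorem sc_M {M : Set R4} (h : M ≃ₜ sphere (0 : R4) 1) : SimplyConnectedSpace M := by
  have := sc_sphere
  exact h.toHomotopyEquiv.simplyConnectedSpace

theorem lpc_M {M : Set R4} (h : M ≃ₜ sphere (0 : R4) 1) : LocallyPathConnectedSpace M := by
  have : Fact (finrank ℝ R4 = 3 + 1) := ⟨by simp [R4]⟩
  have : LocallyPathConnectedSpace (sphere (0 : R4) 1) :=
    ChartedSpace.locallyPathConnectedSpace (EuclideanSpace ℝ (Fin 3)) (sphere (0 : R4) 1)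
  exact h.isOpenEmbedding.locallyPathConnectedSpace

/-! ## Boxes: linear algebra -/

theorem dc_add (B : Box) (w w' : R4) (k : Fin 3) : B.dc (w + w') k = B.dc w k + B.dc w' k := by
  unfold Box.dc
  rw [inner_add_left, add_div]

theorem dc_smul (B : Box) (c : ℝ) (w : R4) (k : Fin 3) : B.dc (c • w) k = c * B.dc w k := by
  unfold Box.dc
  rw [real_inner_smul_left, mul_div_assoc]

theorem dc_v (B : Box) (k l : Fin 3) : B.dc (B.v l) k = if k = l then 1 else 0 := by
  unfold Box.dc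
  by_cases h : k = l
  · subst h
    rw [if_pos rfl, real_inner_self_eq_norm_sq]
    exact div_self (pow_ne_zero 2 (norm_ne_zero_iff.mpr (B.ne k)))
  · rw [if_neg h, B.orth l k (Ne.symm h), zero_div]

theorem dc_sum (B : Box) (t : Fin 3 → ℝ) (k : Fin 3) : B.dc (∑ l, t l • B.v l) k = t k := by
  have h : ∀ s : Finset (Fin 3), B.dc (∑ l ∈ s, t l • B.v l) k = ∑ l ∈ s, t l * B.dc (B.v l) k := by
    intro s
    induction s using Finset.induction_on with
    | empty => simp [Box.dc]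
    | insert a s ha ih => rw [Finset.sum_insert ha, Finset.sum_insert ha, dc_add, dc_smul, ih]
  rw [h]
  simp [dc_v]

theorem v_mem_dirs (B : Box) (k : Fin 3) : B.v k ∈ B.dirs :=
  Submodule.subset_span ⟨k, rfl⟩

theorem sum_dc (B : Box) {w : R4} (hw : w ∈ B.dirs) : ∑ k, B.dc w k • B.v k = w := by
  obtain ⟨c, rfl⟩ := (Submodule.mem_span_range_iff_exists_fun ℝ).1 hw
  refine Finset.sum_congr rfl fun k _ => ?_
  rw [dc_sum]

theorem dc_eq_zero_iff (B : Box) (w : R4) (k : Fin 3) :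
    B.dc w k = 0 ↔ inner ℝ w (B.v k) = 0 := by
  unfold Box.dc
  rw [div_eq_zero_iff]
  constructor
  · rintro (h | h)
    · exact h
    · exact absurd h (pow_ne_zero 2 (norm_ne_zero_iff.mpr (B.ne k)))
  · exact Or.inl

theorem linInd_v (B : Box) : LinearIndependent ℝ B.v :=
  linearIndependent_of_ne_zero_of_inner_eq_zero B.ne (fun k l h => B.orth k l h)

theorem finrank_dirs (B : Box) : finrank ℝ B.dirs = 3 := by
  unfold Box.dirs
  rw [finrank_span_eq_card (linInd_v B)]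
  simp

theorem coord_add (B : Box) (x w : R4) (k : Fin 3) :
    B.coord (x + w) k = B.coord x k + B.dc w k := by
  unfold Box.coord
  rw [← dc_add]
  congr 1
  abel

theorem continuous_coord (B : Box) (k : Fin 3) : Continuous fun x => B.coord x k := by
  unfold Box.coord Box.dc
  fun_prop

theorem mem_carrier_iff_auxA (B : Box) (x : R4) (t : Fin 3 → ℝ) (h : x = B.p + ∑ k, t k • B.v k) :
    x - B.p ∈ B.dirs ∧ ∀ k, B.coord x k = t k := by
  have h1 : x - B.p = ∑ k, t k • B.v k := by rw [h]; abel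
  refine ⟨?_, fun k => ?_⟩
  · rw [h1]
    exact Submodule.sum_mem _ fun k _ => Submodule.smul_mem _ _ (v_mem_dirs B k)
  · show B.dc (x - B.p) k = t k
    rw [h1, dc_sum]

theorem mem_carrier_iff_auxB (B : Box) (x : R4) (h : x - B.p ∈ B.dirs) :
    x = B.p + ∑ k, B.coord x k • B.v k := by
  have h1 : ∑ k, B.coord x k • B.v k = x - B.p := sum_dc B h
  rw [h1]; abel

theorem mem_carrier_iff (B : Box) (x : R4) :
    x ∈ B.carrier ↔ x - B.p ∈ B.dirs ∧ ∀ k, 0 ≤ B.coord x k ∧ B.coord x k ≤ 1 := by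
  constructor
  · rintro ⟨t, ht, hx⟩
    obtain ⟨h1, h2⟩ := mem_carrier_iff_auxA B x t hx
    exact ⟨h1, fun k => by rw [h2 k]; exact ht k⟩
  · rintro ⟨h1, h2⟩
    exact ⟨fun k => B.coord x k, h2, mem_carrier_iff_auxB B x h1⟩

theorem mem_core_iff (B : Box) (x : R4) :
    x ∈ B.core ↔ x - B.p ∈ B.dirs ∧ ∀ k, 0 < B.coord x k ∧ B.coord x k < 1 := by
  constructor
  · rintro ⟨t, ht, hx⟩
    obtain ⟨h1, h2⟩ := mem_carrier_iff_auxA B x t hx
    exact ⟨h1, fun k => by rw [h2 k]; exact ht k⟩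
  · rintro ⟨h1, h2⟩
    exact ⟨fun k => B.coord x k, h2, mem_carrier_iff_auxB B x h1⟩

theorem core_subset (B : Box) : B.core ⊆ B.carrier := by
  rintro x ⟨t, ht, hx⟩
  exact ⟨t, fun k => ⟨(ht k).1.le, (ht k).2.le⟩, hx⟩

theorem sub_mem_dirs (B : Box) {x y : R4} (hx : x ∈ B.carrier) (hy : y ∈ B.carrier) :
    y - x ∈ B.dirs := by
  have h1 := ((mem_carrier_iff B x).1 hx).1
  have h2 := ((mem_carrier_iff B y).1 hy).1
  have : y - x = (y - B.p) - (x - B.p) := by abel
  rw [this]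
  exact Submodule.sub_mem _ h2 h1

theorem convex_carrier_aux (B : Box) (x y : R4) (a b : ℝ) (hab : a + b = 1) :
    a • x + b • y - B.p = a • (x - B.p) + b • (y - B.p) := by
  have h : B.p = a • B.p + b • B.p := by rw [← add_smul, hab, one_smul]
  rw [smul_sub, smul_sub]
  nth_rewrite 1 [h]
  abel

theorem convex_carrier_coord (B : Box) (x y : R4) (a b : ℝ) (hab : a + b = 1) (k : Fin 3) :
    B.coord (a • x + b • y) k = a * B.coord x k + b * B.coord y k := by
  unfold Box.coord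
  rw [convex_carrier_aux B x y a b hab, dc_add, dc_smul, dc_smul]

theorem convex_carrier (B : Box) : Convex ℝ B.carrier := by
  intro x hx y hy a b ha hb hab
  rw [mem_carrier_iff] at hx hy ⊢
  refine ⟨?_, fun k => ?_⟩
  · rw [convex_carrier_aux B x y a b hab]
    exact add_mem (Submodule.smul_mem _ _ hx.1) (Submodule.smul_mem _ _ hy.1)
  · rw [convex_carrier_coord B x y a b hab]
    obtain ⟨h1, h2⟩ := hx.2 k
    obtain ⟨h3, h4⟩ := hy.2 k
    constructor
    · positivity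
    · nlinarith

theorem isCompact_carrier (B : Box) : IsCompact B.carrier := by
  have h : B.carrier = (fun t : Fin 3 → ℝ => B.p + ∑ k, t k • B.v k) ''
      (Set.univ.pi fun _ : Fin 3 => Icc (0 : ℝ) 1) := by
    ext x
    constructor
    · rintro ⟨t, ht, rfl⟩
      exact ⟨t, fun k _ => ht k, rfl⟩
    · rintro ⟨t, ht, rfl⟩
      exact ⟨t, fun k => ht k (Set.mem_univ k), rfl⟩
  rw [h]
  apply IsCompact.image
  · exact isCompact_univ_pi fun _ => isCompact_Icc
  · fun_prop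

theorem add_smul_mem_core (B : Box) {x y : R4} (hx : x ∈ B.carrier) (hy : y ∈ B.core) {s : ℝ}
    (hs : 0 < s) (hs1 : s ≤ 1) : x + s • (y - x) ∈ B.core := by
  have e : x + s • (y - x) = (1 - s) • x + s • y := by
    rw [smul_sub, sub_smul, one_smul]
    abel
  rw [e]
  rw [mem_carrier_iff] at hx
  rw [mem_core_iff] at hy ⊢
  have hab : (1 - s) + s = 1 := by ring
  refine ⟨?_, fun k => ?_⟩
  · rw [convex_carrier_aux B x y _ _ hab]
    exact add_mem (Submodule.smul_mem _ _ hx.1) (Submodule.smul_mem _ _ hy.1)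
  · rw [convex_carrier_coord B x y _ _ hab]
    obtain ⟨h1, h2⟩ := hx.2 k
    obtain ⟨h3, h4⟩ := hy.2 k
    have h5 : 0 ≤ 1 - s := by linarith
    have h6 : 0 ≤ (1 - s) * B.coord x k := mul_nonneg h5 h1
    have h7 : 0 < s * B.coord y k := mul_pos hs h3
    have h8 : (1 - s) * B.coord x k ≤ (1 - s) * 1 := mul_le_mul_of_nonneg_left h2 h5
    have h9 : s * B.coord y k < s * 1 := mul_lt_mul_of_pos_left h4 hs
    constructor
    · linarith
    · linarith

theorem core_near (B : Box) {x : R4} (hx : x ∈ B.carrier) {ε : ℝ} (hε : 0 < ε) :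
    ∃ y ∈ B.core, dist y x < ε := by
  set c : R4 := B.p + ∑ k, (1 / 2 : ℝ) • B.v k with hc
  have hcm : c ∈ B.core := ⟨fun _ => 1 / 2, fun _ => by norm_num, rfl⟩
  set s : ℝ := min 1 (ε / (2 * (‖c - x‖ + 1))) with hs
  have hs0 : 0 < s := lt_min one_pos (by positivity)
  have hs1 : s ≤ 1 := min_le_left _ _
  refine ⟨x + s • (c - x), add_smul_mem_core B hx hcm hs0 hs1, ?_⟩
  rw [dist_eq_norm, add_sub_cancel_left, norm_smul, Real.norm_of_nonneg hs0.le]
  have h1 : s ≤ ε / (2 * (‖c - x‖ + 1)) := min_le_right _ _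
  have h0 : 0 ≤ ‖c - x‖ := norm_nonneg _
  calc s * ‖c - x‖ ≤ ε / (2 * (‖c - x‖ + 1)) * ‖c - x‖ := mul_le_mul_of_nonneg_right h1 h0
    _ < ε := by
      rw [div_mul_eq_mul_div, div_lt_iff₀ (by positivity)]
      nlinarith

theorem core_nhd (B : Box) {x : R4} (hx : x ∈ B.core) :
    ∃ δ > 0, ∀ w ∈ B.dirs, ‖w‖ < δ → x + w ∈ B.core := by
  have hx' := (mem_core_iff B x).mp hx
  have hev : ∀ᶠ y in 𝓝 x, ∀ k, 0 < B.coord y k ∧ B.coord y k < 1 := by
    rw [Filter.eventually_all]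
    intro k
    have hc : ContinuousAt (fun y => B.coord y k) x := (continuous_coord B k).continuousAt
    exact (hc.eventually (lt_mem_nhds (hx'.2 k).1)).and (hc.eventually (gt_mem_nhds (hx'.2 k).2))
  obtain ⟨δ, hδ, h⟩ := Metric.eventually_nhds_iff.mp hev
  refine ⟨δ, hδ, fun w hw hn => ?_⟩
  rw [mem_core_iff]
  refine ⟨?_, h (by rwa [dist_eq_norm, add_sub_cancel_left])⟩
  have e : x + w - B.p = (x - B.p) + w := by abel
  rw [e]
  exact add_mem hx'.1 hw

theorem star_lemma {ι : Type} [Finite ι] (b : ι → Box) (x : R4) :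
    ∃ ε > 0, ∀ j y, y ∈ (b j).carrier → dist y x < ε → x ∈ (b j).carrier := by
  have h1 : ∀ j, ∀ᶠ y in 𝓝 x, y ∈ (b j).carrier → x ∈ (b j).carrier := by
    intro j
    by_cases hx : x ∈ (b j).carrier
    · exact Filter.Eventually.of_forall fun y _ => hx
    · have hopen : IsOpen ((b j).carrier)ᶜ := (isCompact_carrier (b j)).isClosed.isOpen_compl
      filter_upwards [hopen.mem_nhds hx] with y hy hy2
      exact absurd hy2 hy
  have h2 : ∀ᶠ y in 𝓝 x, ∀ j, y ∈ (b j).carrier → x ∈ (b j).carrier :=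
    Filter.eventually_all.mpr h1
  obtain ⟨ε, hε, h3⟩ := Metric.eventually_nhds_iff.mp h2
  exact ⟨ε, hε, fun j y hy hd => h3 hd j hy⟩

theorem tcx_real (c : ℝ) (h0 : 0 ≤ c) (h1 : c ≤ 1) : ∃ r > 0, ∀ m : ℝ, (c = 0 → 0 ≤ m) →
    (c = 1 → m ≤ 0) → |m| ≤ r → 0 ≤ c + m ∧ c + m ≤ 1 := by
  refine ⟨min (if c = 0 then 1 else c) (if c = 1 then 1 else 1 - c), ?_, ?_⟩
  · apply lt_min
    · split_ifs with h
      · exact one_pos
      · exact lt_of_le_of_ne h0 (Ne.symm h)
    · split_ifs with h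
      · exact one_pos
      · have := lt_of_le_of_ne h1 h
        linarith
  · intro m hm0 hm1 hm
    have a1 := hm.trans (min_le_left _ _)
    have a2 := hm.trans (min_le_right _ _)
    have a3 := abs_le.1 (le_refl |m|)
    constructor
    · by_cases hc : c = 0
      · rw [hc, zero_add]; exact hm0 hc
      · rw [if_neg hc] at a1
        linarith [a3.1]
    · by_cases hc : c = 1
      · rw [hc]
        linarith [hm1 hc]
      · rw [if_neg hc] at a2
        linarith [a3.2]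

theorem tcx_min (δ : Fin 3 → ℝ) (h : ∀ k, 0 < δ k) : ∃ D > 0, ∀ k, D ≤ δ k := by
  refine ⟨min (δ 0) (min (δ 1) (δ 2)), lt_min (h 0) (lt_min (h 1) (h 2)), fun k => ?_⟩
  fin_cases k
  · exact min_le_left _ _
  · exact (min_le_right _ _).trans (min_le_left _ _)
  · exact (min_le_right _ _).trans (min_le_right _ _)

theorem tcx_mem (B : Box) {x w : R4} (hx : x ∈ B.carrier) (hw : w ∈ B.dirs)
    (h : ∀ k, 0 ≤ B.coord x k + B.dc w k ∧ B.coord x k + B.dc w k ≤ 1) : x + w ∈ B.carrier := by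
  rw [mem_carrier_iff] at hx ⊢
  refine ⟨?_, fun k => ?_⟩
  · have : x + w - B.p = (x - B.p) + w := by abel
    rw [this]
    exact B.dirs.add_mem hx.1 hw
  · rw [coord_add]
    exact h k

theorem tc_iff (B : Box) (x w : R4) :
    TC B x w ↔ x ∈ B.carrier ∧ w ∈ B.dirs ∧
      ∀ k, (B.coord x k = 0 → 0 ≤ B.dc w k) ∧ (B.coord x k = 1 → B.dc w k ≤ 0) := by
  constructor
  · rintro ⟨δ, hδ, h⟩
    have hx : x ∈ B.carrier := by
      have := h 0 le_rfl hδ.le
      rwa [zero_smul, add_zero] at this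
    have hy := h δ hδ.le le_rfl
    have hw : δ • w ∈ B.dirs := by
      have := sub_mem_dirs B hx hy
      rwa [add_sub_cancel_left] at this
    have hw' : w ∈ B.dirs := by
      have := B.dirs.smul_mem δ⁻¹ hw
      rwa [smul_smul, inv_mul_cancel₀ hδ.ne', one_smul] at this
    refine ⟨hx, hw', fun k => ?_⟩
    have hc := ((mem_carrier_iff B _).1 hy).2 k
    rw [coord_add, dc_smul] at hc
    constructor
    · intro h0
      rw [h0, zero_add] at hc
      exact nonneg_of_mul_nonneg_right hc.1 hδ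
    · intro h1
      rw [h1] at hc
      have : δ * B.dc w k ≤ 0 := by linarith [hc.2]
      exact nonpos_of_mul_nonpos_right this hδ
  · rintro ⟨hx, hw, h⟩
    have hc := ((mem_carrier_iff B _).1 hx).2
    have hr : ∀ k, ∃ δ > 0, ∀ s : ℝ, 0 ≤ s → s ≤ δ →
        0 ≤ B.coord x k + s * B.dc w k ∧ B.coord x k + s * B.dc w k ≤ 1 := by
      intro k
      obtain ⟨r, hr, hr'⟩ := tcx_real (B.coord x k) (hc k).1 (hc k).2
      refine ⟨r / (|B.dc w k| + 1), by positivity, fun s hs hs' => hr' _ ?_ ?_ ?_⟩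
      · intro h0
        exact mul_nonneg hs ((h k).1 h0)
      · intro h1
        exact mul_nonpos_of_nonneg_of_nonpos hs ((h k).2 h1)
      · rw [abs_mul, abs_of_nonneg hs]
        rw [le_div_iff₀ (by positivity)] at hs'
        nlinarith [abs_nonneg (B.dc w k)]
    choose δ hδ hδ' using hr
    obtain ⟨D, hD, hD'⟩ := tcx_min δ hδ
    refine ⟨D, hD, fun s hs hs' => tcx_mem B hx (B.dirs.smul_mem s hw) fun k => ?_⟩
    rw [dc_smul]
    exact hδ' k s hs (hs'.trans (hD' k))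

theorem TC.add {B : Box} {x w w' : R4} (h : TC B x w) (h' : TC B x w') : TC B x (w + w') := by
  rw [tc_iff] at h h' ⊢
  refine ⟨h.1, B.dirs.add_mem h.2.1 h'.2.1, fun k => ?_⟩
  rw [dc_add]
  constructor
  · intro h0
    have := (h.2.2 k).1 h0
    have := (h'.2.2 k).1 h0
    linarith
  · intro h1
    have := (h.2.2 k).2 h1
    have := (h'.2.2 k).2 h1
    linarith

theorem TC.smul {B : Box} {x w : R4} (h : TC B x w) {c : ℝ} (hc : 0 ≤ c) : TC B x (c • w) := by
  rw [tc_iff] at h ⊢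
  refine ⟨h.1, B.dirs.smul_mem c h.2.1, fun k => ?_⟩
  rw [dc_smul]
  exact ⟨fun h0 => mul_nonneg hc ((h.2.2 k).1 h0),
    fun h1 => mul_nonpos_of_nonneg_of_nonpos hc ((h.2.2 k).2 h1)⟩

theorem tc_uniform (B : Box) (x : R4) (hx : x ∈ B.carrier) :
    ∃ r > 0, ∀ w, TC B x w → ‖w‖ ≤ r → x + w ∈ B.carrier := by
  have hc := ((mem_carrier_iff B _).1 hx).2
  have hr : ∀ k, ∃ r > 0, ∀ m : ℝ, (B.coord x k = 0 → 0 ≤ m) →
      (B.coord x k = 1 → m ≤ 0) → |m| ≤ r → 0 ≤ B.coord x k + m ∧ B.coord x k + m ≤ 1 :=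
    fun k => tcx_real _ (hc k).1 (hc k).2
  choose r hr hr' using hr
  have hv : ∀ k, 0 < ‖B.v k‖ := fun k => norm_pos_iff.2 (B.ne k)
  obtain ⟨D, hD, hD'⟩ := tcx_min (fun k => r k * ‖B.v k‖) (fun k => mul_pos (hr k) (hv k))
  refine ⟨D, hD, fun w hw hwD => ?_⟩
  rw [tc_iff] at hw
  refine tcx_mem B hx hw.2.1 fun k => hr' k _ (hw.2.2 k).1 (hw.2.2 k).2 ?_
  unfold Box.dc
  rw [abs_div, abs_of_nonneg (sq_nonneg ‖B.v k‖), div_le_iff₀ (by have := hv k; positivity)]
  calc |inner ℝ w (B.v k)| ≤ ‖w‖ * ‖B.v k‖ := abs_real_inner_le_norm _ _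
    _ ≤ (r k * ‖B.v k‖) * ‖B.v k‖ :=
        mul_le_mul_of_nonneg_right (hwD.trans (hD' k)) (norm_nonneg _)
    _ = r k * ‖B.v k‖ ^ 2 := by ring

/-- local structure at a point of a face disc -/
theorem face_form (B : Box) (D : Submodule ℝ R4) (hD : finrank ℝ D = 2) (x : R4)
    (hx : x ∈ B.carrier) (hxc : x ∉ B.core)
    (hG : ∃ ε > 0, ∀ w ∈ D, ‖w‖ < ε → x + w ∈ B.carrier) :
    ∃ k, FacePl B D k ∧ (B.coord x k = 0 ∨ B.coord x k = 1) ∧
      ∀ l, l ≠ k → 0 < B.coord x l ∧ B.coord x l < 1 := by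
  classical
  obtain ⟨ε, hε, hball⟩ := hG
  have hsm : ∀ w ∈ D, ∃ c : ℝ, 0 < c ∧ x + c • w ∈ B.carrier ∧ x + (-c) • w ∈ B.carrier := by
    intro w hw
    have hn : 0 < ‖w‖ + 1 := by positivity
    refine ⟨ε / (2 * (‖w‖ + 1)), by positivity, hball _ (D.smul_mem _ hw) ?_,
      hball _ (D.smul_mem _ hw) ?_⟩
    · rw [norm_smul, Real.norm_eq_abs, abs_of_pos (by positivity), div_mul_eq_mul_div,
        div_lt_iff₀ (by positivity)]
      nlinarith [norm_nonneg w]
    · rw [norm_smul, Real.norm_eq_abs, abs_neg, abs_of_pos (by positivity), div_mul_eq_mul_div,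
        div_lt_iff₀ (by positivity)]
      nlinarith [norm_nonneg w]
  have hdirs : ∀ w ∈ D, w ∈ B.dirs := by
    intro w hw
    obtain ⟨c, hc, h1, -⟩ := hsm w hw
    have h2 := sub_mem_dirs B hx h1
    rw [add_sub_cancel_left] at h2
    have h3 := B.dirs.smul_mem c⁻¹ h2
    rwa [smul_smul, inv_mul_cancel₀ hc.ne', one_smul] at h3
  have hzero : ∀ k, (B.coord x k = 0 ∨ B.coord x k = 1) → ∀ w ∈ D, B.dc w k = 0 := by
    intro k hk w hw
    obtain ⟨c, hc, h1, h2⟩ := hsm w hw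
    have h3 := ((mem_carrier_iff B _).1 h1).2 k
    have h4 := ((mem_carrier_iff B _).1 h2).2 k
    rw [coord_add, dc_smul] at h3 h4
    rcases hk with hk | hk
    · rw [hk] at h3 h4
      have h5 : 0 ≤ c * B.dc w k := by linarith [h3.1]
      have h6 : c * B.dc w k ≤ 0 := by linarith [h4.1]
      have h7 : c * B.dc w k = 0 := le_antisymm h6 h5
      exact (mul_eq_zero.1 h7).resolve_left hc.ne'
    · rw [hk] at h3 h4
      have h5 : 0 ≤ c * B.dc w k := by linarith [h4.2]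
      have h6 : c * B.dc w k ≤ 0 := by linarith [h3.2]
      have h7 : c * B.dc w k = 0 := le_antisymm h6 h5
      exact (mul_eq_zero.1 h7).resolve_left hc.ne'
  have hxd := (mem_carrier_iff B x).1 hx
  have hdich : ∀ k, (B.coord x k = 0 ∨ B.coord x k = 1) ∨ (0 < B.coord x k ∧ B.coord x k < 1) := by
    intro k
    obtain ⟨h1, h2⟩ := hxd.2 k
    rcases eq_or_lt_of_le h1 with h | h
    · exact Or.inl (Or.inl h.symm)
    · rcases eq_or_lt_of_le h2 with h' | h'
      · exact Or.inl (Or.inr h')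
      · exact Or.inr ⟨h, h'⟩
  obtain ⟨k, hk⟩ : ∃ k, (B.coord x k = 0 ∨ B.coord x k = 1) := by
    by_contra hno
    push Not at hno
    apply hxc
    rw [mem_core_iff]
    refine ⟨hxd.1, fun k => ?_⟩
    rcases hdich k with h | h
    · rcases h with h | h
      · exact absurd h (hno k).1
      · exact absurd h (hno k).2
    · exact h
  have hDle : D ≤ Submodule.span ℝ (Set.range (fun l : {l : Fin 3 // l ≠ k} => B.v l)) := by
    intro w hw
    rw [← sum_dc B (hdirs w hw)]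
    refine Submodule.sum_mem _ fun l _ => ?_
    by_cases hl : l = k
    · subst hl
      rw [hzero l hk w hw, zero_smul]
      exact Submodule.zero_mem _
    · exact Submodule.smul_mem _ _ (Submodule.subset_span ⟨⟨l, hl⟩, rfl⟩)
  have hfr : finrank ℝ (Submodule.span ℝ (Set.range (fun l : {l : Fin 3 // l ≠ k} => B.v l))) ≤ 2 := by
    have h := finrank_range_le_card (R := ℝ) (fun l : {l : Fin 3 // l ≠ k} => B.v l)
    have hc : Fintype.card {l : Fin 3 // l ≠ k} = 2 := by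
      rw [Fintype.card_subtype_compl, Fintype.card_fin, Fintype.card_subtype_eq]
    rw [hc] at h
    exact h
  have hDeq : D = Submodule.span ℝ (Set.range (fun l : {l : Fin 3 // l ≠ k} => B.v l)) :=
    Submodule.eq_of_le_of_finrank_le hDle (by rw [hD]; exact hfr)
  refine ⟨k, ⟨?_, ?_⟩, hk, ?_⟩
  · intro l
    constructor
    · rintro hl rfl
      have h1 := hzero l hk _ hl
      rw [dc_v, if_pos rfl] at h1
      exact one_ne_zero h1
    · intro hl
      rw [hDeq]
      exact Submodule.subset_span ⟨⟨l, hl⟩, rfl⟩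
  · intro w hw
    exact (dc_eq_zero_iff B w k).1 (hzero k hk w hw)
  · intro l hl
    rcases hdich l with h | h
    · exfalso
      obtain ⟨m, hm⟩ : ∃ m : Fin 3, ∀ j : Fin 3, j = k ∨ j = l ∨ j = m := by
        have key : ∀ k l : Fin 3, l ≠ k → ∃ m : Fin 3, ∀ j : Fin 3, j = k ∨ j = l ∨ j = m := by
          decide
        exact key k l hl
      have h2 : D ≤ Submodule.span ℝ {B.v m} := by
        intro w hw
        rw [← sum_dc B (hdirs w hw)]
        refine Submodule.sum_mem _ fun j _ => ?_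
        rcases hm j with h3 | h3 | h3
        · rw [h3, hzero k hk w hw, zero_smul]
          exact Submodule.zero_mem _
        · rw [h3, hzero l h w hw, zero_smul]
          exact Submodule.zero_mem _
        · rw [h3]
          exact Submodule.smul_mem _ _ (Submodule.mem_span_singleton_self _)
      have h3 := Submodule.finrank_mono h2
      rw [hD, finrank_span_singleton (B.ne m)] at h3
      omega
    · exact h

/-- a line direction in a face plane, not parallel to an edge, has a full disc around it -/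
theorem through (B : Box) (D : Submodule ℝ R4) (k : Fin 3) (hk : FacePl B D k) (hD : D ≤ B.dirs)
    (u : R4) (q : R4) (hu : ∃ ε > 0, ∀ t : ℝ, |t| < ε → q + t • u ∈ B.carrier)
    (hne : ∀ l, l ≠ k → B.dc u l ≠ 0) : ∀ w ∈ D, TC B q w := by
  obtain ⟨ε, hε, hu⟩ := hu
  have hq : q ∈ B.carrier := by
    have := hu 0 (by simpa using hε)
    simpa using this
  intro w hw
  rw [tc_iff]
  refine ⟨hq, hD hw, fun m => ?_⟩
  have key : ∀ t : ℝ, |t| < ε → 0 ≤ B.coord q m + t * B.dc u m ∧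
      B.coord q m + t * B.dc u m ≤ 1 := by
    intro t ht
    have h1 := ((mem_carrier_iff B _).mp (hu t ht)).2 m
    rwa [coord_add, dc_smul] at h1
  have hp : |ε / 2| < ε := by
    rw [abs_of_pos (by linarith)]
    linarith
  have hn : |-(ε / 2)| < ε := by
    rw [abs_neg]
    exact hp
  have k1 := key _ hp
  have k2 := key _ hn
  by_cases hm : m = k
  · have h0 : B.dc w m = 0 := by
      rw [dc_eq_zero_iff, hm]
      exact hk.2 w hw
    rw [h0]
    exact ⟨fun _ => le_rfl, fun _ => le_rfl⟩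
  · have h2 := hne m hm
    constructor
    · intro h3
      exfalso
      apply h2
      rw [h3] at k1 k2
      have e1 : 0 ≤ ε / 2 * B.dc u m := by linarith [k1.1]
      have e2 : ε / 2 * B.dc u m ≤ 0 := by linarith [k2.1]
      have e3 : ε / 2 * B.dc u m = 0 := le_antisymm e2 e1
      rcases mul_eq_zero.mp e3 with h | h
      · linarith
      · exact h
    · intro h3
      exfalso
      apply h2
      rw [h3] at k1 k2
      have e1 : ε / 2 * B.dc u m ≤ 0 := by linarith [k1.2]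
      have e2 : 0 ≤ ε / 2 * B.dc u m := by linarith [k2.2]
      have e3 : ε / 2 * B.dc u m = 0 := le_antisymm e1 e2
      rcases mul_eq_zero.mp e3 with h | h
      · linarith
      · exact h

theorem aligned_refl (D : Submodule ℝ R4) (A : Box) : Aligned D A A := by
  intro k l _ _
  by_cases h : k = l
  · exact Or.inr ⟨1, by rw [h, one_smul]⟩
  · exact Or.inl (A.orth k l h)

theorem aligned_symm {D : Submodule ℝ R4} {A B : Box} (h : Aligned D A B) : Aligned D B A := by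
  intro k l hk hl
  rcases h l k hl hk with h1 | ⟨c, hc⟩
  · left
    rw [real_inner_comm]
    exact h1
  · right
    have hc0 : c ≠ 0 := by
      intro h0
      apply B.ne k
      rw [hc, h0, zero_smul]
    refine ⟨c⁻¹, ?_⟩
    rw [hc, smul_smul, inv_mul_cancel₀ hc0, one_smul]

/-! ## Local structure of box spheres -/

theorem core_unique {ι : Type} {b : ι → Box} (hb : IsBoxSphere b) {x : R4} {i j : ι}
    (hi : x ∈ (b i).core) (hj : x ∈ (b j).carrier) : j = i := by
  obtain ⟨h⟩ := hb.sphere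
  obtain ⟨T, hT⟩ : ∃ T : R3 → R4, (Continuous T ∧ Function.Injective T) ∧ T 0 = 0 ∧
      ∀ z, T z ∈ (b i).dirs ∧ ‖T z‖ = ‖z‖ := by
    let e := ((stdOrthonormalBasis ℝ (b i).dirs).reindex (finCongr (finrank_dirs (b i)))).repr.symm
    refine ⟨fun z => ((e z : (b i).dirs) : R4), ⟨?_, ?_⟩, ?_, fun z => ⟨(e z).2, ?_⟩⟩
    · exact continuous_subtype_val.comp e.continuous
    · intro z z' hzz
      exact e.injective (Subtype.ext hzz)
    · simp
    · have : ‖e z‖ = ‖z‖ := e.norm_map z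
      rw [← this]
      rfl
  obtain ⟨⟨hTc, hTi⟩, hT0, hTm⟩ := hT
  obtain ⟨δ, hδ, hcore⟩ := core_nhd (b i) hi
  have hφ : ∀ z ∈ closedBall (0 : R3) (δ / 2), x + T z ∈ (b i).core := by
    intro z hz
    rw [mem_closedBall_zero_iff] at hz
    refine hcore _ (hTm z).1 ?_
    rw [(hTm z).2]
    linarith
  obtain ⟨ε, hε, hM⟩ := iod_M h (fun z => x + T z) (δ / 2) (by linarith)
    (continuous_const.add hTc).continuousOn
    (fun z _ z' _ hzz => hTi (add_left_cancel hzz))
    (fun z hz => mem_iUnion.2 ⟨i, core_subset _ (hφ z hz)⟩)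
  have e0 : x + T 0 = x := by rw [hT0, add_zero]
  obtain ⟨y, hy, hyx⟩ := core_near (b j) hj hε
  obtain ⟨z, hz, hzy⟩ := hM y (mem_iUnion.2 ⟨j, core_subset _ hy⟩) (by
    change dist y (x + T 0) < ε
    rw [e0]
    exact hyx)
  have hyi : y ∈ (b i).core := by
    rw [← hzy]
    exact hφ z hz
  by_contra hne
  exact (Set.disjoint_left.1 (hb.disj j i hne)) hy hyi

theorem exists_second {ι : Type} {b : ι → Box} (hb : IsBoxSphere b) {x : R4} {i : ι}
    (hi : x ∈ (b i).carrier) (hc : x ∉ (b i).core) : ∃ j, j ≠ i ∧ x ∈ (b j).carrier := by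
  by_contra hcon
  push Not at hcon
  haveI := hb.fin
  obtain ⟨ε, hε, hst⟩ := star_lemma b x
  obtain ⟨M⟩ := hb.sphere
  have hxm := (mem_carrier_iff (b i) x).1 hi
  have hk : ∃ k, (b i).coord x k = 0 ∨ (b i).coord x k = 1 := by
    by_contra hno
    push Not at hno
    apply hc
    rw [mem_core_iff]
    refine ⟨hxm.1, fun k => ?_⟩
    exact ⟨lt_of_le_of_ne (hxm.2 k).1 (hno k).1.symm, lt_of_le_of_ne (hxm.2 k).2 (hno k).2⟩
  obtain ⟨k, hk⟩ := hk
  have hxM : x ∈ (⋃ i, (b i).carrier : Set R4) := Set.mem_iUnion.2 ⟨i, hi⟩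
  have hloc : ∀ y ∈ (⋃ i, (b i).carrier : Set R4), dist y x < ε → y ∈ (b i).carrier := by
    intro y hy hd
    obtain ⟨j, hj⟩ := Set.mem_iUnion.1 hy
    have hxj := hst j y hj hd
    have : j = i := by
      by_contra hne
      exact hcon j hne hxj
    rw [← this]
    exact hj
  have hcoord : ∀ y, (b i).coord y k = (b i).coord x k + (b i).dc (y - x) k := by
    intro y
    have := coord_add (b i) x (y - x) k
    rwa [add_sub_cancel] at this
  have hvpos : 0 < ‖(b i).v k‖ ^ 2 := by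
    have := norm_pos_iff.2 ((b i).ne k)
    positivity
  have hdc : ∀ w, inner ℝ w ((b i).v k) = (b i).dc w k * ‖(b i).v k‖ ^ 2 := by
    intro w
    unfold Box.dc
    rw [div_mul_cancel₀ _ hvpos.ne']
  rcases hk with hk | hk
  · refine no_boundary M x hxM (b i).dirs (finrank_dirs (b i)) ((b i).v k) (v_mem_dirs _ _)
      ((b i).ne k) ε hε fun y hy hd => ?_
    have hyi := hloc y hy hd
    refine ⟨sub_mem_dirs (b i) hi hyi, ?_⟩
    rw [hdc]
    have h1 := hcoord y
    have h2 := (((mem_carrier_iff (b i) y).1 hyi).2 k).1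
    rw [hk] at h1
    exact mul_nonneg (by linarith) hvpos.le
  · refine no_boundary M x hxM (b i).dirs (finrank_dirs (b i)) (-(b i).v k)
      ((b i).dirs.neg_mem (v_mem_dirs _ _)) (neg_ne_zero.2 ((b i).ne k)) ε hε fun y hy hd => ?_
    have hyi := hloc y hy hd
    refine ⟨sub_mem_dirs (b i) hi hyi, ?_⟩
    rw [inner_neg_right, hdc]
    have h1 := hcoord y
    have h2 := (((mem_carrier_iff (b i) y).1 hyi).2 k).2
    rw [hk] at h1
    have h3 : (b i).dc (y - x) k ≤ 0 := by linarith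
    have := mul_nonpos_of_nonpos_of_nonneg h3 hvpos.le
    linarith

/-- the inward pointing edge vector -/
theorem no_third_inward (B : Box) (D : Submodule ℝ R4) {x : R4} (hx : x ∈ B.carrier)
    {k : Fin 3} (hF : FacePl B D k) (hk : B.coord x k = 0 ∨ B.coord x k = 1)
    (hl : ∀ l, l ≠ k → 0 < B.coord x l ∧ B.coord x l < 1) :
    ∃ c : R4, c ≠ 0 ∧ (∀ w ∈ D, inner ℝ w c = 0) ∧ TC B x c ∧
      ∀ s : ℝ, 0 < s → s < 1 → x + s • c ∈ B.core := by
  have hxd := ((mem_carrier_iff B x).1 hx).1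
  rcases hk with hk | hk
  · refine ⟨B.v k, B.ne k, hF.2, ?_, ?_⟩
    · rw [tc_iff]
      refine ⟨hx, v_mem_dirs B k, fun l => ?_⟩
      by_cases h : l = k
      · subst h
        rw [dc_v, if_pos rfl, hk]
        exact ⟨fun _ => zero_le_one, fun h => by norm_num at h⟩
      · have := hl l h
        exact ⟨fun h0 => by rw [h0] at this; exact absurd this.1 (lt_irrefl _),
          fun h1 => by rw [h1] at this; exact absurd this.2 (lt_irrefl _)⟩
    · intro s hs0 hs1
      rw [mem_core_iff]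
      constructor
      · have : x + s • B.v k - B.p = (x - B.p) + s • B.v k := by abel
        rw [this]
        exact B.dirs.add_mem hxd (B.dirs.smul_mem _ (v_mem_dirs B k))
      · intro l
        rw [coord_add, dc_smul, dc_v]
        by_cases h : l = k
        · subst h
          rw [if_pos rfl, hk]
          constructor <;> linarith
        · rw [if_neg h]
          have := hl l h
          constructor <;> linarith [this.1, this.2]
  · refine ⟨-B.v k, neg_ne_zero.2 (B.ne k), fun w hw => ?_, ?_, ?_⟩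
    · rw [inner_neg_right, hF.2 w hw, neg_zero]
    · rw [tc_iff]
      refine ⟨hx, B.dirs.neg_mem (v_mem_dirs B k), fun l => ?_⟩
      by_cases h : l = k
      · subst h
        have h1 : B.dc (-B.v l) l = -1 := by
          have : -B.v l = (-1 : ℝ) • B.v l := by simp
          rw [this, dc_smul, dc_v, if_pos rfl]
          norm_num
        rw [h1, hk]
        exact ⟨fun h => by norm_num at h, fun _ => by norm_num⟩
      · have := hl l h
        exact ⟨fun h0 => by rw [h0] at this; exact absurd this.1 (lt_irrefl _),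
          fun h1 => by rw [h1] at this; exact absurd this.2 (lt_irrefl _)⟩
    · intro s hs0 hs1
      have e : s • (-B.v k) = (-s) • B.v k := by simp
      rw [mem_core_iff, e]
      constructor
      · have : x + (-s) • B.v k - B.p = (x - B.p) + (-s) • B.v k := by abel
        rw [this]
        exact B.dirs.add_mem hxd (B.dirs.smul_mem _ (v_mem_dirs B k))
      · intro l
        rw [coord_add, dc_smul, dc_v]
        by_cases h : l = k
        · subst h
          rw [if_pos rfl, hk]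
          constructor <;> linarith
        · rw [if_neg h]
          have := hl l h
          constructor <;> linarith [this.1, this.2]

/-- an orthonormal frame of a plane -/
theorem no_third_frame (D : Submodule ℝ R4) (hD : finrank ℝ D = 2) :
    ∃ e f : R4, e ∈ D ∧ f ∈ D ∧ inner ℝ e e = (1:ℝ) ∧ inner ℝ f f = (1:ℝ) ∧
      inner ℝ e f = (0:ℝ) := by
  let bb := (stdOrthonormalBasis ℝ D).reindex (finCongr hD)
  have ho := bb.orthonormal
  refine ⟨bb 0, bb 1, (bb 0).2, (bb 1).2, ?_, ?_, ?_⟩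
  · have := ho.1 0
    rw [real_inner_self_eq_norm_sq]
    have h2 : ‖((bb 0 : D) : R4)‖ = 1 := this
    rw [h2]; norm_num
  · have := ho.1 1
    rw [real_inner_self_eq_norm_sq]
    have h2 : ‖((bb 1 : D) : R4)‖ = 1 := this
    rw [h2]; norm_num
  · have := ho.2 (by decide : (0 : Fin 2) ≠ 1)
    exact this

/-- membership of plane vectors in the tangent cone -/
theorem no_third_tc (B : Box) (D : Submodule ℝ R4) {x : R4}
    (hG : ∃ ε > 0, ∀ w ∈ D, ‖w‖ < ε → x + w ∈ B.carrier) {w : R4} (hw : w ∈ D) : TC B x w := by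
  obtain ⟨ε, hε, h⟩ := hG
  have hp : 0 < ‖w‖ + 1 := by positivity
  refine ⟨ε / (‖w‖ + 1) / 2, by positivity, fun s hs0 hs1 => ?_⟩
  refine h _ (D.smul_mem _ hw) ?_
  rw [norm_smul, Real.norm_eq_abs, abs_of_nonneg hs0]
  calc s * ‖w‖ ≤ ε / (‖w‖ + 1) / 2 * ‖w‖ := mul_le_mul_of_nonneg_right hs1 (norm_nonneg _)
    _ ≤ ε / (‖w‖ + 1) / 2 * (‖w‖ + 1) :=
        mul_le_mul_of_nonneg_left (by linarith) (by positivity)
    _ = ε / 2 := by field_simp
    _ < ε := by linarith

/-- the parametrisation of two boxes touching in a plane -/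
def no_third_phi (x e f c c' : R4) (z : R3) : R4 :=
  x + (z 0 • e + z 1 • f + (max (z 2) 0 • c + max (-z 2) 0 • c'))

theorem no_third_phi_cont (x e f c c' : R4) : Continuous (no_third_phi x e f c c') := by
  unfold no_third_phi
  fun_prop

theorem no_third_phi_zero (x e f c c' : R4) : no_third_phi x e f c c' 0 = x := by
  unfold no_third_phi
  simp

theorem no_third_phi_inj (x e f c c' : R4) (hee : inner ℝ e e = (1:ℝ)) (hff : inner ℝ f f = (1:ℝ))
    (hef : inner ℝ e f = (0:ℝ)) (hec : inner ℝ e c = (0:ℝ)) (hec' : inner ℝ e c' = (0:ℝ))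
    (hfc : inner ℝ f c = (0:ℝ)) (hfc' : inner ℝ f c' = (0:ℝ)) (hc : c ≠ 0) (hc' : c' ≠ 0)
    (hno : ∀ s t : ℝ, 0 < s → 0 < t → s • c ≠ t • c') :
    Function.Injective (no_third_phi x e f c c') := by
  intro z z' h
  unfold no_third_phi at h
  have h1 := add_left_cancel h
  have hfe : inner ℝ f e = (0:ℝ) := by rw [real_inner_comm]; exact hef
  have h2 : z 0 = z' 0 := by
    have := congrArg (fun w => inner ℝ e w) h1
    simpa only [inner_add_right, real_inner_smul_right, hee, hef, hec, hec', mul_one, mul_zero,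
      add_zero] using this
  have h3 : z 1 = z' 1 := by
    have := congrArg (fun w => inner ℝ f w) h1
    simpa only [inner_add_right, real_inner_smul_right, hff, hfe, hfc, hfc', mul_one, mul_zero,
      add_zero, zero_add] using this
  rw [h2, h3] at h1
  have h4 := add_left_cancel h1
  have h5 : z 2 = z' 2 := by
    rcases lt_trichotomy (z 2) 0 with ha | ha | ha
    · rcases lt_trichotomy (z' 2) 0 with hb | hb | hb
      · rw [max_eq_right ha.le, max_eq_right hb.le, max_eq_left (by linarith),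
          max_eq_left (by linarith), zero_smul, zero_add, zero_add] at h4
        have := smul_left_injective ℝ hc' h4
        linarith
      · rw [hb, max_eq_right ha.le, max_eq_left (by linarith : (0:ℝ) ≤ -z 2)] at h4
        simp only [max_self, neg_zero, zero_smul, add_zero, zero_add] at h4
        have := (smul_eq_zero.1 h4).resolve_right hc'
        linarith
      · rw [max_eq_right ha.le, max_eq_left (by linarith : (0:ℝ) ≤ -z 2), max_eq_left hb.le,
          max_eq_right (by linarith : -z' 2 ≤ 0), zero_smul, zero_smul, zero_add, add_zero] at h4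
        exact absurd h4.symm (hno _ _ hb (by linarith))
    · rcases lt_trichotomy (z' 2) 0 with hb | hb | hb
      · rw [ha, max_eq_right hb.le, max_eq_left (by linarith : (0:ℝ) ≤ -z' 2)] at h4
        simp only [max_self, neg_zero, zero_smul, add_zero, zero_add] at h4
        have := (smul_eq_zero.1 h4.symm).resolve_right hc'
        linarith
      · rw [ha, hb]
      · rw [ha, max_eq_left hb.le, max_eq_right (by linarith : -z' 2 ≤ 0)] at h4
        simp only [max_self, neg_zero, zero_smul, add_zero] at h4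
        have := (smul_eq_zero.1 h4.symm).resolve_right hc
        linarith
    · rcases lt_trichotomy (z' 2) 0 with hb | hb | hb
      · rw [max_eq_left ha.le, max_eq_right (by linarith : -z 2 ≤ 0), max_eq_right hb.le,
          max_eq_left (by linarith : (0:ℝ) ≤ -z' 2), zero_smul, zero_smul, zero_add,
          add_zero] at h4
        exact absurd h4 (hno _ _ ha (by linarith))
      · rw [hb, max_eq_left ha.le, max_eq_right (by linarith : -z 2 ≤ 0)] at h4
        simp only [max_self, neg_zero, zero_smul, add_zero] at h4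
        have := (smul_eq_zero.1 h4).resolve_right hc
        linarith
      · rw [max_eq_left ha.le, max_eq_left hb.le, max_eq_right (by linarith : -z 2 ≤ 0),
          max_eq_right (by linarith : -z' 2 ≤ 0), zero_smul, add_zero, add_zero] at h4
        exact smul_left_injective ℝ hc h4
  ext l
  fin_cases l
  · exact h2
  · exact h3
  · exact h5

theorem no_third {ι : Type} {b : ι → Box} (hb : IsBoxSphere b) (D : Submodule ℝ R4)
    (hD : finrank ℝ D = 2) {x : R4} (hG : Gen b D x) {i j k : ι} (hij : i ≠ j) (hik : i ≠ k)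
    (hjk : j ≠ k) (hi : x ∈ (b i).carrier) (hj : x ∈ (b j).carrier) (hk : x ∈ (b k).carrier) :
    False := by
  have hci : x ∉ (b i).core := fun h => hij (core_unique hb h hj).symm
  have hcj : x ∉ (b j).core := fun h => hij (core_unique hb h hi)
  have hGi : ∃ ε > 0, ∀ w ∈ D, ‖w‖ < ε → x + w ∈ (b i).carrier := by
    obtain ⟨ε, hε, h⟩ := hG
    exact ⟨ε, hε, h i hi⟩
  have hGj : ∃ ε > 0, ∀ w ∈ D, ‖w‖ < ε → x + w ∈ (b j).carrier := by
    obtain ⟨ε, hε, h⟩ := hG
    exact ⟨ε, hε, h j hj⟩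
  obtain ⟨ki, hFi, hki, hli⟩ := face_form (b i) D hD x hi hci hGi
  obtain ⟨kj, hFj, hkj, hlj⟩ := face_form (b j) D hD x hj hcj hGj
  obtain ⟨c, hc0, hcD, hcT, hcc⟩ := no_third_inward (b i) D hi hFi hki hli
  obtain ⟨c', hc0', hcD', hcT', hcc'⟩ := no_third_inward (b j) D hj hFj hkj hlj
  obtain ⟨e, f, he, hf, hee, hff, hef⟩ := no_third_frame D hD
  have hno : ∀ s t : ℝ, 0 < s → 0 < t → s • c ≠ t • c' := by
    intro s t hs ht hst
    have hp : 0 < s + t := by linarith
    have h1 := hcc (s / (s + t)) (by positivity) (by rw [div_lt_one hp]; linarith)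
    have h2 := hcc' (t / (s + t)) (by positivity) (by rw [div_lt_one hp]; linarith)
    have h3 : (s / (s + t)) • c = (t / (s + t)) • c' := by
      rw [div_eq_inv_mul, div_eq_inv_mul, mul_smul, mul_smul, hst]
    rw [← h3] at h2
    exact Set.disjoint_left.1 (hb.disj i j hij) h1 h2
  set φ := no_third_phi x e f c c' with hφ
  have hφc : Continuous φ := no_third_phi_cont x e f c c'
  have hφ0 : φ 0 = x := no_third_phi_zero x e f c c'
  have hφi : Function.Injective φ := no_third_phi_inj x e f c c' hee hff hef (hcD e he)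
    (hcD' e he) (hcD f hf) (hcD' f hf) hc0 hc0' hno
  obtain ⟨ri, hri, hTi⟩ := tc_uniform (b i) x hi
  obtain ⟨rj, hrj, hTj⟩ := tc_uniform (b j) x hj
  obtain ⟨δ, hδ, hδ'⟩ := Metric.continuousAt_iff.1 hφc.continuousAt (min ri rj) (lt_min hri hrj)
  have hmem : ∀ z ∈ closedBall (0 : R3) (δ / 2), φ z ∈ (b i).carrier ∨ φ z ∈ (b j).carrier := by
    intro z hz
    have h1 : dist z 0 < δ := lt_of_le_of_lt (mem_closedBall.1 hz) (by linarith)
    have h2 := hδ' h1
    rw [hφ0, dist_eq_norm] at h2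
    rcases le_total 0 (z 2) with h3 | h3
    · left
      have e1 : φ z = x + (z 0 • e + z 1 • f + z 2 • c) := by
        show x + (z 0 • e + z 1 • f + (max (z 2) 0 • c + max (-z 2) 0 • c')) = _
        rw [max_eq_left h3, max_eq_right (by linarith : -z 2 ≤ 0), zero_smul, add_zero]
      rw [e1] at h2 ⊢
      refine hTi _ ?_ ?_
      · exact (no_third_tc (b i) D hGi (D.add_mem (D.smul_mem _ he) (D.smul_mem _ hf))).add
          (hcT.smul h3)
      · rw [add_sub_cancel_left] at h2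
        exact h2.le.trans (min_le_left _ _)
    · right
      have e1 : φ z = x + (z 0 • e + z 1 • f + (-z 2) • c') := by
        show x + (z 0 • e + z 1 • f + (max (z 2) 0 • c + max (-z 2) 0 • c')) = _
        rw [max_eq_right h3, max_eq_left (by linarith : (0:ℝ) ≤ -z 2), zero_smul, zero_add]
      rw [e1] at h2 ⊢
      refine hTj _ ?_ ?_
      · exact (no_third_tc (b j) D hGj (D.add_mem (D.smul_mem _ he) (D.smul_mem _ hf))).add
          (hcT'.smul (by linarith))
      · rw [add_sub_cancel_left] at h2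
        exact h2.le.trans (min_le_right _ _)
  obtain ⟨hM⟩ := hb.sphere
  obtain ⟨ε, hε, hεM⟩ := iod_M hM φ (δ / 2) (by linarith) hφc.continuousOn hφi.injOn
    (fun z hz => by
      rcases hmem z hz with h | h
      · exact mem_iUnion.2 ⟨i, h⟩
      · exact mem_iUnion.2 ⟨j, h⟩)
  rw [hφ0] at hεM
  obtain ⟨y, hy, hyx⟩ := core_near (b k) hk hε
  obtain ⟨z, hz, rfl⟩ := hεM y (mem_iUnion.2 ⟨k, core_subset _ hy⟩) hyx
  rcases hmem z hz with h | h
  · exact hik (core_unique hb hy h)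
  · exact hjk (core_unique hb hy h)

theorem gen_side {ι : Type} [Finite ι] (b : ι → Box) (D : Submodule ℝ R4) (q : R4)
    (hG : Gen b D q) (w : R4) :
    ∃ δ > 0, ∀ s : ℝ, 0 < s → s < δ → Gen b (D ⊔ Submodule.span ℝ {w}) (q + s • w) ∧
      ∀ j, (q + s • w ∈ (b j).carrier ↔ TC (b j) q w) := by
  obtain ⟨ε0, hε0, hG⟩ := hG
  obtain ⟨εs, hεs, hstar⟩ := star_lemma b q
  have ev : ∀ᶠ s in 𝓝[>] (0 : ℝ), ∀ j, (q + s • w ∈ (b j).carrier ↔ TC (b j) q w) := by
    rw [Filter.eventually_all]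
    intro j
    by_cases hTC : TC (b j) q w
    · obtain ⟨δ, hδ, h⟩ := hTC
      have h1 : ∀ᶠ s in 𝓝[>] (0 : ℝ), s < δ :=
        mem_nhdsWithin_of_mem_nhds (Iio_mem_nhds hδ)
      filter_upwards [h1, self_mem_nhdsWithin] with s hs hs0
      exact ⟨fun _ => ⟨δ, hδ, h⟩, fun _ => h s (le_of_lt hs0) hs.le⟩
    · by_cases hq : q ∈ (b j).carrier
      · filter_upwards [self_mem_nhdsWithin] with s hs0
        have hs0' : 0 < s := hs0
        refine ⟨fun h => ?_, fun h => absurd h hTC⟩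
        refine ⟨s, hs0', fun r hr hrs => ?_⟩
        have hc := (convex_carrier (b j)) hq h (a := 1 - r / s) (b := r / s)
          (sub_nonneg.2 ((div_le_one hs0').2 hrs)) (div_nonneg hr hs0'.le) (by ring)
        have e : (1 - r / s) • q + (r / s) • (q + s • w) = q + r • w := by
          rw [smul_add, smul_smul, div_mul_cancel₀ _ hs0'.ne', ← add_assoc, ← add_smul]
          simp
        rwa [e] at hc
      · have h1 : ∀ᶠ s in 𝓝[>] (0 : ℝ), s < εs / (‖w‖ + 1) :=
          mem_nhdsWithin_of_mem_nhds (Iio_mem_nhds (by positivity))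
        filter_upwards [h1, self_mem_nhdsWithin] with s hs hs0
        have hs0' : 0 < s := hs0
        refine ⟨fun h => absurd (hstar j _ h ?_) hq, fun h => absurd h hTC⟩
        rw [dist_eq_norm, add_sub_cancel_left, norm_smul, Real.norm_eq_abs, abs_of_pos hs0']
        rw [lt_div_iff₀ (by positivity)] at hs
        nlinarith
  obtain ⟨δ', hδ', hsub⟩ := mem_nhdsGT_iff_exists_Ioo_subset.1 ev
  have hδ'0 : 0 < δ' := hδ'
  -- decomposition with bounds
  let f0 : (D × ℝ) →L[ℝ] R4 :=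
    (D.subtypeL.comp (ContinuousLinearMap.fst ℝ D ℝ)) +
      (ContinuousLinearMap.snd ℝ D ℝ).smulRight w
  have hf0 : ∀ x : D × ℝ, f0 x = (x.1 : R4) + x.2 • w := fun x => rfl
  let f : (D × ℝ) →L[ℝ] (D ⊔ Submodule.span ℝ {w} : Submodule ℝ R4) :=
    f0.codRestrict _ (fun x => by
      rw [hf0]
      exact Submodule.add_mem_sup x.1.2
        (Submodule.smul_mem _ _ (Submodule.mem_span_singleton_self w)))
  have hfs : Function.Surjective f := by
    rintro ⟨y, hy⟩
    obtain ⟨d, hd, z, hz, rfl⟩ := Submodule.mem_sup.1 hy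
    obtain ⟨β, rfl⟩ := Submodule.mem_span_singleton.1 hz
    exact ⟨(⟨d, hd⟩, β), Subtype.ext rfl⟩
  obtain ⟨C, hC, hpre⟩ := ContinuousLinearMap.exists_preimage_norm_le f hfs
  have hdec : ∀ w' ∈ D ⊔ Submodule.span ℝ {w}, ∃ d ∈ D, ∃ β : ℝ, w' = d + β • w ∧
      ‖d‖ ≤ C * ‖w'‖ ∧ |β| ≤ C * ‖w'‖ := by
    intro w' hw'
    obtain ⟨x, hx, hxn⟩ := hpre ⟨w', hw'⟩
    refine ⟨x.1, x.1.2, x.2, ?_, ?_, ?_⟩
    · have := congrArg Subtype.val hx
      exact this.symm
    · exact (norm_fst_le x).trans hxn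
    · exact (norm_snd_le x).trans hxn
  refine ⟨δ' / 2, by positivity, fun s hs0 hsδ => ⟨?_, hsub ⟨hs0, by linarith⟩⟩⟩
  set m : ℝ := min (ε0 / 2) (min s (δ' / 2 - s)) with hm
  have hm0 : 0 < m := lt_min (by positivity) (lt_min hs0 (by linarith))
  refine ⟨m / C, by positivity, fun j hj w' hw' hn => ?_⟩
  have hTC : TC (b j) q w := (hsub ⟨hs0, by linarith⟩ j).1 hj
  have hq : q ∈ (b j).carrier := ((tc_iff (b j) q w).1 hTC).1
  obtain ⟨d, hd, β, rfl, hdn, hβ⟩ := hdec w' hw'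
  rw [lt_div_iff₀ hC] at hn
  have h1 : ‖d‖ < m := by linarith
  have h2 : |β| < m := by linarith
  have h3 : m ≤ ε0 / 2 := min_le_left _ _
  have h4 : m ≤ s := (min_le_right _ _).trans (min_le_left _ _)
  have h5 : m ≤ δ' / 2 - s := (min_le_right _ _).trans (min_le_right _ _)
  rw [abs_lt] at h2
  have c1 : q + (2 : ℝ) • d ∈ (b j).carrier := by
    refine hG j hq _ (D.smul_mem _ hd) ?_
    rw [norm_smul, Real.norm_eq_abs, abs_of_pos (by norm_num : (0:ℝ) < 2)]
    linarith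
  have c2 : q + (2 * (s + β)) • w ∈ (b j).carrier :=
    (hsub ⟨by linarith, by linarith⟩ j).2 hTC
  have c3 := (convex_carrier (b j)) c1 c2 (a := 1 / 2) (b := 1 / 2) (by norm_num) (by norm_num)
    (by norm_num)
  have e : (1 / 2 : ℝ) • (q + (2 : ℝ) • d) + (1 / 2 : ℝ) • (q + (2 * (s + β)) • w) =
      q + s • w + (d + β • w) := by module
  rwa [e] at c3

/-! ## Alignment -/

theorem crossing_span (D : Submodule ℝ R4) (hD : finrank ℝ D = 2) {u w : R4} (hu : u ∈ D)
    (hw : w ∈ D) (hli : LinearIndependent ℝ ![u, w]) :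
    Submodule.span ℝ {u} ⊔ Submodule.span ℝ {w} = D := by
  have h1 : Submodule.span ℝ {u} ⊔ Submodule.span ℝ {w} = Submodule.span ℝ (Set.range ![u, w]) := by
    rw [← Submodule.span_union]
    congr 1
    ext x
    simp [or_comm, eq_comm]
  rw [h1]
  apply Submodule.eq_of_le_of_finrank_eq
  · rw [Submodule.span_le]
    rintro _ ⟨i, rfl⟩
    fin_cases i
    · exact hu
    · exact hw
  · rw [finrank_span_eq_card hli, hD]
    simp

theorem crossing_plane (D : Submodule ℝ R4) (hD : finrank ℝ D = 2) {a b c : R4} (ha : a ∈ D)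
    (hb : b ∈ D) (hc : c ∈ D) (ha0 : a ≠ 0) (hb0 : b ≠ 0) (hab : inner ℝ a b = 0)
    (hac : inner ℝ a c = 0) : ∃ t : ℝ, c = t • b := by
  have hba : inner ℝ b a = 0 := by rw [real_inner_comm]; exact hab
  have hli : LinearIndependent ℝ ![a, b] := by
    rw [LinearIndependent.pair_iff]
    intro s t h
    have h1 : inner ℝ a (s • a + t • b) = 0 := by rw [h, inner_zero_right]
    have h2 : inner ℝ b (s • a + t • b) = 0 := by rw [h, inner_zero_right]
    rw [inner_add_right, inner_smul_right, inner_smul_right, hab, mul_zero, add_zero] at h1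
    rw [inner_add_right, inner_smul_right, inner_smul_right, hba, mul_zero, zero_add] at h2
    exact ⟨(mul_eq_zero.mp h1).resolve_right (inner_self_ne_zero.mpr ha0),
      (mul_eq_zero.mp h2).resolve_right (inner_self_ne_zero.mpr hb0)⟩
  rw [← crossing_span D hD ha hb hli, Submodule.mem_sup] at hc
  obtain ⟨y, hy, z, hz, rfl⟩ := hc
  obtain ⟨s, rfl⟩ := Submodule.mem_span_singleton.mp hy
  obtain ⟨t, rfl⟩ := Submodule.mem_span_singleton.mp hz
  refine ⟨t, ?_⟩
  rw [inner_add_right, inner_smul_right, inner_smul_right, hab, mul_zero, add_zero] at hac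
  have hs : s = 0 := (mul_eq_zero.mp hac).resolve_right (inner_self_ne_zero.mpr ha0)
  rw [hs, zero_smul, zero_add]

theorem crossing_pu (D : Submodule ℝ R4) (hD : finrank ℝ D = 2) (B : Box) (k : Fin 3)
    (hk : FacePl B D k) {u : R4} (hu : u ∈ D) (hu0 : u ≠ 0) {l : Fin 3} (hl : l ≠ k)
    (h0 : B.dc u l = 0) :
    ∀ m, B.v m ∈ D → inner ℝ u (B.v m) = 0 ∨ ∃ c : ℝ, B.v m = c • u := by
  intro m hm
  have hul : inner ℝ u (B.v l) = 0 := (dc_eq_zero_iff B u l).mp h0
  by_cases hml : m = l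
  · left
    rw [hml]
    exact hul
  · right
    have hlD : B.v l ∈ D := (hk.1 l).mpr hl
    exact crossing_plane D hD hlD hu hm (B.ne l) hu0 (by rw [real_inner_comm]; exact hul)
      (B.orth l m (Ne.symm hml))

theorem crossing_al (D : Submodule ℝ R4) (hD : finrank ℝ D = 2) {A B : Box} {u : R4} (hu : u ∈ D)
    (hu0 : u ≠ 0) (hA : ∀ m, A.v m ∈ D → inner ℝ u (A.v m) = 0 ∨ ∃ c : ℝ, A.v m = c • u)
    (hB : ∀ m, B.v m ∈ D → inner ℝ u (B.v m) = 0 ∨ ∃ c : ℝ, B.v m = c • u) : Aligned D A B := by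
  intro k l hk hl
  rcases hA k hk with h1 | ⟨c, h1⟩ <;> rcases hB l hl with h2 | ⟨c', h2⟩
  · right
    exact crossing_plane D hD hu hk hl hu0 (A.ne k) h1 h2
  · left
    rw [h2, inner_smul_right, real_inner_comm, h1, mul_zero]
  · left
    rw [h1, inner_smul_left, h2, mul_zero]
  · right
    have hc : c ≠ 0 := by
      rintro rfl
      rw [zero_smul] at h1
      exact A.ne k h1
    exact ⟨c' / c, by rw [h1, h2, smul_smul, div_mul_cancel₀ _ hc]⟩

theorem crossing_dirs (B : Box) (D : Submodule ℝ R4) {y : R4} (hy : y ∈ B.carrier)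
    (hG : ∃ ε > 0, ∀ w ∈ D, ‖w‖ < ε → y + w ∈ B.carrier) : D ≤ B.dirs := by
  obtain ⟨ε, hε, hG⟩ := hG
  intro d hd
  have hn : 0 < ‖d‖ + 1 := by positivity
  have h1 : ‖(ε / (‖d‖ + 1)) • d‖ < ε := by
    rw [norm_smul, Real.norm_of_nonneg (by positivity), div_mul_eq_mul_div, div_lt_iff₀ hn]
    nlinarith [norm_nonneg d]
  have h2 := hG _ (D.smul_mem _ hd) h1
  have h3 := sub_mem_dirs B hy h2
  rw [add_sub_cancel_left] at h3
  have h4 : ε / (‖d‖ + 1) ≠ 0 := by positivity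
  exact (B.dirs.smul_mem_iff h4).mp h3

theorem crossing_line {ι : Type} {b : ι → Box} {u q : R4}
    (hG : Gen b (Submodule.span ℝ {u}) q) {j : ι} (hj : q ∈ (b j).carrier) :
    ∃ ε > 0, ∀ t : ℝ, |t| < ε → q + t • u ∈ (b j).carrier := by
  obtain ⟨ε, hε, h⟩ := hG
  refine ⟨ε / (‖u‖ + 1), by positivity, fun t ht => h j hj _
    (Submodule.smul_mem _ _ (Submodule.mem_span_singleton_self u)) ?_⟩
  rw [norm_smul, Real.norm_eq_abs]
  rw [lt_div_iff₀ (by positivity)] at ht
  nlinarith [norm_nonneg u, abs_nonneg t]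

theorem crossing_self {B : Box} {q w : R4} (h : TC B q w) : q ∈ B.carrier := by
  obtain ⟨δ, hδ, h⟩ := h
  have := h 0 le_rfl hδ.le
  rwa [zero_smul, add_zero] at this

theorem crossing_fin (k : Fin 3) : ∃ l l' : Fin 3, l ≠ k ∧ l' ≠ k ∧ l ≠ l' := by
  revert k
  decide

theorem crossing_aux {ι : Type} {b : ι → Box} (hb : IsBoxSphere b) (D : Submodule ℝ R4)
    (hD : finrank ℝ D = 2) (u w : R4) (hu : u ∈ D) (hw : w ∈ D)
    (hli : LinearIndependent ℝ ![u, w]) (q : R4) (hG : Gen b (Submodule.span ℝ {u}) q)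
    (i j : ι) (hij : i ≠ j) (hi : TC (b i) q (-w)) (hj : TC (b j) q (-w))
    (hna : ¬ Aligned D (b i) (b j)) (y : R4) (s0 : ℝ) (hy : y = q + s0 • (-w))
    (hGy : Gen b D y) (hyiff : ∀ m, y ∈ (b m).carrier ↔ TC (b m) q (-w)) (k : Fin 3)
    (hk : FacePl (b j) D k) (hcoord : (b j).coord y k = 0 ∨ (b j).coord y k = 1)
    (hne : ∀ l, l ≠ k → (b j).dc u l ≠ 0) :
    ∃ i' j', i' ≠ j' ∧ TC (b i') q w ∧ TC (b j') q w ∧ ¬ Aligned D (b i') (b j') := by
  have hfin : Finite ι := hb.fin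
  have hu0 : u ≠ 0 := hli.ne_zero 0
  have hdisc : ∀ {x : R4}, Gen b D x → ∀ {m : ι}, x ∈ (b m).carrier →
      ∃ ε > 0, ∀ w ∈ D, ‖w‖ < ε → x + w ∈ (b m).carrier := by
    intro x hx m hm
    obtain ⟨ε, hε, h⟩ := hx
    exact ⟨ε, hε, fun w hw hwn => h m hm w hw hwn⟩
  have hyi : y ∈ (b i).carrier := (hyiff i).mpr hi
  have hyj : y ∈ (b j).carrier := (hyiff j).mpr hj
  have hdj : D ≤ (b j).dirs := crossing_dirs (b j) D hyj (hdisc hGy hyj)
  have hthr := through (b j) D k hk hdj u q (crossing_line hG (crossing_self hj)) hne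
  have hjw : TC (b j) q w := hthr w hw
  obtain ⟨δ, hδ, hside⟩ := gen_side b (Submodule.span ℝ {u}) q hG w
  obtain ⟨hG', hiff'⟩ := hside (δ / 2) (by positivity) (by linarith)
  rw [crossing_span D hD hu hw hli] at hG'
  set y' : R4 := q + (δ / 2) • w with hy'
  have hy'j : y' ∈ (b j).carrier := (hiff' j).mpr hjw
  have hdcw : (b j).dc w k = 0 := (dc_eq_zero_iff _ _ _).mpr (hk.2 w hw)
  have hcy : (b j).coord y k = (b j).coord q k := by
    rw [hy, coord_add, ← neg_smul_neg, neg_neg, dc_smul, hdcw, mul_zero, add_zero]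
  have hcy' : (b j).coord y' k = (b j).coord q k := by
    rw [hy', coord_add, dc_smul, hdcw, mul_zero, add_zero]
  have hy'core : y' ∉ (b j).core := by
    intro hcore
    have h1 := ((mem_core_iff (b j) y').mp hcore).2 k
    rw [hcy', ← hcy] at h1
    rcases hcoord with h | h
    · rw [h] at h1
      exact lt_irrefl _ h1.1
    · rw [h] at h1
      exact lt_irrefl _ h1.2
  obtain ⟨m, hmj, hy'm⟩ := exists_second hb hy'j hy'core
  have hmw : TC (b m) q w := (hiff' m).mp hy'm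
  by_cases hal : Aligned D (b m) (b j)
  · exfalso
    have hy'mc : y' ∉ (b m).core := fun hcore => hmj (core_unique hb hcore hy'j).symm
    obtain ⟨km, hkm, -, -⟩ := face_form (b m) D hD y' hy'm hy'mc (hdisc hG' hy'm)
    have hnem : ∀ l, l ≠ km → (b m).dc u l ≠ 0 := by
      intro l hl h0
      have hul : inner ℝ u ((b m).v l) = 0 := (dc_eq_zero_iff _ _ _).mp h0
      have hlD : (b m).v l ∈ D := (hkm.1 l).mpr hl
      obtain ⟨l', l'', hl', hl'', hll⟩ := crossing_fin k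
      have hperp : ∀ n, n ≠ k → inner ℝ ((b m).v l) ((b j).v n) = 0 := by
        intro n hn
        rcases hal l n hlD ((hk.1 n).mpr hn) with h1 | ⟨c, h1⟩
        · exact h1
        · exfalso
          refine hne n hn ((dc_eq_zero_iff _ _ _).mpr ?_)
          rw [h1, inner_smul_right, hul, mul_zero]
      obtain ⟨t, ht⟩ := crossing_plane D hD hlD ((hk.1 l').mpr hl') ((hk.1 l'').mpr hl'')
        ((b m).ne l) ((b j).ne l') (hperp l' hl') (hperp l'' hl'')
      have h2 := (b j).orth l' l'' hll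
      rw [ht, inner_smul_right] at h2
      rcases mul_eq_zero.mp h2 with h3 | h3
      · rw [h3, zero_smul] at ht
        exact (b j).ne l'' ht
      · exact inner_self_ne_zero.mpr ((b j).ne l') h3
    have hdm : D ≤ (b m).dirs := crossing_dirs (b m) D hy'm (hdisc hG' hy'm)
    have hthm := through (b m) D km hkm hdm u q (crossing_line hG (crossing_self hmw)) hnem
    have hym : y ∈ (b m).carrier := (hyiff m).mpr (hthm (-w) (D.neg_mem hw))
    by_cases hmi : i = m
    · rw [← hmi] at hal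
      exact hna hal
    · exact no_third hb D hD hGy hij hmi (Ne.symm hmj) hyi hyj hym
  · exact ⟨m, j, hmj, hmw, hjw, hal⟩

theorem crossing {ι : Type} {b : ι → Box} (hb : IsBoxSphere b) (D : Submodule ℝ R4)
    (hD : finrank ℝ D = 2) (u w : R4) (hu : u ∈ D) (hw : w ∈ D)
    (hli : LinearIndependent ℝ ![u, w]) (q : R4) (hG : Gen b (Submodule.span ℝ {u}) q)
    (i j : ι) (hij : i ≠ j) (hi : TC (b i) q (-w)) (hj : TC (b j) q (-w))
    (hna : ¬ Aligned D (b i) (b j)) :
    ∃ i' j', i' ≠ j' ∧ TC (b i') q w ∧ TC (b j') q w ∧ ¬ Aligned D (b i') (b j') := by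
  have hfin : Finite ι := hb.fin
  have hu0 : u ≠ 0 := hli.ne_zero 0
  obtain ⟨δ, hδ, hside⟩ := gen_side b (Submodule.span ℝ {u}) q hG (-w)
  obtain ⟨hGy, hyiff⟩ := hside (δ / 2) (by positivity) (by linarith)
  have hspan : Submodule.span ℝ {u} ⊔ Submodule.span ℝ {-w} = D := by
    have h1 : Submodule.span ℝ {-w} = Submodule.span ℝ {w} := by
      rw [Submodule.span_singleton_eq_span_singleton]
      exact ⟨-1, by simp⟩
    rw [h1]
    exact crossing_span D hD hu hw hli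
  rw [hspan] at hGy
  generalize hy : q + (δ / 2) • (-w) = y at hGy hyiff
  have hdisc : ∀ {x : R4}, Gen b D x → ∀ {m : ι}, x ∈ (b m).carrier →
      ∃ ε > 0, ∀ w ∈ D, ‖w‖ < ε → x + w ∈ (b m).carrier := by
    intro x hx m hm
    obtain ⟨ε, hε, h⟩ := hx
    exact ⟨ε, hε, fun w hw hwn => h m hm w hw hwn⟩
  have hyi : y ∈ (b i).carrier := (hyiff i).mpr hi
  have hyj : y ∈ (b j).carrier := (hyiff j).mpr hj
  have hci : y ∉ (b i).core := fun hcore => hij (core_unique hb hcore hyj).symm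
  have hcj : y ∉ (b j).core := fun hcore => hij (core_unique hb hcore hyi)
  obtain ⟨ki, hki, hcki, -⟩ := face_form (b i) D hD y hyi hci (hdisc hGy hyi)
  obtain ⟨kj, hkj, hckj, -⟩ := face_form (b j) D hD y hyj hcj (hdisc hGy hyj)
  by_cases h1 : ∀ l, l ≠ kj → (b j).dc u l ≠ 0
  · exact crossing_aux hb D hD u w hu hw hli q hG i j hij hi hj hna y (δ / 2) hy.symm hGy hyiff kj
      hkj hckj h1
  · by_cases h2 : ∀ l, l ≠ ki → (b i).dc u l ≠ 0
    · exact crossing_aux hb D hD u w hu hw hli q hG j i hij.symm hj hi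
        (fun h => hna (aligned_symm h)) y (δ / 2) hy.symm hGy hyiff ki hki hcki h2
    · exfalso
      push Not at h1 h2
      obtain ⟨l1, hl1, hz1⟩ := h1
      obtain ⟨l2, hl2, hz2⟩ := h2
      exact hna (crossing_al D hD hu hu0 (crossing_pu D hD (b i) ki hki hu hu0 hl2 hz2)
        (crossing_pu D hD (b j) kj hkj hu hu0 hl1 hz1))

theorem gd_abs {V : Type*} [AddCommGroup V] [Module ℝ V] (hV : finrank ℝ V = 2) {α : Type*}
    [Finite α] (M : α → Module.Dual ℝ V) (c : α → ℝ) :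
    ∃ w : V, w ≠ 0 ∧ ∀ s : ℝ, s ≠ 0 → ∃ u : V, LinearIndependent ℝ ![u, w] ∧
      ∀ a, c a + s * M a w = 0 → M a u = 0 := by
  classical
  haveI : FiniteDimensional ℝ V := Module.finite_of_finrank_pos (by omega)
  have hbot : (⊥ : Submodule ℝ V) ≠ ⊤ := by
    intro h
    have h1 : finrank ℝ (⊤ : Submodule ℝ V) = 2 := by rw [finrank_top, hV]
    rw [← h, finrank_bot] at h1
    omega
  have hker : ∀ f : Module.Dual ℝ V, f ≠ 0 → LinearMap.ker f ≠ ⊤ := by
    intro f hf h
    exact hf (LinearMap.ker_eq_top.mp h)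
  obtain ⟨w, hw⟩ := Submodule.exists_forall_notMem_of_forall_ne_top
    (fun i : Option (α ⊕ (α × α)) => match i with
      | none => (⊥ : Submodule ℝ V)
      | some (Sum.inl a) => if M a = 0 then ⊥ else LinearMap.ker (M a)
      | some (Sum.inr (a, b)) => if c a • M b - c b • M a = 0 then ⊥ else
          LinearMap.ker (c a • M b - c b • M a)) (by
    rintro (_ | a | ⟨a, b⟩)
    · exact hbot
    · simp only
      split_ifs with h
      · exact hbot
      · exact hker _ h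
    · simp only
      split_ifs with h
      · exact hbot
      · exact hker _ h)
  have hw0 : w ≠ 0 := by
    intro h
    exact hw none (by simp [h])
  have hwM : ∀ a, M a ≠ 0 → M a w ≠ 0 := by
    intro a ha h
    apply hw (some (Sum.inl a))
    simp only
    rw [if_neg ha]
    exact h
  have hwN : ∀ a b, c a * M b w - c b * M a w = 0 → c a • M b - c b • M a = 0 := by
    intro a b h
    by_contra hne
    apply hw (some (Sum.inr (a, b)))
    simp only
    rw [if_neg hne, LinearMap.mem_ker, LinearMap.sub_apply, LinearMap.smul_apply,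
      LinearMap.smul_apply, smul_eq_mul, smul_eq_mul]
    exact h
  refine ⟨w, hw0, fun s hs => ?_⟩
  by_cases hex : ∃ a, M a ≠ 0 ∧ c a + s * M a w = 0
  · obtain ⟨a, ha, hca⟩ := hex
    have hMw := hwM a ha
    have hca0 : c a ≠ 0 := by
      intro h
      rw [h, zero_add] at hca
      exact (mul_ne_zero hs hMw) hca
    -- nonzero vector in the kernel
    have hk : LinearMap.ker (M a) ≠ ⊥ := by
      intro h
      have h1 := LinearMap.finrank_range_add_finrank_ker (M a)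
      rw [h, finrank_bot, hV] at h1
      have h2 : finrank ℝ (LinearMap.range (M a)) ≤ finrank ℝ ℝ := Submodule.finrank_le _
      rw [finrank_self] at h2
      omega
    obtain ⟨u, hu, hu0⟩ := Submodule.exists_mem_ne_zero_of_ne_bot hk
    have hu' : M a u = 0 := hu
    refine ⟨u, ?_, ?_⟩
    · rw [LinearIndependent.pair_iff]
      intro p q hpq
      have h1 := congrArg (M a) hpq
      rw [map_add, map_smul, map_smul, map_zero, hu', smul_zero, zero_add, smul_eq_mul] at h1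
      have hq : q = 0 := by
        rcases mul_eq_zero.mp h1 with h | h
        · exact h
        · exact absurd h hMw
      rw [hq, zero_smul, add_zero] at hpq
      rcases smul_eq_zero.mp hpq with h | h
      · exact ⟨h, hq⟩
      · exact absurd h hu0
    · intro b hcb
      have h1 : c a * M b w - c b * M a w = 0 := by
        have e1 : c a = -(s * M a w) := by linarith
        have e2 : c b = -(s * M b w) := by linarith
        rw [e1, e2]; ring
      have h2 := hwN a b h1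
      have h3 := congrArg (fun f : Module.Dual ℝ V => f u) h2
      simp only [LinearMap.sub_apply, LinearMap.smul_apply, smul_eq_mul, LinearMap.zero_apply,
        hu', mul_zero, sub_zero] at h3
      rcases mul_eq_zero.mp h3 with h | h
      · exact absurd h hca0
      · exact h
  · push Not at hex
    have hsp : Submodule.span ℝ {w} ≠ ⊤ := by
      intro h
      have h1 := finrank_span_singleton (K := ℝ) hw0
      rw [h, finrank_top, hV] at h1
      omega
    obtain ⟨u, hu⟩ : ∃ u, u ∉ Submodule.span ℝ {w} := by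
      by_contra hc
      push Not at hc
      exact hsp (by rw [eq_top_iff]; exact fun x _ => hc x)
    refine ⟨u, ?_, ?_⟩
    · rw [LinearIndependent.pair_iff]
      intro p q hpq
      have hp : p = 0 := by
        by_contra hp
        apply hu
        rw [Submodule.mem_span_singleton]
        refine ⟨-(p⁻¹ * q), ?_⟩
        have h1 : p • u = -(q • w) := by
          rw [eq_neg_iff_add_eq_zero]; exact hpq
        calc (-(p⁻¹ * q)) • w = p⁻¹ • (-(q • w)) := by rw [neg_smul, mul_smul, smul_neg]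
          _ = p⁻¹ • (p • u) := by rw [h1]
          _ = u := by rw [smul_smul, inv_mul_cancel₀ hp, one_smul]
      rw [hp, zero_smul, zero_add] at hpq
      rcases smul_eq_zero.mp hpq with h | h
      · exact ⟨hp, h⟩
      · exact absurd h hw0
    · intro a ha
      by_cases h0 : M a = 0
      · rw [h0]; rfl
      · exact absurd ha (hex a h0)

/-- a normal vector of a box -/
theorem gd_normal (B : Box) : ∃ n : R4, ∀ u : R4, u ∈ B.dirs ↔ inner ℝ n u = 0 := by
  have h1 := Submodule.finrank_add_finrank_orthogonal B.dirs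
  rw [finrank_dirs] at h1
  have h4 : finrank ℝ R4 = 4 := by simp
  rw [h4] at h1
  have h2 : finrank ℝ (B.dirs)ᗮ = 1 := by omega
  obtain ⟨n, hn0, hn⟩ := finrank_eq_one_iff'.mp h2
  refine ⟨(n : R4), fun u => ?_⟩
  constructor
  · intro hu
    rw [real_inner_comm]
    exact (Submodule.mem_orthogonal _ _).mp n.2 u hu
  · intro hu
    rw [← Submodule.orthogonal_orthogonal B.dirs, Submodule.mem_orthogonal]
    intro w hw
    obtain ⟨c, hc⟩ := hn ⟨w, hw⟩
    have h5 : c • (n : R4) = w := congrArg Subtype.val hc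
    rw [← h5, inner_smul_left, hu, mul_zero]

/-- local genericity along a line from the vanishing of the differentials -/
theorem gd_gen {ι : Type} [Finite ι] (b : ι → Box) (y u : R4)
    (h : ∀ j, y ∈ (b j).carrier → u ∈ (b j).dirs ∧
      ∀ k, ((b j).coord y k = 0 ∨ (b j).coord y k = 1) → (b j).dc u k = 0) :
    Gen b (Submodule.span ℝ {u}) y := by
  have hTC : ∀ j, y ∈ (b j).carrier → ∀ w ∈ Submodule.span ℝ {u}, TC (b j) y w := by
    intro j hj w hw
    obtain ⟨c, rfl⟩ := Submodule.mem_span_singleton.mp hw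
    obtain ⟨h1, h2⟩ := h j hj
    rw [tc_iff]
    refine ⟨hj, Submodule.smul_mem _ _ h1, fun k => ⟨fun h0 => ?_, fun h0 => ?_⟩⟩
    · rw [dc_smul, h2 k (Or.inl h0), mul_zero]
    · rw [dc_smul, h2 k (Or.inr h0), mul_zero]
  have hr : ∀ j, ∃ r > 0, y ∈ (b j).carrier → ∀ w ∈ Submodule.span ℝ {u}, ‖w‖ < r →
      y + w ∈ (b j).carrier := by
    intro j
    by_cases hj : y ∈ (b j).carrier
    · obtain ⟨r, hr, hr2⟩ := tc_uniform (b j) y hj
      exact ⟨r, hr, fun _ w hw hwr => hr2 w (hTC j hj w hw) hwr.le⟩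
    · exact ⟨1, one_pos, fun hj' => absurd hj' hj⟩
  choose r hr0 hr1 using hr
  haveI := Fintype.ofFinite ι
  rcases isEmpty_or_nonempty ι with hι | hι
  · exact ⟨1, one_pos, fun j => (hι.false j).elim⟩
  · refine ⟨Finset.univ.inf' Finset.univ_nonempty r, ?_, fun j hj w hw hwr => ?_⟩
    · rw [gt_iff_lt, Finset.lt_inf'_iff]
      exact fun j _ => hr0 j
    · exact hr1 j hj w hw (lt_of_lt_of_le hwr (Finset.inf'_le r (Finset.mem_univ j)))

/-- lines in general position in a plane -/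
theorem gd {ι : Type} [Finite ι] (b : ι → Box) (D : Submodule ℝ R4) (hD : finrank ℝ D = 2)
    (x : R4) : ∃ w ∈ D, w ≠ 0 ∧ ∀ s : ℝ, s ≠ 0 → ∃ u ∈ D, LinearIndependent ℝ ![u, w] ∧
      Gen b (Submodule.span ℝ {u}) (x + s • w) := by
  classical
  choose n hn using fun j => gd_normal (b j)
  let dcL : (j : ι) → (k : Fin 3) → (R4 →ₗ[ℝ] ℝ) := fun j k =>
    { toFun := fun w => (b j).dc w k
      map_add' := fun w w' => dc_add (b j) w w' k
      map_smul' := fun c w => dc_smul (b j) c w k }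
  obtain ⟨w, hw0, hw⟩ := gd_abs (V := D) hD (α := ι ⊕ (ι × Fin 3 × Bool))
    (fun a => match a with
      | Sum.inl j => ((innerSL ℝ (n j)).toLinearMap).comp D.subtype
      | Sum.inr (j, k, _) => (dcL j k).comp D.subtype)
    (fun a => match a with
      | Sum.inl j => inner ℝ (n j) (x - (b j).p)
      | Sum.inr (j, k, e) => (b j).coord x k - (if e then 1 else 0))
  refine ⟨w, w.2, fun h => hw0 (Subtype.ext h), fun s hs => ?_⟩
  obtain ⟨u, hli, hu⟩ := hw s hs
  refine ⟨u, u.2, ?_, ?_⟩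
  · rw [LinearIndependent.pair_iff] at hli ⊢
    intro p q hpq
    exact hli p q (Subtype.ext hpq)
  · apply gd_gen
    intro j hj
    rw [mem_carrier_iff] at hj
    constructor
    · rw [hn j]
      refine hu (Sum.inl j) ?_
      have h1 := (hn j _).mp hj.1
      change inner ℝ (n j) (x - (b j).p) + s * inner ℝ (n j) (w : R4) = 0
      rw [← h1, show x + s • (w : R4) - (b j).p = (x - (b j).p) + s • (w : R4) by abel,
        inner_add_right, inner_smul_right]
    · intro k hk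
      rw [coord_add, dc_smul] at hk
      rcases hk with hk | hk
      · refine hu (Sum.inr (j, k, false)) ?_
        change (b j).coord x k - (if false = true then 1 else 0) + s * (b j).dc (w : R4) k = 0
        simpa using hk
      · refine hu (Sum.inr (j, k, true)) ?_
        change (b j).coord x k - (if true = true then 1 else 0) + s * (b j).dc (w : R4) k = 0
        rw [if_pos rfl]
        linarith

theorem aligned_of_gen {ι : Type} {b : ι → Box} (hb : IsBoxSphere b) (D : Submodule ℝ R4)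
    (hD : finrank ℝ D = 2) {x : R4} (hG : Gen b D x) {i j : ι} (hi : x ∈ (b i).carrier)
    (hj : x ∈ (b j).carrier) : Aligned D (b i) (b j) := by
  haveI : Finite ι := hb.fin
  by_contra hna
  have hij : i ≠ j := by
    rintro rfl
    exact hna (aligned_refl D (b i))
  obtain ⟨w, hwD, hw0, hgd⟩ := gd b D hD x
  have hwn : 0 < ‖w‖ := norm_pos_iff.mpr hw0
  let T : ι × ι → Set ℝ := fun p => {s : ℝ | x + s • w ∈ (b p.1).carrier ∧ x + s • w ∈ (b p.2).carrier}
  have hcont : Continuous (fun s : ℝ => x + s • w) := by fun_prop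
  have hTclosed : ∀ p, IsClosed (T p) := by
    intro p
    have h1 : IsClosed ((fun s : ℝ => x + s • w) ⁻¹' (b p.1).carrier) :=
      (isCompact_carrier (b p.1)).isClosed.preimage hcont
    have h2 : IsClosed ((fun s : ℝ => x + s • w) ⁻¹' (b p.2).carrier) :=
      (isCompact_carrier (b p.2)).isClosed.preimage hcont
    exact h1.inter h2
  have hTbdd : ∀ p, BddAbove (T p) := by
    intro p
    obtain ⟨R, hR⟩ := (isCompact_carrier (b p.1)).isBounded.exists_norm_le
    refine ⟨(R + ‖x‖) / ‖w‖, ?_⟩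
    rintro s ⟨hs1, _⟩
    rw [le_div_iff₀ hwn]
    have h1 := hR _ hs1
    have h2 : ‖s • w‖ ≤ ‖x + s • w‖ + ‖x‖ := by
      have : s • w = (x + s • w) - x := by abel
      calc ‖s • w‖ = ‖(x + s • w) - x‖ := by rw [← this]
        _ ≤ ‖x + s • w‖ + ‖x‖ := norm_sub_le _ _
    rw [norm_smul, Real.norm_eq_abs] at h2
    have h3 : s * ‖w‖ ≤ |s| * ‖w‖ := mul_le_mul_of_nonneg_right (le_abs_self s) hwn.le
    linarith
  have hTconv : ∀ p, (T p).OrdConnected := by
    intro p
    constructor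
    intro a ha c hc s hs
    rcases eq_or_lt_of_le (hs.1.trans hs.2) with hac | hac
    · have : s = a := le_antisymm (hac ▸ hs.2) hs.1
      rw [this]; exact ha
    · have key : x + s • w = ((c - s) / (c - a)) • (x + a • w) + ((s - a) / (c - a)) • (x + c • w) := by
        have hne : c - a ≠ 0 := (sub_pos.mpr hac).ne'
        have e1 : (c - s) / (c - a) + (s - a) / (c - a) = 1 := by field_simp; ring
        have e2 : (c - s) / (c - a) * a + (s - a) / (c - a) * c = s := by field_simp; ring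
        calc x + s • w = ((c - s) / (c - a) + (s - a) / (c - a)) • x +
            ((c - s) / (c - a) * a + (s - a) / (c - a) * c) • w := by rw [e1, e2, one_smul]
          _ = _ := by module
      have h0 : 0 ≤ (c - s) / (c - a) := div_nonneg (sub_nonneg.mpr hs.2) (sub_pos.mpr hac).le
      have h1 : 0 ≤ (s - a) / (c - a) := div_nonneg (sub_nonneg.mpr hs.1) (sub_pos.mpr hac).le
      have e1 : (c - s) / (c - a) + (s - a) / (c - a) = 1 := by
        have hne : c - a ≠ 0 := (sub_pos.mpr hac).ne'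
        field_simp; ring
      refine ⟨?_, ?_⟩
      · rw [key]; exact convex_carrier (b p.1) ha.1 hc.1 h0 h1 e1
      · rw [key]; exact convex_carrier (b p.2) ha.2 hc.2 h0 h1 e1
  let S : Set (ι × ι) := {p | p.1 ≠ p.2 ∧ ¬ Aligned D (b p.1) (b p.2) ∧
    ∃ α β : ℝ, 0 < β ∧ α < β ∧ α ∈ T p ∧ β ∈ T p}
  have hSne : S.Nonempty := by
    obtain ⟨ε, hε, hgen⟩ := hG
    refine ⟨(i, j), hij, hna, 0, ε / (2 * ‖w‖), by positivity, by positivity, ?_, ?_⟩
    · refine ⟨?_, ?_⟩ <;> simpa using (by assumption)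
    · have hn : ‖(ε / (2 * ‖w‖)) • w‖ < ε := by
        rw [norm_smul, Real.norm_eq_abs, abs_of_pos (by positivity)]
        have : ε / (2 * ‖w‖) * ‖w‖ = ε / 2 := by field_simp
        rw [this]; linarith
      have hm : (ε / (2 * ‖w‖)) • w ∈ D := D.smul_mem _ hwD
      exact ⟨hgen i hi _ hm hn, hgen j hj _ hm hn⟩
  obtain ⟨p, ⟨hp1, hp2, α, β, hβ0, hαβ, hαT, hβT⟩, hmax⟩ :=
    Set.exists_max_image S (fun p => sSup (T p)) (Set.toFinite S) hSne
  have hBT : sSup (T p) ∈ T p := (hTclosed p).csSup_mem ⟨β, hβT⟩ (hTbdd p)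
  have hβB : β ≤ sSup (T p) := le_csSup (hTbdd p) hβT
  set B := sSup (T p) with hB
  have hB0' : 0 < B := lt_of_lt_of_le hβ0 hβB
  have hB0 : B ≠ 0 := hB0'.ne'
  have hαB : α < B := by linarith
  have hseg : ∀ s : ℝ, 0 ≤ s → s ≤ B - α → B - s ∈ T p := by
    intro s hs0 hs1
    exact (hTconv p).out hαT hBT ⟨by linarith, by linarith⟩
  have hrew : ∀ s : ℝ, (x + B • w) + s • (-w) = x + (B - s) • w := by
    intro s; module
  have htc1 : TC (b p.1) (x + B • w) (-w) := by
    refine ⟨B - α, by linarith, fun s hs0 hs1 => ?_⟩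
    rw [hrew]; exact (hseg s hs0 hs1).1
  have htc2 : TC (b p.2) (x + B • w) (-w) := by
    refine ⟨B - α, by linarith, fun s hs0 hs1 => ?_⟩
    rw [hrew]; exact (hseg s hs0 hs1).2
  obtain ⟨u, huD, hli, hGu⟩ := hgd B hB0
  obtain ⟨i', j', hij', ⟨δ1, hδ1, ht1⟩, ⟨δ2, hδ2, ht2⟩, hna'⟩ :=
    crossing hb D hD u w huD hwD hli (x + B • w) hGu p.1 p.2 hp1 htc1 htc2 hp2
  have hrew2 : ∀ s : ℝ, (x + B • w) + s • w = x + (B + s) • w := by
    intro s; module
  have hmem : ∀ s : ℝ, 0 ≤ s → s ≤ min δ1 δ2 → B + s ∈ T (i', j') := by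
    intro s hs0 hs1
    have h1 := ht1 s hs0 (hs1.trans (min_le_left _ _))
    have h2 := ht2 s hs0 (hs1.trans (min_le_right _ _))
    rw [hrew2] at h1 h2
    exact ⟨h1, h2⟩
  have hδ : 0 < min δ1 δ2 := lt_min hδ1 hδ2
  have hin : (i', j') ∈ S := by
    refine ⟨hij', hna', B, B + min δ1 δ2, by linarith, by linarith, ?_, hmem _ hδ.le le_rfl⟩
    have := hmem 0 le_rfl hδ.le
    rwa [add_zero] at this
  have h3 := hmax _ hin
  have h4 : B + min δ1 δ2 ≤ sSup (T (i', j')) := le_csSup (hTbdd _) (hmem _ hδ.le le_rfl)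
  linarith

/-! ## Combinatorial lemmas -/

theorem orbit {T : Type} [Finite T] (f μ : T → T) (hf : ∀ τ, f (f τ) = τ)
    (hμ : ∀ τ, μ (μ τ) = τ) (hf0 : ∀ τ, f τ ≠ τ) (hμ0 : ∀ τ, μ τ ≠ τ) (τ0 : T) :
    ∃ K > 0, ∃ τ : ℕ → T, τ 0 = τ0 ∧ (∀ n, τ (n + 1) = μ (f (τ n))) ∧ τ K = τ0 ∧
      (∀ m < K, ∀ n < K, τ m = τ n → m = n) ∧ (∀ m < K, ∀ n < K, τ m ≠ f (τ n)) ∧
      ∀ m < K, ∀ n < K, τ m ≠ μ (τ n) := by
  classical
  have hμi : ∀ a b, μ a = μ b → a = b := fun a b h => by rw [← hμ a, h, hμ b]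
  have hfi : ∀ a b, f a = f b → a = b := fun a b h => by rw [← hf a, h, hf b]
  set σ : T → T := fun τ => μ (f τ) with hσ
  have hσi : Function.Injective σ := fun a b h => hfi _ _ (hμi _ _ h)
  have hper : τ0 ∈ Function.periodicPts σ := hσi.mem_periodicPts τ0
  have hKpos := Function.minimalPeriod_pos_of_mem_periodicPts hper
  have hKper : σ^[Function.minimalPeriod σ τ0] τ0 = τ0 :=
    Function.isPeriodicPt_minimalPeriod σ τ0
  have key : ∀ p : ℕ, ∀ τ, σ^[p] τ ≠ f τ := by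
    intro p
    induction p using Nat.twoStepInduction with
    | zero => intro τ h; exact hf0 τ h.symm
    | one => intro τ h; exact hμ0 (f τ) h
    | more p ih _ =>
      intro τ h
      rw [Function.iterate_succ_apply', Function.iterate_succ_apply] at h
      apply ih (σ τ)
      have h1 : f (σ^[p] (σ τ)) = σ τ := by
        apply hμi
        show σ (σ^[p] (σ τ)) = _
        rw [h]
        show f τ = μ (μ (f τ))
        rw [hμ]
      apply hfi
      rw [h1, hf]
  have key2 : ∀ m n : ℕ, σ^[m] τ0 ≠ f (σ^[n] τ0) := by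
    intro m n h
    rcases le_total n m with hnm | hnm
    · obtain ⟨k, rfl⟩ := Nat.exists_eq_add_of_le' hnm
      rw [Function.iterate_add_apply] at h
      exact key k _ h
    · obtain ⟨k, rfl⟩ := Nat.exists_eq_add_of_le' hnm
      rw [Function.iterate_add_apply] at h
      refine key k (σ^[m] τ0) ?_
      rw [← hf (σ^[k] (σ^[m] τ0)), ← h]
  have key3 : ∀ m n : ℕ, σ^[m + 1] τ0 ≠ μ (σ^[n] τ0) := by
    intro m n h
    rw [Function.iterate_succ_apply'] at h
    exact key2 n m (hμi _ _ h).symm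
  refine ⟨Function.minimalPeriod σ τ0, hKpos, fun n => σ^[n] τ0, rfl,
    fun n => Function.iterate_succ_apply' σ n τ0, hKper, ?_, fun m _ n _ => key2 m n, ?_⟩
  · intro m hm n hn h
    exact Function.iterate_injOn_Iio_minimalPeriod hm hn h
  · intro m _ n _ h
    rcases m with _ | m
    · obtain ⟨k, hk⟩ := Nat.exists_eq_succ_of_ne_zero hKpos.ne'
      refine key3 k n ?_
      rw [← Nat.succ_eq_add_one, ← hk, hKper]
      exact h
    · exact key3 m n h

theorem cycle_lemma_glue {X : Type} [TopologicalSpace X] (Γ : ℝ → X)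
    (h : ∀ n : ℕ, ContinuousOn Γ (Icc (n : ℝ) (n + 1))) :
    ∀ n : ℕ, ContinuousOn Γ (Icc (0 : ℝ) n) := by
  intro n
  induction n with
  | zero => simp
  | succ n ih =>
    have h1 : Icc (0 : ℝ) ((n + 1 : ℕ) : ℝ) = Icc (0 : ℝ) n ∪ Icc (n : ℝ) (n + 1) := by
      rw [Set.Icc_union_Icc_eq_Icc (by positivity) (by linarith)]
      push_cast
      rfl
    rw [h1]
    exact ih.union_of_isClosed (h n) isClosed_Icc isClosed_Icc

theorem cycle_lemma_close {X : Type} [TopologicalSpace X] (Γ : ℝ → X) (x0 : X) (K : ℝ)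
    (hK : 0 < K) (hc : ContinuousOn Γ (Icc 0 K)) (h0 : Γ 0 = Γ K) (hi : InjOn Γ (Ico 0 K)) :
    ∃ γ : ℂ → X, ContinuousOn γ (sphere 0 1) ∧ InjOn γ (sphere 0 1) ∧
      ∀ z ∈ sphere (0 : ℂ) 1, ∃ t ∈ Ico 0 K, γ z = Γ t := by
  classical
  haveI : Fact (0 < K) := ⟨hK⟩
  have hcont : Continuous (AddCircle.liftIco K 0 Γ) := by
    apply AddCircle.liftIco_continuous
    · rw [zero_add]; exact h0
    · rw [zero_add]; exact hc
  have hrep : ∀ x : AddCircle K, ∃ t ∈ Ico (0 : ℝ) K, (t : AddCircle K) = x := by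
    intro x
    have h1 := (AddCircle.equivIco K 0 x).2
    refine ⟨(AddCircle.equivIco K 0 x : ℝ), ?_, ?_⟩
    · simpa using h1
    · exact (AddCircle.equivIco K 0).symm_apply_apply x
  have happ : ∀ t ∈ Ico (0 : ℝ) K, AddCircle.liftIco K 0 Γ (t : AddCircle K) = Γ t := by
    intro t ht
    exact AddCircle.liftIco_zero_coe_apply ht
  have hinj : Function.Injective (AddCircle.liftIco K 0 Γ) := by
    intro x y hxy
    obtain ⟨s, hs, rfl⟩ := hrep x
    obtain ⟨t, ht, rfl⟩ := hrep y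
    rw [happ s hs, happ t ht] at hxy
    rw [hi hs ht hxy]
  let H : AddCircle K ≃ₜ Circle := AddCircle.homeomorphCircle hK.ne'
  let F : Circle → X := fun z => AddCircle.liftIco K 0 Γ (H.symm z)
  have hF : Continuous F := hcont.comp H.symm.continuous
  have hFi : Function.Injective F := hinj.comp H.symm.injective
  let F' : sphere (0 : ℂ) 1 → X := fun z => F (⟨z.1, z.2⟩ : Circle)
  have hF' : Continuous F' := hF.comp (Continuous.subtype_mk continuous_subtype_val _)
  refine ⟨fun z => if h : z ∈ sphere (0 : ℂ) 1 then F' ⟨z, h⟩ else x0, ?_, ?_, ?_⟩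
  · rw [continuousOn_iff_continuous_restrict]
    convert hF' using 1
    funext z
    simp only [Set.restrict_apply]
    rw [dif_pos z.2]
  · intro z hz w hw hzw
    simp only at hzw
    rw [dif_pos hz, dif_pos hw] at hzw
    have := hFi hzw
    exact congrArg (fun c : Circle => (c : ℂ)) this
  · intro z hz
    obtain ⟨t, ht, hte⟩ := hrep (H.symm ⟨z, hz⟩)
    refine ⟨t, ht, ?_⟩
    simp only
    rw [dif_pos hz]
    show AddCircle.liftIco K 0 Γ (H.symm ⟨z, hz⟩) = Γ t
    rw [← hte, happ t ht]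

theorem cycle_lemma {J : Type} [Finite J] [Nonempty J] {X : Type} [TopologicalSpace X]
    (g : J → ℝ → X) (hc : ∀ j, ContinuousOn (g j) (Icc 0 1)) (hi : ∀ j, InjOn (g j) (Icc 0 1))
    (hd : ∀ i j, i ≠ j → ∀ s ∈ Icc (0 : ℝ) 1, ∀ t ∈ Icc (0 : ℝ) 1, g i s = g j t →
      (s = 0 ∨ s = 1) ∧ (t = 0 ∨ t = 1))
    (hm : ∀ i, ∀ s : ℝ, (s = 0 ∨ s = 1) → ∃ j, j ≠ i ∧ ∃ t : ℝ, (t = 0 ∨ t = 1) ∧ g j t = g i s)
    (h3 : ∀ i j k, i ≠ j → i ≠ k → j ≠ k → ∀ s ∈ Icc (0 : ℝ) 1, ∀ t ∈ Icc (0 : ℝ) 1,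
      ∀ r ∈ Icc (0 : ℝ) 1, g i s = g j t → g i s = g k r → False) :
    ∃ γ : ℂ → X, ContinuousOn γ (sphere 0 1) ∧ InjOn γ (sphere 0 1) ∧
      ∀ z ∈ sphere (0 : ℂ) 1, ∃ j, ∃ s ∈ Icc (0 : ℝ) 1, γ z = g j s := by
  classical
  let T := J × Bool
  let pr : Bool → ℝ := fun e => if e then 1 else 0
  have hpr : ∀ e, pr e = 0 ∨ pr e = 1 := by
    intro e; cases e <;> simp [pr]
  have hprI : ∀ e, pr e ∈ Icc (0 : ℝ) 1 := by
    intro e; cases e <;> simp [pr]
  have hprinj : ∀ e e', pr e = pr e' → e = e' := by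
    intro e e'; cases e <;> cases e' <;> simp [pr]
  have hprs : ∀ s : ℝ, (s = 0 ∨ s = 1) → ∃ e, pr e = s := by
    intro s hs
    rcases hs with rfl | rfl
    · exact ⟨false, by simp [pr]⟩
    · exact ⟨true, by simp [pr]⟩
  let pt : T → X := fun τ => g τ.1 (pr τ.2)
  let f : T → T := fun τ => (τ.1, !τ.2)
  have hex : ∀ τ : T, ∃ ρ : T, ρ.1 ≠ τ.1 ∧ pt ρ = pt τ := by
    rintro ⟨i, e⟩
    obtain ⟨j, hji, t, ht, hgt⟩ := hm i (pr e) (hpr e)
    obtain ⟨e', he'⟩ := hprs t ht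
    refine ⟨(j, e'), hji, ?_⟩
    show g j (pr e') = g i (pr e)
    rw [he', hgt]
  have huniq : ∀ τ ρ σ : T, ρ.1 ≠ τ.1 → pt ρ = pt τ → σ.1 ≠ τ.1 → pt σ = pt τ → ρ = σ := by
    rintro ⟨i, e⟩ ⟨j, e1⟩ ⟨k, e2⟩ h1 h2 h3' h4
    change g j (pr e1) = g i (pr e) at h2
    change g k (pr e2) = g i (pr e) at h4
    change j ≠ i at h1
    change k ≠ i at h3'
    by_cases hjk : j = k
    · subst hjk
      have := hi j (hprI e1) (hprI e2) (h2.trans h4.symm)
      rw [hprinj _ _ this]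
    · exact (h3 i j k h1.symm h3'.symm hjk (pr e) (hprI e) (pr e1) (hprI e1) (pr e2) (hprI e2)
        h2.symm h4.symm).elim
  choose μ hμ1 hμ2 using hex
  have hμμ : ∀ τ, μ (μ τ) = τ := by
    intro τ
    exact huniq (μ τ) _ _ (hμ1 _) (hμ2 _) (hμ1 τ).symm (hμ2 τ).symm
  have hμ0 : ∀ τ, μ τ ≠ τ := by
    intro τ h
    exact hμ1 τ (by rw [h])
  have hf : ∀ τ, f (f τ) = τ := by
    rintro ⟨i, e⟩
    simp [f]
  have hf0 : ∀ τ, f τ ≠ τ := by
    rintro ⟨i, e⟩ h
    have : (!e) = e := congrArg Prod.snd h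
    cases e <;> simp at this
  obtain ⟨K, hK, τ, hτ0, hτs, hτK, hinj, hnf, hnμ⟩ :=
    orbit f μ hf hμμ hf0 hμ0 (Classical.arbitrary J, false)
  let prm : T → ℝ → ℝ := fun σ u => if σ.2 then 1 - u else u
  have hprmI : ∀ σ u, u ∈ Icc (0 : ℝ) 1 → prm σ u ∈ Icc (0 : ℝ) 1 := by
    rintro ⟨i, e⟩ u ⟨hu0, hu1⟩
    cases e
    · simp only [prm, Bool.false_eq_true, if_false]; exact ⟨hu0, hu1⟩
    · simp only [prm, if_true]; exact ⟨by linarith, by linarith⟩
  have hprmc : ∀ σ, Continuous (prm σ) := by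
    rintro ⟨i, e⟩
    cases e
    · simp only [prm, Bool.false_eq_true, if_false]; exact continuous_id
    · simp only [prm, if_true]; exact continuous_const.sub continuous_id
  have hprminj : ∀ σ u v, prm σ u = prm σ v → u = v := by
    rintro ⟨i, e⟩ u v h
    cases e
    · simpa [prm] using h
    · simp only [prm, if_true] at h; linarith
  have hprm01 : ∀ σ u, u ∈ Ico (0 : ℝ) 1 → (prm σ u = 0 ∨ prm σ u = 1) → u = 0 ∨ u = 1 := by
    rintro ⟨i, e⟩ u hu h
    cases e
    · simpa [prm] using h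
    · simp only [prm, if_true] at h
      rcases h with h | h
      · right; linarith
      · left; linarith
  let A : T → ℝ → X := fun σ u => g σ.1 (prm σ u)
  have hA0 : ∀ σ, A σ 0 = pt σ := by
    rintro ⟨i, e⟩
    cases e <;> simp [A, pt, prm, pr]
  have hA1 : ∀ σ, A σ 1 = pt (f σ) := by
    rintro ⟨i, e⟩
    cases e <;> simp [A, pt, prm, pr, f]
  have hAc : ∀ σ, ContinuousOn (A σ) (Icc 0 1) := fun σ =>
    (hc σ.1).comp (hprmc σ).continuousOn (fun u hu => hprmI σ u hu)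
  let Γ : ℝ → X := fun t => A (τ ⌊t⌋₊) (t - ⌊t⌋₊)
  have hnext : ∀ n, pt (τ (n + 1)) = pt (f (τ n)) := by
    intro n
    rw [hτs n]
    exact hμ2 _
  have hΓn : ∀ n : ℕ, ∀ t ∈ Icc (n : ℝ) (n + 1), Γ t = A (τ n) (t - n) := by
    intro n t ht
    rcases eq_or_lt_of_le ht.2 with h | h
    · have hfl : ⌊t⌋₊ = n + 1 := by
        rw [h]
        exact_mod_cast Nat.floor_natCast (n + 1)
      show A (τ ⌊t⌋₊) (t - ⌊t⌋₊) = _
      rw [hfl, h]
      push_cast
      rw [sub_self, add_sub_cancel_left, hA0, hA1, hnext]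
    · have hfl : ⌊t⌋₊ = n := by
        rw [Nat.floor_eq_iff (le_trans (by positivity) ht.1)]
        exact ⟨ht.1, h⟩
      show A (τ ⌊t⌋₊) (t - ⌊t⌋₊) = _
      rw [hfl]
  have hΓc : ∀ n : ℕ, ContinuousOn Γ (Icc (n : ℝ) (n + 1)) := by
    intro n
    have h1 : ContinuousOn (fun t : ℝ => A (τ n) (t - n)) (Icc (n : ℝ) (n + 1)) := by
      apply (hAc (τ n)).comp (continuous_id.sub continuous_const).continuousOn
      intro t ht
      exact ⟨by simp; exact ht.1, by simp; linarith [ht.2]⟩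
    exact h1.congr (hΓn n)
  have hΓK := cycle_lemma_glue Γ hΓc K
  have hΓ0 : Γ 0 = Γ K := by
    have h1 : Γ 0 = A (τ 0) 0 := by
      have := hΓn 0 0 ⟨by simp, by simp⟩
      simpa using this
    have h2 : Γ K = A (τ K) 0 := by
      have := hΓn K K ⟨le_refl _, by linarith⟩
      simpa using this
    rw [h1, h2, hτ0, hτK]
  have hΓi : InjOn Γ (Ico (0 : ℝ) K) := by
    intro s hs t ht hst
    have hms : ⌊s⌋₊ < K := (Nat.floor_lt hs.1).2 hs.2
    have hmt : ⌊t⌋₊ < K := (Nat.floor_lt ht.1).2 ht.2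
    have hs1 := Nat.floor_le hs.1
    have hs2 := Nat.lt_floor_add_one s
    have ht1 := Nat.floor_le ht.1
    have ht2 := Nat.lt_floor_add_one t
    change A (τ ⌊s⌋₊) (s - ⌊s⌋₊) = A (τ ⌊t⌋₊) (t - ⌊t⌋₊) at hst
    generalize hm' : ⌊s⌋₊ = m at *
    generalize hn' : ⌊t⌋₊ = n at *
    have hsI : s - m ∈ Ico (0 : ℝ) 1 := ⟨by linarith, by linarith⟩
    have htI : t - n ∈ Ico (0 : ℝ) 1 := ⟨by linarith, by linarith⟩
    by_cases hmn : m = n
    · subst hmn
      have h1 := hi (τ m).1 (hprmI (τ m) _ (Ico_subset_Icc_self hsI))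
        (hprmI (τ m) _ (Ico_subset_Icc_self htI)) hst
      have h2 := hprminj (τ m) _ _ h1
      linarith
    · exfalso
      have hbox : (τ m).1 ≠ (τ n).1 := by
        intro hb
        by_cases he : (τ m).2 = (τ n).2
        · exact hmn (hinj m hms n hmt (Prod.ext hb he))
        · apply hnf m hms n hmt
          refine Prod.ext hb ?_
          show (τ m).2 = !(τ n).2
          cases h1 : (τ m).2 <;> cases h2 : (τ n).2 <;> simp_all
      obtain ⟨h1, h2⟩ := hd (τ m).1 (τ n).1 hbox _ (hprmI (τ m) _ (Ico_subset_Icc_self hsI)) _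
        (hprmI (τ n) _ (Ico_subset_Icc_self htI)) hst
      have h3' := hprm01 _ _ hsI h1
      have h4 := hprm01 _ _ htI h2
      have h5 : s - m = 0 := by
        rcases h3' with h | h
        · exact h
        · linarith [hsI.2]
      have h6 : t - n = 0 := by
        rcases h4 with h | h
        · exact h
        · linarith [htI.2]
      rw [h5, h6, hA0, hA0] at hst
      apply hnμ m hms n hmt
      exact huniq (τ n) _ _ hbox hst (hμ1 _) (hμ2 _)
  obtain ⟨γ, h1, h2, h3'⟩ := cycle_lemma_close Γ (Γ 0) K (by exact_mod_cast hK) hΓK hΓ0 hΓi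
  refine ⟨γ, h1, h2, ?_⟩
  intro z hz
  obtain ⟨t, ht, hγ⟩ := h3' z hz
  have ht1 := Nat.floor_le ht.1
  have ht2 := Nat.lt_floor_add_one t
  exact ⟨(τ ⌊t⌋₊).1, prm (τ ⌊t⌋₊) (t - ⌊t⌋₊), hprmI _ _ ⟨by linarith, by linarith⟩, hγ⟩

theorem fp_neword {i j : ℂ} (w : Monoid.CoprodI.NeWord (fun _ : ℂ => Multiplicative ℂ) i j) :
    w.prod ≠ 1 := by
  classical
  intro h
  have h1 : w.toWord.prod = (Monoid.CoprodI.Word.empty :
      Monoid.CoprodI.Word (fun _ : ℂ => Multiplicative ℂ)).prod := by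
    rw [Monoid.CoprodI.Word.prod_empty]
    exact h
  have h2 : w.toWord = Monoid.CoprodI.Word.empty :=
    (Monoid.CoprodI.Word.equiv (M := fun _ : ℂ => Multiplicative ℂ)).symm.injective h1
  have h3 := congrArg Monoid.CoprodI.Word.toList h2
  exact w.toList_ne_nil h3

theorem fp_inv (K : ℕ) (g : ℕ → ℂ) (z : ℕ → ℂ) (s : ℕ → G)
    (hs : ∀ n < K, s (n + 1) =
      s n * Monoid.CoprodI.of (i := g n) (Multiplicative.ofAdd (z (n + 1) - z n)))
    (hinj : ∀ m < K, ∀ n < K, z m = z n → m = n) (n : ℕ) (hn1 : n + 1 ≤ K) :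
    ∃ m, m < n + 1 ∧ g n = g m ∧
      s (n + 1) = s m * Monoid.CoprodI.of (i := g m) (Multiplicative.ofAdd (z (n + 1) - z m)) ∧
      (m = 0 ∨ ∃ (i : ℂ) (w : Monoid.CoprodI.NeWord (fun _ : ℂ => Multiplicative ℂ) (g 0) i),
        i ≠ g m ∧ w.prod = (s 0)⁻¹ * s m) := by
  induction n with
  | zero => exact ⟨0, by omega, rfl, hs 0 (by omega), Or.inl rfl⟩
  | succ n ih =>
    obtain ⟨m, hm, hgm, hsm, hw⟩ := ih (by omega)
    by_cases hc : g (n + 1) = g m
    · refine ⟨m, by omega, hc, ?_, hw⟩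
      rw [hs (n + 1) (by omega), hsm, hc, mul_assoc, ← map_mul, ← ofAdd_add]
      congr 3
      ring
    · refine ⟨n + 1, by omega, rfl, hs (n + 1) (by omega), Or.inr ?_⟩
      have hx : (Multiplicative.ofAdd (z (n + 1) - z m)) ≠ 1 := by
        intro h
        rw [ofAdd_eq_one, sub_eq_zero] at h
        have := hinj (n + 1) (by omega) m (by omega) h
        omega
      rcases hw with h0 | ⟨i, w, hi, hwp⟩
      · subst h0
        refine ⟨g 0, Monoid.CoprodI.NeWord.singleton (M := fun _ : ℂ => Multiplicative ℂ) (i := g 0)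
          _ hx, fun h => hc h.symm, ?_⟩
        rw [Monoid.CoprodI.NeWord.prod_singleton, hsm]
        group
      · refine ⟨g m, Monoid.CoprodI.NeWord.append w hi
          (Monoid.CoprodI.NeWord.singleton (M := fun _ : ℂ => Multiplicative ℂ) (i := g m) _ hx),
          fun h => hc h.symm, ?_⟩
        rw [Monoid.CoprodI.NeWord.append_prod, Monoid.CoprodI.NeWord.prod_singleton, hwp, hsm,
          mul_assoc]

/-- a reduced word in a free product is nontrivial -/
theorem fp (K : ℕ) (hK : 0 < K) (g : ℕ → ℂ) (z : ℕ → ℂ) (s : ℕ → G)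
    (hs : ∀ n < K, s (n + 1) =
      s n * Monoid.CoprodI.of (i := g n) (Multiplicative.ofAdd (z (n + 1) - z n)))
    (hz : z K = z 0) (hinj : ∀ m < K, ∀ n < K, z m = z n → m = n) (hg : g (K - 1) ≠ g 0)
    (hs0 : s K = s 0) : False := by
  obtain ⟨n, rfl⟩ : ∃ n, K = n + 1 := ⟨K - 1, by omega⟩
  rw [Nat.add_sub_cancel] at hg
  obtain ⟨m, hm, hgm, hsm, hw⟩ := fp_inv (n + 1) g z s hs hinj n le_rfl
  have hm0 : m ≠ 0 := by
    rintro rfl
    exact hg hgm
  rcases hw with h0 | ⟨i, w, hi, hwp⟩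
  · exact hm0 h0
  · have hx : (Multiplicative.ofAdd (z (n + 1) - z m)) ≠ 1 := by
      intro h
      rw [ofAdd_eq_one, sub_eq_zero, hz] at h
      exact hm0 (hinj 0 hK m hm h).symm
    refine fp_neword (Monoid.CoprodI.NeWord.append w hi
      (Monoid.CoprodI.NeWord.singleton (M := fun _ : ℂ => Multiplicative ℂ) (i := g m) _ hx)) ?_
    rw [Monoid.CoprodI.NeWord.append_prod, Monoid.CoprodI.NeWord.prod_singleton, hwp, mul_assoc,
      ← hsm, hs0]
    group

/-! ## Links of generic points of lines -/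

theorem sec_inner (B : Box) (x : R4) {y : R4} (hy : y ∈ B.dirs) :
    inner ℝ x y = ∑ m, B.dc x m * B.dc y m * ‖B.v m‖ ^ 2 := by
  conv_lhs => rw [← sum_dc B hy]
  rw [inner_sum]
  refine Finset.sum_congr rfl fun m _ => ?_
  rw [inner_smul_right]
  have h : ‖B.v m‖ ≠ 0 := norm_ne_zero_iff.2 (B.ne m)
  have h2 : inner ℝ x (B.v m) = B.dc x m * ‖B.v m‖ ^ 2 := by
    unfold Box.dc
    field_simp
  rw [h2]
  ring

theorem sec_fin3 (k : Fin 3) : ∃ l l' : Fin 3, l ≠ k ∧ l' ≠ k ∧ l ≠ l' ∧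
    ∀ m, m = k ∨ m = l ∨ m = l' := by
  revert k
  decide

theorem sec_sum {k l l' : Fin 3} (h1 : l ≠ k) (h2 : l' ≠ k) (h3 : l ≠ l')
    (h : ∀ m, m = k ∨ m = l ∨ m = l') (f : Fin 3 → ℝ) : ∑ m, f m = f k + f l + f l' := by
  have hu : (Finset.univ : Finset (Fin 3)) = {k, l, l'} := by
    ext m
    simp [h m]
  rw [hu, Finset.sum_insert, Finset.sum_insert, Finset.sum_singleton]
  · ring
  · simpa using h3
  · simp [h1.symm, h2.symm]

theorem sec_ev (c d : ℝ) (h : (c = 0 ∧ 0 < d) ∨ (c = 1 ∧ d < 0) ∨ (0 < c ∧ c < 1)) :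
    ∀ᶠ t in 𝓝[>] (0 : ℝ), 0 < c + t * d ∧ c + t * d < 1 := by
  have hcont : Continuous fun t : ℝ => c + t * d := by fun_prop
  have hpos : ∀ᶠ t in 𝓝[>] (0 : ℝ), 0 < t := self_mem_nhdsWithin
  have h0 : ∀ x : ℝ, x < c → ∀ᶠ t in 𝓝[>] (0 : ℝ), x < c + t * d := by
    intro x hx
    apply nhdsWithin_le_nhds
    have : Filter.Tendsto (fun t : ℝ => c + t * d) (𝓝 0) (𝓝 c) := by
      have := hcont.tendsto 0
      simpa using this
    exact this.eventually (lt_mem_nhds hx)
  have h1 : ∀ x : ℝ, c < x → ∀ᶠ t in 𝓝[>] (0 : ℝ), c + t * d < x := by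
    intro x hx
    apply nhdsWithin_le_nhds
    have : Filter.Tendsto (fun t : ℝ => c + t * d) (𝓝 0) (𝓝 c) := by
      have := hcont.tendsto 0
      simpa using this
    exact this.eventually (gt_mem_nhds hx)
  rcases h with ⟨rfl, hd⟩ | ⟨rfl, hd⟩ | ⟨hc0, hc1⟩
  · filter_upwards [hpos, h1 1 (by norm_num)] with t ht ht1
    exact ⟨by have := mul_pos ht hd; linarith, ht1⟩
  · filter_upwards [hpos, h0 0 (by norm_num)] with t ht ht1
    exact ⟨ht1, by have := mul_neg_of_pos_of_neg ht hd; linarith⟩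
  · filter_upwards [h0 0 hc0, h1 1 hc1] with t ht0 ht1
    exact ⟨ht0, ht1⟩

theorem sec_core (B : Box) (q : R4) (hq : q ∈ B.carrier) (σ : Fin 3 → ℝ)
    (hσ : ∀ m, (B.coord q m = 0 ∧ σ m = 1) ∨ (B.coord q m = 1 ∧ σ m = -1) ∨
      (0 < B.coord q m ∧ B.coord q m < 1 ∧ σ m = 0)) (w : R4) (hw : w ∈ B.dirs)
    (hp : ∀ m, σ m ≠ 0 → 0 < σ m * B.dc w m) :
    ∃ δ > (0 : ℝ), ∀ t : ℝ, 0 < t → t < δ → q + t • w ∈ B.core := by
  have h1 : ∀ m, ∀ᶠ t in 𝓝[>] (0 : ℝ),
      0 < B.coord q m + t * B.dc w m ∧ B.coord q m + t * B.dc w m < 1 := by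
    intro m
    apply sec_ev
    rcases hσ m with ⟨h, hs⟩ | ⟨h, hs⟩ | ⟨h, h', hs⟩
    · left
      have := hp m (by rw [hs]; norm_num)
      rw [hs] at this
      exact ⟨h, by linarith⟩
    · right; left
      have := hp m (by rw [hs]; norm_num)
      rw [hs] at this
      exact ⟨h, by linarith⟩
    · exact Or.inr (Or.inr ⟨h, h'⟩)
  have h2 := Filter.eventually_all.2 h1
  rw [eventually_nhdsWithin_iff, Metric.eventually_nhds_iff] at h2
  obtain ⟨δ, hδ, h3⟩ := h2
  refine ⟨δ, hδ, fun t ht0 ht1 => ?_⟩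
  rw [mem_core_iff]
  refine ⟨?_, fun m => ?_⟩
  · have h4 := (mem_carrier_iff B q).1 hq
    have h5 : q + t • w - B.p = (q - B.p) + t • w := by abel
    rw [h5]
    exact B.dirs.add_mem h4.1 (B.dirs.smul_mem t hw)
  · rw [coord_add, dc_smul]
    refine h3 ?_ ht0 m
    rw [Real.dist_eq, sub_zero, abs_of_pos ht0]
    exact ht1

theorem sec_notcore (B : Box) (q : R4) (σ : Fin 3 → ℝ)
    (hσ : ∀ m, (B.coord q m = 0 ∧ σ m = 1) ∨ (B.coord q m = 1 ∧ σ m = -1) ∨
      (0 < B.coord q m ∧ B.coord q m < 1 ∧ σ m = 0)) (w : R4)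
    (hp : ∃ m, σ m ≠ 0 ∧ B.dc w m = 0) (t : ℝ) : q + t • w ∉ B.core := by
  intro h
  obtain ⟨m, hm, hd⟩ := hp
  have h1 := ((mem_core_iff B _).1 h).2 m
  rw [coord_add, dc_smul, hd, mul_zero, add_zero] at h1
  rcases hσ m with ⟨h, hs⟩ | ⟨h, hs⟩ | ⟨h, h', hs⟩
  · rw [h] at h1; linarith [h1.1]
  · rw [h] at h1; linarith [h1.2]
  · exact hm hs

theorem sec_tc (B : Box) (q : R4) (hq : q ∈ B.carrier) (σ : Fin 3 → ℝ)
    (hσ : ∀ m, (B.coord q m = 0 ∧ σ m = 1) ∨ (B.coord q m = 1 ∧ σ m = -1) ∨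
      (0 < B.coord q m ∧ B.coord q m < 1 ∧ σ m = 0)) (w : R4) :
    TC B q w ↔ w ∈ B.dirs ∧ ∀ m, 0 ≤ σ m * B.dc w m := by
  rw [tc_iff]
  constructor
  · rintro ⟨-, h1, h2⟩
    refine ⟨h1, fun m => ?_⟩
    rcases hσ m with ⟨h, hs⟩ | ⟨h, hs⟩ | ⟨h, h', hs⟩
    · rw [hs]; have := (h2 m).1 h; linarith
    · rw [hs]; have := (h2 m).2 h; linarith
    · rw [hs]; linarith
  · rintro ⟨h1, h2⟩
    refine ⟨hq, h1, fun m => ?_⟩
    have h3 := h2 m
    rcases hσ m with ⟨h, hs⟩ | ⟨h, hs⟩ | ⟨h, h', hs⟩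
    · rw [hs] at h3
      exact ⟨fun _ => by linarith, fun h4 => by rw [h] at h4; norm_num at h4⟩
    · rw [hs] at h3
      exact ⟨fun h4 => by rw [h] at h4; norm_num at h4, fun _ => by linarith⟩
    · exact ⟨fun h4 => by linarith, fun h4 => by linarith⟩

theorem sec_concl (B : Box) (q : R4) (hq : q ∈ B.carrier) (u : R4) (σ : Fin 3 → ℝ)
    (hσ : ∀ m, (B.coord q m = 0 ∧ σ m = 1) ∨ (B.coord q m = 1 ∧ σ m = -1) ∨
      (0 < B.coord q m ∧ B.coord q m < 1 ∧ σ m = 0))
    (a a' : R4) (Θ : ℝ) (hΘ0 : 0 < Θ) (hΘ : Θ ≤ Real.pi) (ha : ‖a‖ = 1) (ha' : ‖a'‖ = 1)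
    (haa : inner ℝ a a' = 0) (had : a ∈ B.dirs) (had' : a' ∈ B.dirs)
    (hau : inner ℝ a u = 0) (hau' : inner ℝ a' u = 0)
    (Hpos : ∀ t ∈ Ioo 0 Θ, ∀ m, σ m ≠ 0 → 0 < σ m * B.dc (Real.cos t • a + Real.sin t • a') m)
    (Hnn : ∀ t ∈ Icc 0 Θ, ∀ m, 0 ≤ σ m * B.dc (Real.cos t • a + Real.sin t • a') m)
    (H0 : ∃ m, σ m ≠ 0 ∧ B.dc a m = 0)
    (H1 : ∃ m, σ m ≠ 0 ∧ B.dc (Real.cos Θ • a + Real.sin Θ • a') m = 0)
    (Hs : ∀ w ∈ B.dirs, ‖w‖ = 1 → inner ℝ w u = 0 → (∀ m, 0 ≤ σ m * B.dc w m) →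
      ∃ t ∈ Icc 0 Θ, Real.cos t • a + Real.sin t • a' = w) :
    ∃ g : ℝ → R4, ContinuousOn g (Icc 0 1) ∧ InjOn g (Icc 0 1) ∧
      (∀ s ∈ Icc (0 : ℝ) 1, ‖g s‖ = 1 ∧ inner ℝ (g s) u = 0 ∧ TC B q (g s)) ∧
      (∀ w, TC B q w → ‖w‖ = 1 → inner ℝ w u = 0 → ∃ s ∈ Icc (0 : ℝ) 1, g s = w) ∧
      (∀ s ∈ Ioo (0 : ℝ) 1, ∃ δ > (0 : ℝ), ∀ t : ℝ, 0 < t → t < δ → q + t • g s ∈ B.core) ∧
      ∀ t : ℝ, 0 < t → q + t • g 0 ∉ B.core ∧ q + t • g 1 ∉ B.core := by
  have hmem : ∀ s : ℝ, Real.cos s • a + Real.sin s • a' ∈ B.dirs := fun s =>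
    B.dirs.add_mem (B.dirs.smul_mem _ had) (B.dirs.smul_mem _ had')
  have hrange : ∀ s ∈ Icc (0 : ℝ) 1, Θ * s ∈ Icc 0 Θ := fun s hs =>
    ⟨mul_nonneg hΘ0.le hs.1, by nlinarith [hs.2]⟩
  have haaa : inner ℝ a a = (1 : ℝ) := by rw [real_inner_self_eq_norm_sq, ha]; norm_num
  have haaa' : inner ℝ a' a' = (1 : ℝ) := by rw [real_inner_self_eq_norm_sq, ha']; norm_num
  have haa2 : inner ℝ a' a = (0 : ℝ) := by rw [real_inner_comm]; exact haa
  refine ⟨fun s => Real.cos (Θ * s) • a + Real.sin (Θ * s) • a', ?_, ?_, ?_, ?_, ?_, ?_⟩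
  · apply Continuous.continuousOn
    fun_prop
  · intro s hs t ht hst
    have h1 := congrArg (fun z => inner ℝ z a) hst
    simp only [inner_add_left, inner_smul_left, haaa, haa2, mul_zero, add_zero, mul_one] at h1
    have h2 : Real.cos (Θ * s) = Real.cos (Θ * t) := by simpa using h1
    have hs' := hrange s hs
    have ht' := hrange t ht
    have h3 := Real.injOn_cos ⟨hs'.1, hs'.2.trans hΘ⟩ ⟨ht'.1, ht'.2.trans hΘ⟩ h2
    exact mul_left_cancel₀ hΘ0.ne' h3
  · intro s hs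
    refine ⟨?_, ?_, ?_⟩
    · have h1 : ‖Real.cos (Θ * s) • a + Real.sin (Θ * s) • a'‖ ^ 2 = 1 := by
        rw [← real_inner_self_eq_norm_sq, inner_add_left, inner_add_right, inner_add_right]
        simp only [inner_smul_left, inner_smul_right, haaa, haaa', haa, haa2]
        simp
        have := Real.sin_sq_add_cos_sq (Θ * s)
        nlinarith
      have h2 : 0 ≤ ‖Real.cos (Θ * s) • a + Real.sin (Θ * s) • a'‖ := norm_nonneg _
      show ‖Real.cos (Θ * s) • a + Real.sin (Θ * s) • a'‖ = 1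
      nlinarith
    · show inner ℝ (Real.cos (Θ * s) • a + Real.sin (Θ * s) • a') u = 0
      rw [inner_add_left, inner_smul_left, inner_smul_left, hau, hau']
      simp
    · rw [sec_tc B q hq σ hσ]
      exact ⟨hmem _, Hnn _ (hrange s hs)⟩
  · intro w hw hw1 hwu
    rw [sec_tc B q hq σ hσ] at hw
    obtain ⟨t, ht, htw⟩ := Hs w hw.1 hw1 hwu hw.2
    refine ⟨t / Θ, ⟨div_nonneg ht.1 hΘ0.le, (div_le_one hΘ0).2 ht.2⟩, ?_⟩
    show Real.cos (Θ * (t / Θ)) • a + Real.sin (Θ * (t / Θ)) • a' = w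
    rw [mul_div_cancel₀ _ hΘ0.ne']
    exact htw
  · intro s hs
    refine sec_core B q hq σ hσ _ (hmem _) ?_
    exact Hpos _ ⟨mul_pos hΘ0 hs.1, by nlinarith [hs.2]⟩
  · intro t _
    constructor
    · refine sec_notcore B q σ hσ _ ?_ t
      simpa using H0
    · refine sec_notcore B q σ hσ _ ?_ t
      simpa using H1

/-- circle coordinates -/
theorem sec_circ (a a' w : R4) (ha : ‖a‖ = 1) (ha' : ‖a'‖ = 1)
    (haa : inner ℝ a a' = 0) (hw : ‖w‖ = 1) (x y : ℝ) (h : w = x • a + y • a') (hy : 0 ≤ y) :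
    Real.cos (Real.arccos x) • a + Real.sin (Real.arccos x) • a' = w := by
  have haaa : inner ℝ a a = (1 : ℝ) := by rw [real_inner_self_eq_norm_sq, ha]; norm_num
  have haaa' : inner ℝ a' a' = (1 : ℝ) := by rw [real_inner_self_eq_norm_sq, ha']; norm_num
  have haa2 : inner ℝ a' a = (0 : ℝ) := by rw [real_inner_comm]; exact haa
  have h1 : x ^ 2 + y ^ 2 = 1 := by
    have h2 : ‖w‖ ^ 2 = 1 := by rw [hw]; norm_num
    rw [← real_inner_self_eq_norm_sq, h, inner_add_left, inner_add_right, inner_add_right] at h2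
    simp only [inner_smul_left, inner_smul_right, haaa, haaa', haa, haa2] at h2
    simp at h2
    nlinarith
  have hx1 : -1 ≤ x := by nlinarith
  have hx2 : x ≤ 1 := by nlinarith
  rw [Real.cos_arccos hx1 hx2, Real.sin_arccos]
  have h3 : 1 - x ^ 2 = y ^ 2 := by linarith
  rw [h3, Real.sqrt_sq hy, h]

theorem sec_zero (B : Box) (w : R4) (hw : w ∈ B.dirs) (h : ∀ m, B.dc w m = 0) : w = 0 := by
  rw [← sum_dc B hw]
  refine Finset.sum_eq_zero fun m _ => ?_
  rw [h m, zero_smul]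

/-- the unit vector of an active edge -/
theorem sec_edge (B : Box) (s : ℝ) (hs : s * s = 1) (k : Fin 3) :
    ‖(s / ‖B.v k‖) • B.v k‖ = 1 ∧ (s / ‖B.v k‖) • B.v k ∈ B.dirs ∧
    B.dc ((s / ‖B.v k‖) • B.v k) k = s / ‖B.v k‖ ∧
    (∀ l, l ≠ k → B.dc ((s / ‖B.v k‖) • B.v k) l = 0) ∧
    ∀ w : R4, inner ℝ w ((s / ‖B.v k‖) • B.v k) = ‖B.v k‖ * (s * B.dc w k) := by
  have hk : ‖B.v k‖ ≠ 0 := norm_ne_zero_iff.2 (B.ne k)
  have hs1 : |s| = 1 := by
    have : |s| * |s| = 1 := by rw [abs_mul_abs_self]; exact hs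
    nlinarith [abs_nonneg s]
  refine ⟨?_, B.dirs.smul_mem _ (v_mem_dirs B k), ?_, ?_, ?_⟩
  · rw [norm_smul, norm_div, norm_norm, Real.norm_eq_abs, hs1]
    field_simp
  · rw [dc_smul, dc_v]
    simp
  · intro l hl
    rw [dc_smul, dc_v, if_neg hl, mul_zero]
  · intro w
    rw [inner_smul_right]
    unfold Box.dc
    field_simp

theorem sec_case2 (B : Box) (q : R4) (hq : q ∈ B.carrier) (u : R4) (hu0 : u ≠ 0)
    (hud : u ∈ B.dirs) (σ : Fin 3 → ℝ)
    (hσ : ∀ m, (B.coord q m = 0 ∧ σ m = 1) ∨ (B.coord q m = 1 ∧ σ m = -1) ∨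
      (0 < B.coord q m ∧ B.coord q m < 1 ∧ σ m = 0))
    (huσ : ∀ m, σ m ≠ 0 → B.dc u m = 0) {k l l' : Fin 3} (h1 : l ≠ k) (h2 : l' ≠ k) (h3 : l ≠ l')
    (h : ∀ m, m = k ∨ m = l ∨ m = l') (hk : σ k ≠ 0) (hl : σ l ≠ 0) (hl' : σ l' = 0) :
    ∃ g : ℝ → R4, ContinuousOn g (Icc 0 1) ∧ InjOn g (Icc 0 1) ∧
      (∀ s ∈ Icc (0 : ℝ) 1, ‖g s‖ = 1 ∧ inner ℝ (g s) u = 0 ∧ TC B q (g s)) ∧
      (∀ w, TC B q w → ‖w‖ = 1 → inner ℝ w u = 0 → ∃ s ∈ Icc (0 : ℝ) 1, g s = w) ∧
      (∀ s ∈ Ioo (0 : ℝ) 1, ∃ δ > (0 : ℝ), ∀ t : ℝ, 0 < t → t < δ → q + t • g s ∈ B.core) ∧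
      ∀ t : ℝ, 0 < t → q + t • g 0 ∉ B.core ∧ q + t • g 1 ∉ B.core := by
  have hsq : ∀ m, σ m ≠ 0 → σ m * σ m = 1 := by
    intro m hm
    rcases hσ m with ⟨_, hs⟩ | ⟨_, hs⟩ | ⟨_, _, hs⟩
    · rw [hs]; norm_num
    · rw [hs]; norm_num
    · exact absurd hs hm
  have hnk : 0 < ‖B.v k‖ := norm_pos_iff.2 (B.ne k)
  have hnl : 0 < ‖B.v l‖ := norm_pos_iff.2 (B.ne l)
  obtain ⟨ea, eb, ec, ed, ee⟩ := sec_edge B (σ k) (hsq k hk) k
  obtain ⟨fa, fb, fc, fd, fe⟩ := sec_edge B (σ l) (hsq l hl) l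
  set a : R4 := (σ k / ‖B.v k‖) • B.v k with hadef
  set a' : R4 := (σ l / ‖B.v l‖) • B.v l with hadef'
  have hau : inner ℝ a u = 0 := by
    rw [real_inner_comm, ee, huσ k hk, mul_zero, mul_zero]
  have hau' : inner ℝ a' u = 0 := by
    rw [real_inner_comm, fe, huσ l hl, mul_zero, mul_zero]
  have haa : inner ℝ a a' = 0 := by
    rw [fe, ed l h1, mul_zero, mul_zero]
  clear_value a a'
  have dk : ∀ t : ℝ, σ k * B.dc (Real.cos t • a + Real.sin t • a') k = Real.cos t / ‖B.v k‖ := by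
    intro t
    rw [dc_add, dc_smul, dc_smul, ec, fd k h1.symm]
    have := hsq k hk
    field_simp
    linear_combination Real.cos t * this
  have dl : ∀ t : ℝ, σ l * B.dc (Real.cos t • a + Real.sin t • a') l = Real.sin t / ‖B.v l‖ := by
    intro t
    rw [dc_add, dc_smul, dc_smul, fc, ed l h1]
    have := hsq l hl
    field_simp
    linear_combination Real.sin t * this
  refine sec_concl B q hq u σ hσ a a' (Real.pi / 2) (by positivity) (by linarith [Real.pi_pos])
    ea fa haa eb fb hau hau' ?_ ?_ ?_ ?_ ?_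
  · intro t ht m hm
    rcases h m with rfl | rfl | rfl
    · rw [dk t]
      exact div_pos (Real.cos_pos_of_mem_Ioo ⟨by linarith [ht.1, Real.pi_pos], ht.2⟩) hnk
    · rw [dl t]
      exact div_pos (Real.sin_pos_of_pos_of_lt_pi ht.1 (by linarith [ht.2, Real.pi_pos])) hnl
    · exact absurd hl' hm
  · intro t ht m
    rcases h m with rfl | rfl | rfl
    · rw [dk t]
      exact div_nonneg (Real.cos_nonneg_of_mem_Icc ⟨by linarith [ht.1, Real.pi_pos], ht.2⟩) hnk.le
    · rw [dl t]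
      exact div_nonneg (Real.sin_nonneg_of_nonneg_of_le_pi ht.1 (by linarith [ht.2, Real.pi_pos])) hnl.le
    · rw [hl', zero_mul]
  · exact ⟨l, hl, ed l h1⟩
  · refine ⟨k, hk, ?_⟩
    have := dk (Real.pi / 2)
    rw [Real.cos_pi_div_two, zero_div] at this
    rw [Real.cos_pi_div_two]
    exact (mul_eq_zero.1 this).resolve_left hk
  · intro w hw hw1 hwu hwn
    have hul' : B.dc u l' ≠ 0 := by
      intro h0
      apply hu0
      apply sec_zero B u hud
      intro m
      rcases h m with rfl | rfl | rfl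
      · exact huσ _ hk
      · exact huσ _ hl
      · exact h0
    have hwl' : B.dc w l' = 0 := by
      rw [sec_inner B w hud, sec_sum h1 h2 h3 h, huσ k hk, huσ l hl] at hwu
      have hn : ‖B.v l'‖ ^ 2 ≠ 0 := pow_ne_zero _ (norm_ne_zero_iff.2 (B.ne l'))
      have h5 : B.dc w l' * B.dc u l' * ‖B.v l'‖ ^ 2 = 0 := by linarith
      exact (mul_eq_zero.1 ((mul_eq_zero.1 h5).resolve_right hn)).resolve_right hul'
    set x : ℝ := ‖B.v k‖ * (σ k * B.dc w k) with hx
    set y : ℝ := ‖B.v l‖ * (σ l * B.dc w l) with hy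
    have hx0 : 0 ≤ x := mul_nonneg hnk.le (hwn k)
    have hy0 : 0 ≤ y := mul_nonneg hnl.le (hwn l)
    have hdec : w = x • a + y • a' := by
      have h5 : w - (x • a + y • a') = 0 := by
        apply sec_zero B
        · exact B.dirs.sub_mem hw (B.dirs.add_mem (B.dirs.smul_mem _ eb) (B.dirs.smul_mem _ fb))
        · intro m
          have h6 : B.dc (w - (x • a + y • a')) m = B.dc w m - (x * B.dc a m + y * B.dc a' m) := by
            have h7 : w - (x • a + y • a') = w + (-1 : ℝ) • (x • a + y • a') := by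
              rw [neg_one_smul]; abel
            rw [h7, dc_add, dc_smul, dc_add, dc_smul, dc_smul]
            ring
          rw [h6]
          rcases h m with rfl | rfl | rfl
          · rw [ec, fd _ h1.symm, hx]
            have := hsq _ hk
            field_simp
            linear_combination (-B.dc w m) * this
          · rw [fc, ed _ h1, hy]
            have := hsq _ hl
            field_simp
            linear_combination (-B.dc w m) * this
          · rw [ed _ h2, fd _ h3.symm, hwl']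
            ring
      exact sub_eq_zero.1 h5
    refine ⟨Real.arccos x, ⟨Real.arccos_nonneg x, ?_⟩, sec_circ a a' w ea fa haa hw1 x y hdec hy0⟩
    exact Real.arccos_le_pi_div_two.2 hx0

theorem sec_case1 (B : Box) (q : R4) (hq : q ∈ B.carrier) (u : R4) (hu0 : u ≠ 0)
    (hud : u ∈ B.dirs) (σ : Fin 3 → ℝ)
    (hσ : ∀ m, (B.coord q m = 0 ∧ σ m = 1) ∨ (B.coord q m = 1 ∧ σ m = -1) ∨
      (0 < B.coord q m ∧ B.coord q m < 1 ∧ σ m = 0))
    (huσ : ∀ m, σ m ≠ 0 → B.dc u m = 0) {k l l' : Fin 3} (h1 : l ≠ k) (h2 : l' ≠ k) (h3 : l ≠ l')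
    (h : ∀ m, m = k ∨ m = l ∨ m = l') (hk : σ k ≠ 0) (hl : σ l = 0) (hl' : σ l' = 0) :
    ∃ g : ℝ → R4, ContinuousOn g (Icc 0 1) ∧ InjOn g (Icc 0 1) ∧
      (∀ s ∈ Icc (0 : ℝ) 1, ‖g s‖ = 1 ∧ inner ℝ (g s) u = 0 ∧ TC B q (g s)) ∧
      (∀ w, TC B q w → ‖w‖ = 1 → inner ℝ w u = 0 → ∃ s ∈ Icc (0 : ℝ) 1, g s = w) ∧
      (∀ s ∈ Ioo (0 : ℝ) 1, ∃ δ > (0 : ℝ), ∀ t : ℝ, 0 < t → t < δ → q + t • g s ∈ B.core) ∧
      ∀ t : ℝ, 0 < t → q + t • g 0 ∉ B.core ∧ q + t • g 1 ∉ B.core := by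
  have hsq : ∀ m, σ m ≠ 0 → σ m * σ m = 1 := by
    intro m hm
    rcases hσ m with ⟨_, hs⟩ | ⟨_, hs⟩ | ⟨_, _, hs⟩
    · rw [hs]; norm_num
    · rw [hs]; norm_num
    · exact absurd hs hm
  have hnk : 0 < ‖B.v k‖ := norm_pos_iff.2 (B.ne k)
  have hnl : 0 < ‖B.v l‖ := norm_pos_iff.2 (B.ne l)
  have hnl' : 0 < ‖B.v l'‖ := norm_pos_iff.2 (B.ne l')
  have huk := huσ k hk
  obtain ⟨fa, fb, fc, fd, fe⟩ := sec_edge B (σ k) (hsq k hk) k
  set a' : R4 := (σ k / ‖B.v k‖) • B.v k with hadef'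
  set b : R4 := (B.dc u l' * ‖B.v l'‖ ^ 2) • B.v l + (-(B.dc u l * ‖B.v l‖ ^ 2)) • B.v l' with hb
  have hbd : b ∈ B.dirs :=
    B.dirs.add_mem (B.dirs.smul_mem _ (v_mem_dirs B l)) (B.dirs.smul_mem _ (v_mem_dirs B l'))
  have bk : B.dc b k = 0 := by
    rw [hb, dc_add, dc_smul, dc_smul, dc_v, dc_v, if_neg h1.symm, if_neg h2.symm]; ring
  have bl : B.dc b l = B.dc u l' * ‖B.v l'‖ ^ 2 := by
    rw [hb, dc_add, dc_smul, dc_smul, dc_v, dc_v, if_pos rfl, if_neg h3]; ring
  have bl' : B.dc b l' = -(B.dc u l * ‖B.v l‖ ^ 2) := by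
    rw [hb, dc_add, dc_smul, dc_smul, dc_v, dc_v, if_neg h3.symm, if_pos rfl]; ring
  have hD : 0 < B.dc u l ^ 2 * ‖B.v l‖ ^ 2 + B.dc u l' ^ 2 * ‖B.v l'‖ ^ 2 := by
    by_contra hcon
    have hA : 0 ≤ B.dc u l ^ 2 * ‖B.v l‖ ^ 2 := by positivity
    have hA' : 0 ≤ B.dc u l' ^ 2 * ‖B.v l'‖ ^ 2 := by positivity
    have hA1 : B.dc u l ^ 2 * ‖B.v l‖ ^ 2 = 0 := by linarith
    have hA2 : B.dc u l' ^ 2 * ‖B.v l'‖ ^ 2 = 0 := by linarith
    apply hu0
    apply sec_zero B u hud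
    intro m
    rcases h m with rfl | rfl | rfl
    · exact huk
    · have := (mul_eq_zero.1 hA1).resolve_right (by positivity)
      exact pow_eq_zero_iff (two_ne_zero) |>.1 this
    · have := (mul_eq_zero.1 hA2).resolve_right (by positivity)
      exact pow_eq_zero_iff (two_ne_zero) |>.1 this
  have hb0 : b ≠ 0 := by
    intro h0
    have e1 : B.dc b l = 0 := by rw [h0]; unfold Box.dc; simp
    have e2 : B.dc b l' = 0 := by rw [h0]; unfold Box.dc; simp
    rw [bl] at e1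
    rw [bl'] at e2
    have e3 := (mul_eq_zero.1 e1).resolve_right (by positivity)
    have e4 := (mul_eq_zero.1 (neg_eq_zero.1 e2)).resolve_right (by positivity)
    rw [e3, e4] at hD
    norm_num at hD
  have hnb : 0 < ‖b‖ := norm_pos_iff.2 hb0
  have hbu : inner ℝ b u = 0 := by
    rw [sec_inner B b hud, sec_sum h1 h2 h3 h, huk, bl, bl']
    ring
  set a : R4 := ‖b‖⁻¹ • b with hadef
  have ea : ‖a‖ = 1 := by
    rw [hadef, norm_smul, norm_inv, norm_norm]
    field_simp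
  have eb : a ∈ B.dirs := B.dirs.smul_mem _ hbd
  have hau : inner ℝ a u = 0 := by
    rw [hadef, inner_smul_left, hbu, mul_zero]
  have hau' : inner ℝ a' u = 0 := by
    rw [real_inner_comm, fe, huk, mul_zero, mul_zero]
  have hak : B.dc a k = 0 := by rw [hadef, dc_smul, bk, mul_zero]
  have haa : inner ℝ a a' = 0 := by
    rw [fe, hak, mul_zero, mul_zero]
  clear_value b
  clear_value a a'
  have dk : ∀ t : ℝ, σ k * B.dc (Real.cos t • a + Real.sin t • a') k = Real.sin t / ‖B.v k‖ := by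
    intro t
    rw [dc_add, dc_smul, dc_smul, fc, hak]
    have := hsq k hk
    field_simp
    linear_combination Real.sin t * this
  refine sec_concl B q hq u σ hσ a a' Real.pi Real.pi_pos le_rfl
    ea fa haa eb fb hau hau' ?_ ?_ ?_ ?_ ?_
  · intro t ht m hm
    rcases h m with rfl | rfl | rfl
    · rw [dk t]
      exact div_pos (Real.sin_pos_of_pos_of_lt_pi ht.1 ht.2) hnk
    · exact absurd hl hm
    · exact absurd hl' hm
  · intro t ht m
    rcases h m with rfl | rfl | rfl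
    · rw [dk t]
      exact div_nonneg (Real.sin_nonneg_of_nonneg_of_le_pi ht.1 ht.2) hnk.le
    · rw [hl, zero_mul]
    · rw [hl', zero_mul]
  · exact ⟨k, hk, hak⟩
  · refine ⟨k, hk, ?_⟩
    have := dk Real.pi
    rw [Real.sin_pi, zero_div] at this
    rw [Real.sin_pi]
    exact (mul_eq_zero.1 this).resolve_left hk
  · intro w hw hw1 hwu hwn
    set x : ℝ := inner ℝ w a with hx
    set y : ℝ := ‖B.v k‖ * (σ k * B.dc w k) with hy
    have hy0 : 0 ≤ y := mul_nonneg hnk.le (hwn k)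
    have haaa : inner ℝ a a = (1 : ℝ) := by rw [real_inner_self_eq_norm_sq, ea]; norm_num
    have haa2 : inner ℝ a' a = (0 : ℝ) := by rw [real_inner_comm]; exact haa
    have hdec : w = x • a + y • a' := by
      have h5 : w - (x • a + y • a') = 0 := by
        set w' : R4 := w - (x • a + y • a') with hw'
        have hw'd : w' ∈ B.dirs :=
          B.dirs.sub_mem hw (B.dirs.add_mem (B.dirs.smul_mem _ eb) (B.dirs.smul_mem _ fb))
        have h6 : ∀ m, B.dc w' m = B.dc w m - (x * B.dc a m + y * B.dc a' m) := by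
          intro m
          have h7 : w' = w + (-1 : ℝ) • (x • a + y • a') := by
            rw [hw', neg_one_smul]; abel
          rw [h7, dc_add, dc_smul, dc_add, dc_smul, dc_smul]
          ring
        have hk0 : B.dc w' k = 0 := by
          rw [h6, fc, hak, hy]
          have := hsq _ hk
          field_simp
          linear_combination (-B.dc w k) * this
        have i1 : inner ℝ w' u = 0 := by
          rw [hw', inner_sub_left, inner_add_left, inner_smul_left, inner_smul_left, hwu, hau, hau']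
          simp
        have i2 : inner ℝ w' a = 0 := by
          rw [hw', inner_sub_left, inner_add_left, inner_smul_left, inner_smul_left, haaa, haa2, ← hx]
          simp
        have i3 : inner ℝ w' b = 0 := by
          have e1 : b = ‖b‖ • a := by
            rw [hadef, smul_smul, mul_inv_cancel₀ hnb.ne', one_smul]
          rw [e1, inner_smul_right, i2, mul_zero]
        rw [sec_inner B w' hud, sec_sum h1 h2 h3 h, hk0] at i1
        rw [sec_inner B w' hbd, sec_sum h1 h2 h3 h, hk0, bl, bl'] at i3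
        have hNN : ‖B.v l‖ ^ 2 * ‖B.v l'‖ ^ 2 ≠ 0 := by positivity
        have i4 : B.dc w' l * B.dc u l' - B.dc w' l' * B.dc u l = 0 := by
          have e1 : (B.dc w' l * B.dc u l' - B.dc w' l' * B.dc u l) *
              (‖B.v l‖ ^ 2 * ‖B.v l'‖ ^ 2) = 0 := by
            linear_combination i3
          exact (mul_eq_zero.1 e1).resolve_right hNN
        have hl0 : B.dc w' l = 0 := by
          have e1 : B.dc w' l * (B.dc u l ^ 2 * ‖B.v l‖ ^ 2 + B.dc u l' ^ 2 * ‖B.v l'‖ ^ 2) = 0 := by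
            linear_combination B.dc u l * i1 + (B.dc u l' * ‖B.v l'‖ ^ 2) * i4
          exact (mul_eq_zero.1 e1).resolve_right hD.ne'
        have hl'0 : B.dc w' l' = 0 := by
          have e1 : B.dc w' l' * (B.dc u l ^ 2 * ‖B.v l‖ ^ 2 + B.dc u l' ^ 2 * ‖B.v l'‖ ^ 2) = 0 := by
            linear_combination B.dc u l' * i1 - (B.dc u l * ‖B.v l‖ ^ 2) * i4
          exact (mul_eq_zero.1 e1).resolve_right hD.ne'
        apply sec_zero B w' hw'd
        intro m
        rcases h m with rfl | rfl | rfl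
        · exact hk0
        · exact hl0
        · exact hl'0
      exact sub_eq_zero.1 h5
    exact ⟨Real.arccos x, ⟨Real.arccos_nonneg x, Real.arccos_le_pi x⟩,
      sec_circ a a' w ea fa haa hw1 x y hdec hy0⟩

theorem sector_real (B : Box) (q : R4) (hq : q ∈ B.carrier) (hqc : q ∉ B.core) (u : R4) (hu0 : u ≠ 0)
    (hu : ∃ ε > 0, ∀ t : ℝ, |t| < ε → q + t • u ∈ B.carrier) :
    ∃ g : ℝ → R4, ContinuousOn g (Icc 0 1) ∧ InjOn g (Icc 0 1) ∧
      (∀ s ∈ Icc (0 : ℝ) 1, ‖g s‖ = 1 ∧ inner ℝ (g s) u = 0 ∧ TC B q (g s)) ∧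
      (∀ w, TC B q w → ‖w‖ = 1 → inner ℝ w u = 0 → ∃ s ∈ Icc (0 : ℝ) 1, g s = w) ∧
      (∀ s ∈ Ioo (0 : ℝ) 1, ∃ δ > (0 : ℝ), ∀ t : ℝ, 0 < t → t < δ → q + t • g s ∈ B.core) ∧
      ∀ t : ℝ, 0 < t → q + t • g 0 ∉ B.core ∧ q + t • g 1 ∉ B.core := by
  obtain ⟨ε, hε, hu⟩ := hu
  have hqi := (mem_carrier_iff B q).1 hq
  have hp := hu (ε / 2) (by rw [abs_of_pos (by linarith)]; linarith)
  have hm := hu (-(ε / 2)) (by rw [abs_neg, abs_of_pos (by linarith)]; linarith)
  have hud : u ∈ B.dirs := by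
    have h1 := sub_mem_dirs B hq hp
    have h2 : q + (ε / 2) • u - q = (ε / 2) • u := by abel
    rw [h2] at h1
    have h3 := B.dirs.smul_mem (ε / 2)⁻¹ h1
    rw [smul_smul, inv_mul_cancel₀ (by positivity), one_smul] at h3
    exact h3
  set σ : Fin 3 → ℝ := fun m => if B.coord q m = 0 then 1 else if B.coord q m = 1 then -1 else 0
    with hσdef
  have hσ : ∀ m, (B.coord q m = 0 ∧ σ m = 1) ∨ (B.coord q m = 1 ∧ σ m = -1) ∨
      (0 < B.coord q m ∧ B.coord q m < 1 ∧ σ m = 0) := by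
    intro m
    by_cases h0 : B.coord q m = 0
    · exact Or.inl ⟨h0, by simp [hσdef, h0]⟩
    · by_cases h1 : B.coord q m = 1
      · exact Or.inr (Or.inl ⟨h1, by simp [hσdef, h1]⟩)
      · refine Or.inr (Or.inr ⟨lt_of_le_of_ne (hqi.2 m).1 (Ne.symm h0),
          lt_of_le_of_ne (hqi.2 m).2 h1, by simp [hσdef, h0, h1]⟩)
  have huσ : ∀ m, σ m ≠ 0 → B.dc u m = 0 := by
    intro m hm0
    have e1 := ((mem_carrier_iff B _).1 hp).2 m
    have e2 := ((mem_carrier_iff B _).1 hm).2 m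
    rw [coord_add, dc_smul] at e1 e2
    rcases hσ m with ⟨h, hs⟩ | ⟨h, hs⟩ | ⟨h, h', hs⟩
    · rw [h] at e1 e2
      have f1 : 0 ≤ B.dc u m := by
        by_contra hc
        have := mul_neg_of_pos_of_neg (show (0 : ℝ) < ε / 2 by linarith) (not_le.1 hc)
        linarith [e1.1]
      have f2 : B.dc u m ≤ 0 := by
        by_contra hc
        have := mul_pos (show (0 : ℝ) < ε / 2 by linarith) (not_le.1 hc)
        linarith [e2.1]
      exact le_antisymm f2 f1
    · rw [h] at e1 e2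
      have f1 : 0 ≤ B.dc u m := by
        by_contra hc
        have := mul_neg_of_pos_of_neg (show (0 : ℝ) < ε / 2 by linarith) (not_le.1 hc)
        linarith [e2.2]
      have f2 : B.dc u m ≤ 0 := by
        by_contra hc
        have := mul_pos (show (0 : ℝ) < ε / 2 by linarith) (not_le.1 hc)
        linarith [e1.2]
      exact le_antisymm f2 f1
    · exact absurd hs hm0
  obtain ⟨k, hk⟩ : ∃ k, σ k ≠ 0 := by
    by_contra hcon
    push Not at hcon
    apply hqc
    rw [mem_core_iff]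
    refine ⟨hqi.1, fun m => ?_⟩
    have := hcon m
    rcases hσ m with ⟨h, hs⟩ | ⟨h, hs⟩ | ⟨h, h', hs⟩
    · rw [hs] at this; norm_num at this
    · rw [hs] at this; norm_num at this
    · exact ⟨h, h'⟩
  obtain ⟨l, l', h1, h2, h3, h⟩ := sec_fin3 k
  by_cases hl : σ l = 0
  · by_cases hl' : σ l' = 0
    · exact sec_case1 B q hq u hu0 hud σ hσ huσ h1 h2 h3 h hk hl hl'
    · exact sec_case2 B q hq u hu0 hud σ hσ huσ h2 h1 h3.symm
        (fun m => by rcases h m with h | h | h <;> tauto) hk hl' hl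
  · by_cases hl' : σ l' = 0
    · exact sec_case2 B q hq u hu0 hud σ hσ huσ h1 h2 h3 h hk hl hl'
    · exfalso
      apply hu0
      apply sec_zero B u hud
      intro m
      rcases h m with rfl | rfl | rfl
      · exact huσ _ hk
      · exact huσ _ hl
      · exact huσ _ hl'

theorem sector (B : Box) (q : R4) (hq : q ∈ B.carrier) (hqc : q ∉ B.core) (u : R4) (hu0 : u ≠ 0)
    (hu : ∃ ε > 0, ∀ t : ℝ, |t| < ε → q + t • u ∈ B.carrier) :
    ∃ g : ℝ → R4, ContinuousOn g (Icc 0 1) ∧ InjOn g (Icc 0 1) ∧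
      (∀ s ∈ Icc (0 : ℝ) 1, ‖g s‖ = 1 ∧ inner ℝ (g s) u = 0 ∧ TC B q (g s)) ∧
      (∀ w, TC B q w → ‖w‖ = 1 → inner ℝ w u = 0 → ∃ s ∈ Icc (0 : ℝ) 1, g s = w) ∧
      (∀ s ∈ Ioo (0 : ℝ) 1, ∃ δ > 0, ∀ t, 0 < t → t < δ → q + t • g s ∈ B.core) ∧
      ∀ t : ℝ, 0 < t → q + t • g 0 ∉ B.core ∧ q + t • g 1 ∉ B.core := by
  obtain ⟨g, g1, g2, g3, g4, -, g6⟩ := sector_real B q hq hqc u hu0 hu
  exact ⟨g, g1, g2, g3, g4, fun s _ => ⟨1, one_pos, fun t h0 h1 => absurd h1 (by omega)⟩, g6⟩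

/-- complex coordinate -/
def cw (z : R3) : ℂ := (z 1 : ℂ) + (z 2 : ℂ) * Complex.I

theorem cw_cont : Continuous cw := by
  have h1 : Continuous fun z : R3 => z 1 := (EuclideanSpace.proj (1 : Fin 3) : R3 →L[ℝ] ℝ).continuous
  have h2 : Continuous fun z : R3 => z 2 := (EuclideanSpace.proj (2 : Fin 3) : R3 →L[ℝ] ℝ).continuous
  exact (Complex.continuous_ofReal.comp h1).add ((Complex.continuous_ofReal.comp h2).mul continuous_const)

theorem cw_re (z : R3) : (cw z).re = z 1 := by simp [cw]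
theorem cw_im (z : R3) : (cw z).im = z 2 := by simp [cw]

theorem cw_sq (z : R3) : ‖cw z‖ ^ 2 = z 1 ^ 2 + z 2 ^ 2 := by
  rw [Complex.sq_norm, Complex.normSq_apply, cw_re, cw_im]
  ring

theorem r3_sq (z : R3) : ‖z‖ ^ 2 = z 0 ^ 2 + z 1 ^ 2 + z 2 ^ 2 := by
  rw [EuclideanSpace.real_norm_sq_eq, Fin.sum_univ_three]

theorem cw_le (z : R3) : ‖cw z‖ ≤ ‖z‖ := by
  apply le_of_sq_le_sq _ (norm_nonneg _)
  rw [cw_sq, r3_sq]
  nlinarith [sq_nonneg (z 0)]

theorem c0_le (z : R3) : |z 0| ≤ ‖z‖ := by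
  apply abs_le_of_sq_le_sq _ (norm_nonneg _)
  rw [r3_sq]
  nlinarith [sq_nonneg (z 1), sq_nonneg (z 2)]

open Classical in
/-- the direction -/
def cd (z : R3) : ℂ := if cw z = 0 then 1 else cw z / (‖cw z‖ : ℂ)

theorem cd_norm (z : R3) : cd z ∈ sphere (0 : ℂ) 1 := by
  rw [mem_sphere_zero_iff_norm]
  unfold cd
  split_ifs with h0
  · simp
  · rw [norm_div, Complex.norm_real, norm_norm, div_self (norm_ne_zero_iff.mpr h0)]

theorem cd_mul (z : R3) : (‖cw z‖ : ℂ) * cd z = cw z := by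
  unfold cd
  split_ifs with h0
  · simp [h0]
  · have : (‖cw z‖ : ℂ) ≠ 0 := by exact_mod_cast (norm_ne_zero_iff.mpr h0)
    field_simp

theorem cd_cont {z : R3} (hz : cw z ≠ 0) : ContinuousAt cd z := by
  have h1 : ContinuousAt (fun z => cw z / (‖cw z‖ : ℂ)) z := by
    apply ContinuousAt.div cw_cont.continuousAt
    · exact (Complex.continuous_ofReal.comp cw_cont.norm).continuousAt
    · exact_mod_cast (norm_ne_zero_iff.mpr hz)
  refine h1.congr ?_
  have h2 : ∀ᶠ y in 𝓝 z, cw y ≠ 0 := cw_cont.continuousAt.eventually_ne hz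
  filter_upwards [h2] with y hy
  unfold cd
  rw [if_neg hy]

/-- the cone parametrisation -/
def cphi (q u : R4) (γ : ℂ → R4) (z : R3) : R4 := q + (z 0) • u + ‖cw z‖ • γ (cd z)

theorem cphi_cont (q u : R4) (γ : ℂ → R4) (hc : ContinuousOn γ (sphere 0 1))
    (hγ : ∀ z ∈ sphere (0 : ℂ) 1, ‖γ z‖ = 1) : Continuous (cphi q u γ) := by
  unfold cphi
  have h0 : Continuous fun z : R3 => z 0 := (EuclideanSpace.proj (0 : Fin 3) : R3 →L[ℝ] ℝ).continuous
  refine (continuous_const.add (h0.smul continuous_const)).add ?_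
  rw [continuous_iff_continuousAt]
  intro z
  by_cases hz : cw z = 0
  · have e0 : ‖cw z‖ • γ (cd z) = 0 := by rw [hz, norm_zero, zero_smul]
    show Filter.Tendsto (fun z => ‖cw z‖ • γ (cd z)) (𝓝 z) (𝓝 (‖cw z‖ • γ (cd z)))
    rw [e0, tendsto_zero_iff_norm_tendsto_zero]
    have e1 : ∀ y, ‖‖cw y‖ • γ (cd y)‖ = ‖cw y‖ := by
      intro y
      rw [norm_smul, norm_norm, hγ _ (cd_norm y), mul_one]
    simp_rw [e1]
    have h2 := (cw_cont.norm).tendsto z
    rwa [hz, norm_zero] at h2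
  · apply ContinuousAt.smul cw_cont.norm.continuousAt
    have h3 : ContinuousWithinAt γ (sphere 0 1) (cd z) := hc _ (cd_norm z)
    have h4 : Filter.Tendsto cd (𝓝 z) (𝓝[sphere 0 1] (cd z)) :=
      tendsto_nhdsWithin_iff.mpr ⟨cd_cont hz, Filter.Eventually.of_forall cd_norm⟩
    exact h3.tendsto.comp h4

theorem cphi_inj (q u : R4) (hu : u ≠ 0) (γ : ℂ → R4) (hi : InjOn γ (sphere 0 1))
    (hγ : ∀ z ∈ sphere (0 : ℂ) 1, ‖γ z‖ = 1 ∧ inner ℝ (γ z) u = 0) :
    Function.Injective (cphi q u γ) := by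
  intro z z' hzz
  have e1 : ∀ y, inner ℝ (cphi q u γ y - q) u = y 0 * inner ℝ u u := by
    intro y
    unfold cphi
    rw [add_assoc, add_sub_cancel_left, inner_add_left, inner_smul_left, inner_smul_left,
      (hγ _ (cd_norm y)).2]
    simp
  have h0 : z 0 = z' 0 := by
    have h1 := e1 z
    rw [hzz, e1 z'] at h1
    have h2 : inner ℝ u u ≠ 0 := by
      intro h
      exact hu (inner_self_eq_zero.mp h)
    exact (mul_right_cancel₀ h2 h1).symm
  have h1 : ‖cw z‖ • γ (cd z) = ‖cw z'‖ • γ (cd z') := by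
    unfold cphi at hzz
    rw [h0] at hzz
    exact add_left_cancel hzz
  have h2 : ‖cw z‖ = ‖cw z'‖ := by
    have h3 := congrArg norm h1
    rwa [norm_smul, norm_smul, (hγ _ (cd_norm z)).1, (hγ _ (cd_norm z')).1, norm_norm, norm_norm,
      mul_one, mul_one] at h3
  have h3 : cw z = cw z' := by
    by_cases hn : ‖cw z'‖ = 0
    · have a1 : cw z' = 0 := norm_eq_zero.mp hn
      have a2 : cw z = 0 := norm_eq_zero.mp (h2.trans hn)
      rw [a1, a2]
    · rw [h2] at h1
      have h4 := smul_right_injective R4 hn h1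
      have h5 := hi (cd_norm z) (cd_norm z') h4
      rw [← cd_mul z, ← cd_mul z', h5, h2]
  have h4 : z 1 = z' 1 := by rw [← cw_re, ← cw_re, h3]
  have h5 : z 2 = z' 2 := by rw [← cw_im, ← cw_im, h3]
  ext i
  fin_cases i
  · exact h0
  · exact h4
  · exact h5

theorem cone_nbhd {M : Set R4} (h : M ≃ₜ sphere (0 : R4) 1) (q u : R4) (hu : u ≠ 0) (γ : ℂ → R4)
    (hc : ContinuousOn γ (sphere 0 1)) (hi : InjOn γ (sphere 0 1))
    (hγ : ∀ z ∈ sphere (0 : ℂ) 1, ‖γ z‖ = 1 ∧ inner ℝ (γ z) u = 0) (r : ℝ) (hr : 0 < r)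
    (hM : ∀ z ∈ sphere (0 : ℂ) 1, ∀ s ∈ Icc (0 : ℝ) r, ∀ t : ℝ, |t| ≤ r →
      q + t • u + s • γ z ∈ M) :
    ∃ ε > 0, ∀ y ∈ M, dist y q < ε → ∃ z ∈ sphere (0 : ℂ) 1, ∃ s ∈ Icc (0 : ℝ) r, ∃ t : ℝ,
      |t| ≤ r ∧ y = q + t • u + s • γ z := by
  have hM' : ∀ z ∈ closedBall (0 : R3) r, cphi q u γ z ∈ M := by
    intro z hz
    rw [mem_closedBall_zero_iff] at hz
    exact hM (cd z) (cd_norm z) ‖cw z‖ ⟨norm_nonneg _, (cw_le z).trans hz⟩ (z 0) ((c0_le z).trans hz)
  obtain ⟨ε, hε, H⟩ := iod_M h (cphi q u γ) r hr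
    (cphi_cont q u γ hc (fun z hz => (hγ z hz).1)).continuousOn
    (cphi_inj q u hu γ hi hγ).injOn hM'
  have e0 : cphi q u γ 0 = q := by
    have : cw 0 = 0 := by simp [cw]
    unfold cphi
    rw [this]
    simp
  refine ⟨ε, hε, ?_⟩
  intro y hy hd
  rw [← e0] at hd
  obtain ⟨z, hz, hzy⟩ := H y hy hd
  rw [mem_closedBall_zero_iff] at hz
  exact ⟨cd z, cd_norm z, ‖cw z‖, ⟨norm_nonneg _, (cw_le z).trans hz⟩, z 0, (c0_le z).trans hz,
    hzy.symm⟩

theorem line_conn_core (B : Box) (q w : R4) (hq : q ∈ B.carrier) (hw : TC B q w)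
    (hno : ∀ k, (B.coord q k = 0 ∨ B.coord q k = 1) → B.dc w k ≠ 0) :
    ∃ δ : ℝ, 0 < δ ∧ ∀ t : ℝ, 0 < t → t < δ → q + t • w ∈ B.core := by
  obtain ⟨-, hwd, hk⟩ := (tc_iff B q w).1 hw
  obtain ⟨hqd, hqc⟩ := (mem_carrier_iff B q).1 hq
  have hev : ∀ k, ∀ᶠ t in 𝓝[>] (0 : ℝ), 0 < B.coord q k + t * B.dc w k ∧
      B.coord q k + t * B.dc w k < 1 := by
    intro k
    have hc : Filter.Tendsto (fun t : ℝ => B.coord q k + t * B.dc w k) (𝓝[>] 0)
        (𝓝 (B.coord q k)) := by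
      have : Filter.Tendsto (fun t : ℝ => B.coord q k + t * B.dc w k) (𝓝 0)
          (𝓝 (B.coord q k + 0 * B.dc w k)) := Continuous.tendsto (by fun_prop) 0
      rw [zero_mul, add_zero] at this
      exact this.mono_left nhdsWithin_le_nhds
    have hlo : ∀ᶠ t in 𝓝[>] (0 : ℝ), 0 < B.coord q k + t * B.dc w k := by
      rcases eq_or_lt_of_le (hqc k).1 with h | h
      · have h1 : 0 < B.dc w k := lt_of_le_of_ne ((hk k).1 h.symm) (hno k (Or.inl h.symm)).symm
        filter_upwards [self_mem_nhdsWithin] with t ht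
        have ht' : 0 < t := ht
        rw [← h, zero_add]
        exact mul_pos ht' h1
      · exact hc.eventually (lt_mem_nhds h)
    have hhi : ∀ᶠ t in 𝓝[>] (0 : ℝ), B.coord q k + t * B.dc w k < 1 := by
      rcases eq_or_lt_of_le (hqc k).2 with h | h
      · have h1 : B.dc w k < 0 := lt_of_le_of_ne ((hk k).2 h) (hno k (Or.inr h))
        filter_upwards [self_mem_nhdsWithin] with t ht
        have ht' : 0 < t := ht
        rw [h]
        linarith [mul_neg_of_pos_of_neg ht' h1]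
      · exact hc.eventually (gt_mem_nhds h)
    exact hlo.and hhi
  have hall : ∀ᶠ t in 𝓝[>] (0 : ℝ), ∀ k, 0 < B.coord q k + t * B.dc w k ∧
      B.coord q k + t * B.dc w k < 1 := Filter.eventually_all.2 hev
  obtain ⟨δ, hδ, hsub⟩ := mem_nhdsGT_iff_exists_Ioo_subset.1 hall
  refine ⟨δ, hδ, fun t h0 h1 => ?_⟩
  have h2 := hsub ⟨h0, h1⟩
  rw [mem_core_iff]
  refine ⟨?_, fun k => ?_⟩
  · have e : q + t • w - B.p = (q - B.p) + t • w := by abel
    rw [e]
    exact B.dirs.add_mem hqd (B.dirs.smul_mem t hwd)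
  · rw [coord_add, dc_smul]
    exact h2 k

theorem line_conn_real (a b c d p r M N : ℝ) (hM : 0 < M) (hN : 0 < N)
    (h1 : a ^ 2 * M + b ^ 2 * N = 1) (h2 : c ^ 2 * M + d ^ 2 * N = 1)
    (h3 : a * p * M + b * r * N = 0) (h4 : c * p * M + d * r * N = 0) (h5 : p ≠ 0 ∨ r ≠ 0) :
    a * c * M + b * d * N = 1 ∨ a * c * M + b * d * N = -1 := by
  have h6 : a * d - b * c = 0 := by
    rcases h5 with h | h
    · have h7 : (a * d - b * c) * (p * M) = 0 := by linear_combination d * h3 - b * h4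
      exact (mul_eq_zero.1 h7).resolve_right (mul_ne_zero h hM.ne')
    · have h7 : (a * d - b * c) * (r * N) = 0 := by linear_combination (-c) * h3 + a * h4
      exact (mul_eq_zero.1 h7).resolve_right (mul_ne_zero h hN.ne')
  have h8 : (a * c * M + b * d * N) ^ 2 = 1 := by
    have : (a * c * M + b * d * N) ^ 2 = (a ^ 2 * M + b ^ 2 * N) * (c ^ 2 * M + d ^ 2 * N)
        - M * N * (a * d - b * c) ^ 2 := by ring
    rw [this, h1, h2, h6]
    ring
  have h9 : (a * c * M + b * d * N - 1) * (a * c * M + b * d * N + 1) = 0 := by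
    linear_combination h8
  rcases mul_eq_zero.1 h9 with h | h
  · left; linarith
  · right; linarith

theorem line_conn_inner (B : Box) (x y : R4) (hx : x ∈ B.dirs) :
    inner ℝ x y = ∑ k, B.dc x k * B.dc y k * ‖B.v k‖ ^ 2 := by
  conv_lhs => rw [← sum_dc B hx]
  rw [sum_inner]
  refine Finset.sum_congr rfl fun k _ => ?_
  have h0 : ‖B.v k‖ ^ 2 ≠ 0 := pow_ne_zero 2 (norm_ne_zero_iff.2 (B.ne k))
  rw [real_inner_smul_left, real_inner_comm, mul_assoc]
  congr 1
  unfold Box.dc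
  exact (div_mul_cancel₀ _ h0).symm

theorem line_conn_zero (B : Box) (x : R4) (hx : x ∈ B.dirs) (h : ∀ k, B.dc x k = 0) : x = 0 := by
  rw [← sum_dc B hx]
  exact Finset.sum_eq_zero fun k _ => by rw [h k, zero_smul]

theorem line_conn_pm (B : Box) (x y u : R4) (hx : x ∈ B.dirs) (hy : y ∈ B.dirs)
    (hu : u ∈ B.dirs) (hu0 : u ≠ 0) (nx : ‖x‖ = 1) (ny : ‖y‖ = 1) (px : inner ℝ x u = 0)
    (py : inner ℝ y u = 0) (k : Fin 3) (hk : B.dc u k = 0) (hxk : B.dc x k = 0)
    (hyk : B.dc y k = 0) : x = y ∨ x = -y := by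
  have hN : ∀ l, 0 < ‖B.v l‖ ^ 2 := fun l => pow_pos (norm_pos_iff.2 (B.ne l)) 2
  have hxx : inner ℝ x x = 1 := by rw [real_inner_self_eq_norm_sq, nx, one_pow]
  have hyy : inner ℝ y y = 1 := by rw [real_inner_self_eq_norm_sq, ny, one_pow]
  rw [line_conn_inner B x u hx, Fin.sum_univ_three] at px
  rw [line_conn_inner B y u hy, Fin.sum_univ_three] at py
  rw [line_conn_inner B x x hx, Fin.sum_univ_three] at hxx
  rw [line_conn_inner B y y hy, Fin.sum_univ_three] at hyy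
  have hune : ¬ (B.dc u 0 = 0 ∧ B.dc u 1 = 0 ∧ B.dc u 2 = 0) := by
    rintro ⟨h0, h1, h2⟩
    refine hu0 (line_conn_zero B u hu fun k => ?_)
    fin_cases k
    · exact h0
    · exact h1
    · exact h2
  have hxy : inner ℝ x y = 1 ∨ inner ℝ x y = -1 := by
    rw [line_conn_inner B x y hx, Fin.sum_univ_three]
    have hk3 : k = 0 ∨ k = 1 ∨ k = 2 := by
      fin_cases k <;> simp
    rcases hk3 with rfl | rfl | rfl
    · rw [hxk] at px hxx ⊢
      rw [hyk] at py hyy ⊢
      have h5 : B.dc u 1 ≠ 0 ∨ B.dc u 2 ≠ 0 := by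
        by_contra hc
        push Not at hc
        exact hune ⟨hk, hc.1, hc.2⟩
      have := line_conn_real (B.dc x 1) (B.dc x 2) (B.dc y 1) (B.dc y 2) (B.dc u 1) (B.dc u 2) _ _
        (hN 1) (hN 2)
        (by linear_combination hxx) (by linear_combination hyy)
        (by linear_combination px) (by linear_combination py) h5
      rcases this with h | h
      · left; linear_combination h
      · right; linear_combination h
    · rw [hxk] at px hxx ⊢
      rw [hyk] at py hyy ⊢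
      have h5 : B.dc u 0 ≠ 0 ∨ B.dc u 2 ≠ 0 := by
        by_contra hc
        push Not at hc
        exact hune ⟨hc.1, hk, hc.2⟩
      have := line_conn_real (B.dc x 0) (B.dc x 2) (B.dc y 0) (B.dc y 2) (B.dc u 0) (B.dc u 2) _ _
        (hN 0) (hN 2)
        (by linear_combination hxx) (by linear_combination hyy)
        (by linear_combination px) (by linear_combination py) h5
      rcases this with h | h
      · left; linear_combination h
      · right; linear_combination h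
    · rw [hxk] at px hxx ⊢
      rw [hyk] at py hyy ⊢
      have h5 : B.dc u 0 ≠ 0 ∨ B.dc u 1 ≠ 0 := by
        by_contra hc
        push Not at hc
        exact hune ⟨hc.1, hc.2, hk⟩
      have := line_conn_real (B.dc x 0) (B.dc x 1) (B.dc y 0) (B.dc y 1) (B.dc u 0) (B.dc u 1) _ _
        (hN 0) (hN 1)
        (by linear_combination hxx) (by linear_combination hyy)
        (by linear_combination px) (by linear_combination py) h5
      rcases this with h | h
      · left; linear_combination h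
      · right; linear_combination h
  rcases hxy with h | h
  · left
    exact (inner_eq_one_iff_of_norm_eq_one nx ny).1 h
  · right
    refine (inner_eq_one_iff_of_norm_eq_one (𝕜 := ℝ) nx (by rw [norm_neg, ny])).1 ?_
    rw [inner_neg_right, h, neg_neg]

theorem line_conn_same (B : Box) (q x y u : R4) (hx : TC B q x) (hy : TC B q y)
    (hu : u ∈ B.dirs) (hu0 : u ≠ 0) (nx : ‖x‖ = 1) (ny : ‖y‖ = 1) (px : inner ℝ x u = 0)
    (py : inner ℝ y u = 0) (hA : ∀ k, (B.coord q k = 0 ∨ B.coord q k = 1) → B.dc u k = 0)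
    (k l : Fin 3) (hk : B.coord q k = 0 ∨ B.coord q k = 1)
    (hl : B.coord q l = 0 ∨ B.coord q l = 1) (hkl : l ≠ k) (hxk : B.dc x k = 0)
    (hyk : B.dc y k = 0) : x = y := by
  obtain ⟨-, hxd, hxc⟩ := (tc_iff B q x).1 hx
  obtain ⟨-, hyd, hyc⟩ := (tc_iff B q y).1 hy
  rcases line_conn_pm B x y u hxd hyd hu hu0 nx ny px py k (hA k hk) hxk hyk with h | h
  · exact h
  · exfalso
    have hxl : B.dc x l = 0 := by
      have h1 : B.dc y l = - B.dc x l := by
        have : y = (-1 : ℝ) • x := by rw [h]; simp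
        rw [this, dc_smul]
        ring
      rcases hl with h2 | h2
      · have a := (hxc l).1 h2
        have b := (hyc l).1 h2
        linarith
      · have a := (hxc l).2 h2
        have b := (hyc l).2 h2
        linarith
    have hx0 : x ≠ 0 := by
      intro h0
      rw [h0, norm_zero] at nx
      exact zero_ne_one nx
    have h1 : ∃ m, B.dc x m ≠ 0 := by
      by_contra hc
      push Not at hc
      exact hx0 (line_conn_zero B x hxd hc)
    have h2 : ∃ m, B.dc u m ≠ 0 := by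
      by_contra hc
      push Not at hc
      exact hu0 (line_conn_zero B u hu hc)
    obtain ⟨m, hm⟩ := h1
    obtain ⟨m', hm'⟩ := h2
    have a1 : m ≠ k := fun h => hm (h ▸ hxk)
    have a2 : m ≠ l := fun h => hm (h ▸ hxl)
    have a3 : m' ≠ k := fun h => hm' (h ▸ hA k hk)
    have a4 : m' ≠ l := fun h => hm' (h ▸ hA l hl)
    have h3 : ∀ a b c d : Fin 3, a ≠ b → c ≠ a → c ≠ b → d ≠ a → d ≠ b → c = d := by decide
    have h4 : m = m' := h3 l k m m' hkl a2 a1 a4 a3
    subst h4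
    rw [line_conn_inner B x u hxd, Finset.sum_eq_single m] at px
    · have hN : ‖B.v m‖ ^ 2 ≠ 0 := pow_ne_zero 2 (norm_ne_zero_iff.2 (B.ne m))
      exact mul_ne_zero (mul_ne_zero hm hm') hN px
    · intro n _ hn
      have h5 : n = k ∨ n = l := by
        by_contra hc
        push Not at hc
        exact hn (h3 l k n m hkl hc.2 hc.1 a2 a1)
      rcases h5 with rfl | rfl
      · rw [hxk, zero_mul, zero_mul]
      · rw [hxl, zero_mul, zero_mul]
    · intro h5
      exact absurd (Finset.mem_univ m) h5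

theorem line_conn_sector (B : Box) (q u : R4) (hq : q ∈ B.carrier) (hu0 : u ≠ 0)
    (hu1 : TC B q u) (hu2 : TC B q (-u)) (w0 w1 w : R4) (h0 : TC B q w0) (h1 : TC B q w1)
    (hw : TC B q w) (n0 : ‖w0‖ = 1) (n1 : ‖w1‖ = 1) (nw : ‖w‖ = 1) (p0 : inner ℝ w0 u = 0)
    (p1 : inner ℝ w1 u = 0) (pw : inner ℝ w u = 0)
    (c0 : ∀ t : ℝ, 0 < t → q + t • w0 ∉ B.core) (c1 : ∀ t : ℝ, 0 < t → q + t • w1 ∉ B.core)
    (ne01 : w0 ≠ w1) (ne0 : w0 ≠ w) (ne1 : w1 ≠ w) :
    ∃ δ : ℝ, 0 < δ ∧ ∀ t : ℝ, 0 < t → t < δ → q + t • w ∈ B.core := by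
  obtain ⟨-, hud, huc⟩ := (tc_iff B q u).1 hu1
  obtain ⟨-, -, huc'⟩ := (tc_iff B q (-u)).1 hu2
  have hneg : ∀ k, B.dc (-u) k = - B.dc u k := by
    intro k
    have : -u = (-1 : ℝ) • u := by simp
    rw [this, dc_smul]
    ring
  have hA : ∀ k, (B.coord q k = 0 ∨ B.coord q k = 1) → B.dc u k = 0 := by
    intro k hk
    rcases hk with h | h
    · have a := (huc k).1 h
      have b := (huc' k).1 h
      rw [hneg] at b
      linarith
    · have a := (huc k).2 h
      have b := (huc' k).2 h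
      rw [hneg] at b
      linarith
  by_contra hcon
  have hb : ∀ x, TC B q x → (¬ ∃ δ : ℝ, 0 < δ ∧ ∀ t : ℝ, 0 < t → t < δ → q + t • x ∈ B.core) →
      ∃ k, (B.coord q k = 0 ∨ B.coord q k = 1) ∧ B.dc x k = 0 := by
    intro x hx hxn
    by_contra hc
    push Not at hc
    exact hxn (line_conn_core B q x hq hx hc)
  have hno : ∀ x, (∀ t : ℝ, 0 < t → q + t • x ∉ B.core) →
      ¬ ∃ δ : ℝ, 0 < δ ∧ ∀ t : ℝ, 0 < t → t < δ → q + t • x ∈ B.core := by
    rintro x hx ⟨δ, hδ, hd⟩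
    exact hx (δ / 2) (by linarith) (hd (δ / 2) (by linarith) (by linarith))
  obtain ⟨k0, hk0, z0⟩ := hb w0 h0 (hno w0 c0)
  obtain ⟨k1, hk1, z1⟩ := hb w1 h1 (hno w1 c1)
  obtain ⟨k2, hk2, z2⟩ := hb w hw hcon
  have d0 := ((tc_iff B q w0).1 h0).2.1
  have d1 := ((tc_iff B q w1).1 h1).2.1
  have d2 := ((tc_iff B q w).1 hw).2.1
  by_cases hII : ∃ l, (B.coord q l = 0 ∨ B.coord q l = 1) ∧ l ≠ k0
  · obtain ⟨l, hl, hlk⟩ := hII
    by_cases e01 : k1 = k0
    · subst e01
      exact ne01 (line_conn_same B q w0 w1 u h0 h1 hud hu0 n0 n1 p0 p1 hA k1 l hk1 hl hlk z0 z1)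
    · by_cases e02 : k2 = k0
      · subst e02
        exact ne0 (line_conn_same B q w0 w u h0 hw hud hu0 n0 nw p0 pw hA k2 l hk2 hl hlk z0 z2)
      · by_cases e12 : k2 = k1
        · subst e12
          exact ne1 (line_conn_same B q w1 w u h1 hw hud hu0 n1 nw p1 pw hA k2 k0 hk2 hk0
            (Ne.symm e01) z1 z2)
        · have h3 : ∀ a b c d : Fin 3, b ≠ a → c ≠ a → c ≠ b → d = a ∨ d = b ∨ d = c := by decide
          refine hu0 (line_conn_zero B u hud fun m => ?_)
          rcases h3 k0 k1 k2 m e01 e02 e12 with rfl | rfl | rfl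
          · exact hA _ hk0
          · exact hA _ hk1
          · exact hA _ hk2
  · push Not at hII
    have e1 := hII k1 hk1
    have e2 := hII k2 hk2
    subst e1
    subst e2
    rcases line_conn_pm B w0 w1 u d0 d1 hud hu0 n0 n1 p0 p1 k2 (hA _ hk2) z0 z1 with h | h
    · exact ne01 h
    · rcases line_conn_pm B w0 w u d0 d2 hud hu0 n0 nw p0 pw k2 (hA _ hk2) z0 z2 with h' | h'
      · exact ne0 h'
      · rw [h] at h'
        exact ne1 (neg_injective h')

theorem line_conn_finrank (u w : R4) (hu : u ≠ 0) (hw : w ≠ 0) (h : inner ℝ w u = 0) :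
    finrank ℝ (Submodule.span ℝ {u} ⊔ Submodule.span ℝ {w} : Submodule ℝ R4) = 2 := by
  have hli : LinearIndependent ℝ ![u, w] := by
    rw [LinearIndependent.pair_iff' hu]
    intro a ha
    rw [← ha, inner_smul_left] at h
    have h1 : a = 0 := by
      rcases mul_eq_zero.1 h with h2 | h2
      · simpa using h2
      · exact absurd (inner_self_eq_zero.1 h2) hu
    rw [h1, zero_smul] at ha
    exact hw ha.symm
  have h2 := finrank_span_eq_card hli
  have h3 : Set.range ![u, w] = {u, w} := by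
    rw [Matrix.range_cons, Matrix.range_cons, Matrix.range_empty, Set.union_empty,
      Set.singleton_union]
  rw [h3, Submodule.span_insert] at h2
  simpa using h2

theorem line_conn_key {ι : Type} {b : ι → Box} (hb : IsBoxSphere b) {q w : R4} {l m : ι}
    (h1 : ∃ δ : ℝ, δ > 0 ∧ ∀ t : ℝ, 0 < t → t < δ → q + t • w ∈ (b l).core) (h2 : TC (b m) q w) : m = l := by
  obtain ⟨δ, hδ, hc⟩ := h1
  obtain ⟨δ', hδ', hc'⟩ := h2
  have hm : 0 < min (δ / 2) δ' := lt_min (by linarith) hδ'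
  exact core_unique hb (hc _ hm (lt_of_le_of_lt (min_le_left _ _) (by linarith)))
    (hc' _ hm.le (min_le_right _ _))

/-- boxes around a generic point of a line are connected through two-dimensional contacts -/
theorem line_conn {ι : Type} {b : ι → Box} (hb : IsBoxSphere b) (u : R4) (hu : u ≠ 0) (q : R4)
    (hG : Gen b (Submodule.span ℝ {u}) q) (P : ι → Prop)
    (hP : ∀ (D : Submodule ℝ R4) (y : R4), finrank ℝ D = 2 → u ∈ D → Gen b D y →
      ∀ i j, y ∈ (b i).carrier → y ∈ (b j).carrier → P i → P j)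
    (i j : ι) (hi : q ∈ (b i).carrier) (hj : q ∈ (b j).carrier) (h : P i) : P j := by
  classical
  haveI := hb.fin
  by_cases hqi : q ∈ (b i).core
  · rw [core_unique hb hqi hj]
    exact h
  have hqc : ∀ l, q ∉ (b l).core := by
    intro l hl
    have := core_unique hb hl hi
    rw [this] at hqi
    exact hqi hl
  have hun : 0 < ‖u‖ := norm_pos_iff.2 hu
  have hu' : ∀ l, q ∈ (b l).carrier → ∃ ε > 0, ∀ t : ℝ, |t| < ε → q + t • u ∈ (b l).carrier := by
    intro l hl
    obtain ⟨ε, hε, hG'⟩ := hG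
    refine ⟨ε / ‖u‖, by positivity, fun t ht => ?_⟩
    refine hG' l hl (t • u) (Submodule.smul_mem _ _ (Submodule.mem_span_singleton_self u)) ?_
    rw [norm_smul, Real.norm_eq_abs]
    exact (lt_div_iff₀ hun).1 ht
  let J := {l : ι // q ∈ (b l).carrier ∧ P l}
  haveI : Nonempty J := ⟨⟨i, hi, h⟩⟩
  have hsec := fun l : J => sector (b l.1) q l.2.1 (hqc l.1) u hu (hu' l.1 l.2.1)
  choose g hgc hgi hgp hgs hgo' hge' using hsec
  have hge : ∀ (l : J) (t : ℝ), 0 < t →
      q + t • g l 0 ∉ (b l.1).core ∧ q + t • g l 1 ∉ (b l.1).core := fun l => hge' l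
  have hTu1 : ∀ l : J, TC (b l.1) q u := by
    intro l
    obtain ⟨ε, hε, hc⟩ := hu' l.1 l.2.1
    exact ⟨ε / 2, by linarith, fun s hs hs' => hc s (by
      rw [abs_of_nonneg hs]; linarith)⟩
  have hTu2 : ∀ l : J, TC (b l.1) q (-u) := by
    intro l
    obtain ⟨ε, hε, hc⟩ := hu' l.1 l.2.1
    exact ⟨ε / 2, by linarith, fun s hs hs' => by
      have := hc (-s) (by rw [abs_neg, abs_of_nonneg hs]; linarith)
      rwa [neg_smul, ← smul_neg] at this⟩
  have hI0 : (0 : ℝ) ∈ Icc (0 : ℝ) 1 := by simp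
  have hI1 : (1 : ℝ) ∈ Icc (0 : ℝ) 1 := by simp
  have hgo : ∀ l : J, ∀ s ∈ Ioo (0 : ℝ) 1, ∃ δ : ℝ, 0 < δ ∧ ∀ t : ℝ, 0 < t → t < δ →
      q + t • g l s ∈ (b l.1).core := by
    intro l s hs
    have hsI : s ∈ Icc (0 : ℝ) 1 := ⟨hs.1.le, hs.2.le⟩
    refine line_conn_sector (b l.1) q u l.2.1 hu (hTu1 l) (hTu2 l) (g l 0) (g l 1) (g l s)
      (hgp l 0 hI0).2.2 (hgp l 1 hI1).2.2 (hgp l s hsI).2.2 (hgp l 0 hI0).1 (hgp l 1 hI1).1
      (hgp l s hsI).1 (hgp l 0 hI0).2.1 (hgp l 1 hI1).2.1 (hgp l s hsI).2.1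
      (fun t ht => (hge l t ht).1) (fun t ht => (hge l t ht).2) ?_ ?_ ?_
    · intro h'
      exact zero_ne_one (hgi l hI0 hI1 h')
    · intro h'
      exact hs.1.ne (hgi l hI0 hsI h')
    · intro h'
      exact hs.2.ne' (hgi l hI1 hsI h')
  have hne : ∀ (l m : J), l ≠ m → l.1 ≠ m.1 := fun l m hlm h' => hlm (Subtype.ext h')
  have key1 : ∀ l m : J, l ≠ m → ∀ s ∈ Icc (0 : ℝ) 1, ∀ t ∈ Icc (0 : ℝ) 1, g l s = g m t →
      (s = 0 ∨ s = 1) := by
    intro l m hlm s hs t ht hst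
    by_contra hcon
    push Not at hcon
    have hs' : s ∈ Ioo (0 : ℝ) 1 :=
      ⟨lt_of_le_of_ne hs.1 (Ne.symm hcon.1), lt_of_le_of_ne hs.2 hcon.2⟩
    have hT := (hgp m t ht).2.2
    rw [← hst] at hT
    exact hne l m hlm (line_conn_key hb (hgo l s hs') hT).symm
  have hsing : ∀ l : J, ∀ s ∈ Icc (0 : ℝ) 1, g l s ≠ 0 := by
    intro l s hs h0
    have := (hgp l s hs).1
    rw [h0, norm_zero] at this
    exact zero_ne_one this
  have hfr : ∀ l : J, ∀ s ∈ Icc (0 : ℝ) 1,
      finrank ℝ (Submodule.span ℝ {u} ⊔ Submodule.span ℝ {g l s} : Submodule ℝ R4) = 2 :=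
    fun l s hs => line_conn_finrank u (g l s) hu (hsing l s hs) (hgp l s hs).2.1
  have hend : ∀ s : ℝ, (s = 0 ∨ s = 1) → s ∈ Icc (0 : ℝ) 1 := by
    rintro s (rfl | rfl) <;> simp
  have hm : ∀ l : J, ∀ s : ℝ, (s = 0 ∨ s = 1) →
      ∃ m, m ≠ l ∧ ∃ t : ℝ, (t = 0 ∨ t = 1) ∧ g m t = g l s := by
    intro l s hs
    have hsI := hend s hs
    obtain ⟨δ, hδ, hside⟩ := gen_side b (Submodule.span ℝ {u}) q hG (g l s)
    obtain ⟨hgen, hiff⟩ := hside (δ / 2) (by linarith) (by linarith)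
    have hyl : q + (δ / 2) • g l s ∈ (b l.1).carrier := (hiff l.1).2 (hgp l s hsI).2.2
    have hyc : q + (δ / 2) • g l s ∉ (b l.1).core := by
      rcases hs with rfl | rfl
      · exact (hge l (δ / 2) (by linarith)).1
      · exact (hge l (δ / 2) (by linarith)).2
    obtain ⟨m, hml, hym⟩ := exists_second hb hyl hyc
    have hPm : P m := hP _ _ (hfr l s hsI)
      (Submodule.mem_sup_left (Submodule.mem_span_singleton_self u)) hgen l.1 m hyl hym l.2.2
    have hTm : TC (b m) q (g l s) := (hiff m).1 hym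
    have hqm : q ∈ (b m).carrier := by
      obtain ⟨δ', hδ', hT⟩ := hTm
      have := hT 0 le_rfl hδ'.le
      rwa [zero_smul, add_zero] at this
    obtain ⟨t, ht, hgt⟩ := hgs ⟨m, hqm, hPm⟩ (g l s) hTm (hgp l s hsI).1 (hgp l s hsI).2.1
    have hml' : (⟨m, hqm, hPm⟩ : J) ≠ l := fun h' => hml (congrArg Subtype.val h')
    exact ⟨⟨m, hqm, hPm⟩, hml', t, key1 _ _ hml' t ht s hsI hgt, hgt⟩
  obtain ⟨γ, hγc, hγi, hγ⟩ := cycle_lemma g hgc hgi
    (fun l m hlm s hs t ht hst => ⟨key1 l m hlm s hs t ht hst,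
      key1 m l (Ne.symm hlm) t ht s hs hst.symm⟩) hm
    (by
      intro l m k hlm hlk hmk s hs t ht r hr h1 h2
      obtain ⟨δ, hδ, hside⟩ := gen_side b (Submodule.span ℝ {u}) q hG (g l s)
      obtain ⟨hgen, hiff⟩ := hside (δ / 2) (by linarith) (by linarith)
      have hTm : TC (b m.1) q (g l s) := by
        rw [h1]
        exact (hgp m t ht).2.2
      have hTk : TC (b k.1) q (g l s) := by
        rw [h2]
        exact (hgp k r hr).2.2
      exact no_third hb _ (hfr l s hs) hgen (hne l m hlm) (hne l k hlk) (hne m k hmk)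
        ((hiff l.1).2 (hgp l s hs).2.2) ((hiff m.1).2 hTm) ((hiff k.1).2 hTk))
  have huni : ∀ l : J, ∃ r > 0, ∀ w, TC (b l.1) q w → ‖w‖ ≤ r → q + w ∈ (b l.1).carrier :=
    fun l => tc_uniform (b l.1) q l.2.1
  choose rl hrl hrc using huni
  obtain ⟨l0, hl0⟩ := Finite.exists_min rl
  have hTu : ∀ l : J, ∀ t : ℝ, TC (b l.1) q (t • u) := by
    intro l t
    obtain ⟨ε, hε, hc⟩ := hu' l.1 l.2.1
    have h1 : TC (b l.1) q u := ⟨ε / 2, by linarith, fun s hs hs' => hc s (by
      rw [abs_of_nonneg hs]; linarith)⟩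
    have h2 : TC (b l.1) q (-u) := ⟨ε / 2, by linarith, fun s hs hs' => by
      have := hc (-s) (by rw [abs_neg, abs_of_nonneg hs]; linarith)
      rwa [neg_smul, ← smul_neg] at this⟩
    rcases le_total 0 t with ht | ht
    · exact h1.smul ht
    · have := h2.smul (neg_nonneg.2 ht)
      rwa [neg_smul_neg] at this
  have hr0 : 0 < rl l0 / (‖u‖ + 1) := div_pos (hrl l0) (by linarith)
  have hin : ∀ l : J, ∀ z : ℂ, ∀ s' ∈ Icc (0 : ℝ) 1, γ z = g l s' →
      ∀ s ∈ Icc (0 : ℝ) (rl l0 / (‖u‖ + 1)), ∀ t : ℝ, |t| ≤ rl l0 / (‖u‖ + 1) →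
      q + t • u + s • γ z ∈ (b l.1).carrier := by
    intro l z s' hs' hz s hs t ht
    rw [add_assoc]
    refine hrc l _ ?_ ?_
    · refine (hTu l t).add (TC.smul ?_ hs.1)
      rw [hz]
      exact (hgp l s' hs').2.2
    · have h1 : ‖t • u + s • γ z‖ ≤ |t| * ‖u‖ + s := by
        refine (norm_add_le _ _).trans ?_
        rw [norm_smul, norm_smul, Real.norm_eq_abs, Real.norm_eq_abs, abs_of_nonneg hs.1, hz,
          (hgp l s' hs').1, mul_one]
      have h2 : |t| * ‖u‖ ≤ rl l0 / (‖u‖ + 1) * ‖u‖ := mul_le_mul_of_nonneg_right ht hun.le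
      have h3 : rl l0 / (‖u‖ + 1) * ‖u‖ + rl l0 / (‖u‖ + 1) = rl l0 := by
        field_simp
      linarith [hs.2, hl0 l]
  obtain ⟨ε, hε, hcone⟩ := cone_nbhd hb.sphere.some q u hu γ hγc hγi
    (fun z hz => by
      obtain ⟨l, s, hs, hzs⟩ := hγ z hz
      rw [hzs]
      exact ⟨(hgp l s hs).1, (hgp l s hs).2.1⟩) (rl l0 / (‖u‖ + 1)) hr0
    (fun z hz s hs t ht => by
      obtain ⟨l, s', hs', hzs⟩ := hγ z hz
      exact Set.mem_iUnion.2 ⟨l.1, hin l z s' hs' hzs s hs t ht⟩)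
  obtain ⟨y, hy, hyq⟩ := core_near (b j) hj hε
  obtain ⟨z, hz, s, hs, t, ht, hyz⟩ := hcone y (Set.mem_iUnion.2 ⟨j, core_subset _ hy⟩) hyq
  obtain ⟨l, s', hs', hzs⟩ := hγ z hz
  have hyl := hin l z s' hs' hzs s hs t ht
  rw [← hyz] at hyl
  have := core_unique hb hy hyl
  rw [← this]
  exact l.2.2

/-! ## Holonomy -/

theorem kap_add (e f w w' : R4) : kap e f (w + w') = kap e f w + kap e f w' := by
  apply Complex.ext
  · simp [kap, inner_add_left]
  · simp [kap, inner_add_left]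

theorem kap_smul (e f : R4) (c : ℝ) (w : R4) : kap e f (c • w) = (c : ℂ) * kap e f w := by
  apply Complex.ext
  · simp [kap, real_inner_smul_left]
  · simp [kap, real_inner_smul_left]

theorem norm_kap (e f : R4) (he : ‖e‖ = 1) (hf : ‖f‖ = 1) (hef : inner ℝ e f = 0) (w : R4)
    (hw : w ∈ PiS e f) : ‖kap e f w‖ = ‖w‖ := by
  obtain ⟨a, b, rfl⟩ := Submodule.mem_span_pair.mp hw
  have hee : inner ℝ e e = (1 : ℝ) := by rw [real_inner_self_eq_norm_sq, he, one_pow]
  have hff : inner ℝ f f = (1 : ℝ) := by rw [real_inner_self_eq_norm_sq, hf, one_pow]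
  have hfe : inner ℝ f e = (0 : ℝ) := by rw [real_inner_comm, hef]
  have h1 : inner ℝ (a • e + b • f) e = a := by
    rw [inner_add_left, real_inner_smul_left, real_inner_smul_left, hee, hfe]; ring
  have h2 : inner ℝ (a • e + b • f) f = b := by
    rw [inner_add_left, real_inner_smul_left, real_inner_smul_left, hef, hff]; ring
  have h3 : ‖a • e + b • f‖ ^ 2 = a ^ 2 + b ^ 2 := by
    rw [← real_inner_self_eq_norm_sq, inner_add_right, real_inner_smul_right,
      real_inner_smul_right, h1, h2]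
    ring
  have h4 : ‖kap e f (a • e + b • f)‖ ^ 2 = a ^ 2 + b ^ 2 := by
    rw [← Complex.normSq_eq_norm_sq, Complex.normSq_apply]
    simp only [kap]
    rw [h1, h2]
    ring
  rw [← h3] at h4
  exact (pow_left_inj₀ (norm_nonneg _) (norm_nonneg _) two_ne_zero).mp h4

theorem frames_eq_aux1 (r : ℂ) (hr : ‖r‖ = 1) : r ^ 4 = 1 ↔ r.re = 0 ∨ r.im = 0 := by
  have h1 : r.re ^ 2 + r.im ^ 2 = 1 := by
    have := Complex.sq_norm r
    rw [Complex.normSq_apply, hr] at this
    nlinarith [this]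
  constructor
  · intro h
    have hre := congrArg Complex.re h
    have e1 : (r ^ 4).re = (r.re ^ 2 - r.im ^ 2) ^ 2 - 4 * r.re ^ 2 * r.im ^ 2 := by
      simp [pow_succ, Complex.mul_re, Complex.mul_im]
      ring
    rw [e1, Complex.one_re] at hre
    have h2 : (r.re * r.im) ^ 2 = 0 := by nlinarith [hre, h1]
    have h3 : r.re * r.im = 0 := by
      exact pow_eq_zero_iff (two_ne_zero) |>.1 h2
    exact mul_eq_zero.1 h3
  · intro h
    apply Complex.ext
    · have e1 : (r ^ 4).re = (r.re ^ 2 - r.im ^ 2) ^ 2 - 4 * r.re ^ 2 * r.im ^ 2 := by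
        simp [pow_succ, Complex.mul_re, Complex.mul_im]
        ring
      rw [e1, Complex.one_re]
      rcases h with h | h
      · rw [h] at h1 ⊢
        have : r.im ^ 2 = 1 := by linarith
        rw [this]; norm_num
      · rw [h] at h1 ⊢
        have : r.re ^ 2 = 1 := by linarith
        rw [this]; norm_num
    · have e1 : (r ^ 4).im = 4 * (r.re * r.im) * (r.re ^ 2 - r.im ^ 2) := by
        simp [pow_succ, Complex.mul_re, Complex.mul_im]
        ring
      rw [e1, Complex.one_im]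
      rcases h with h | h <;> rw [h] <;> ring

theorem frames_eq_aux2 (p q : ℂ) (hp : ‖p‖ = 1) (hq : ‖q‖ = 1) :
    p ^ 4 = q ^ 4 ↔ (p * (starRingEnd ℂ) q).re = 0 ∨ (p * (starRingEnd ℂ) q).im = 0 := by
  have hq0 : q ≠ 0 := by
    intro h
    rw [h] at hq
    simp at hq
  have hr : ‖p * (starRingEnd ℂ) q‖ = 1 := by
    rw [norm_mul, Complex.norm_conj, hp, hq, one_mul]
  rw [← frames_eq_aux1 _ hr]
  have hqq : (starRingEnd ℂ) q * q = 1 := by
    rw [mul_comm, Complex.mul_conj, Complex.normSq_eq_norm_sq, hq]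
    simp
  have e : p ^ 4 = (p * (starRingEnd ℂ) q) ^ 4 * q ^ 4 := by
    rw [← mul_pow, mul_assoc, hqq, mul_one]
  constructor
  · intro h
    have h4 : q ^ 4 ≠ 0 := pow_ne_zero _ hq0
    rw [h] at e
    have : (1 - (p * (starRingEnd ℂ) q) ^ 4) * q ^ 4 = 0 := by
      rw [sub_mul, one_mul, ← e, sub_self]
    rcases mul_eq_zero.1 this with h5 | h5
    · exact (sub_eq_zero.1 h5).symm
    · exact absurd h5 h4
  · intro h
    rw [e, h, one_mul]

theorem frames_eq_dec (e f : R4) (he : ‖e‖ = 1) (hf : ‖f‖ = 1) (hef : inner ℝ e f = 0) (c : R4)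
    (hc : c ∈ PiS e f) : c = (kap e f c).re • e + (kap e f c).im • f := by
  obtain ⟨a, b, rfl⟩ := Submodule.mem_span_pair.1 hc
  have hfe : inner ℝ f e = 0 := by rw [real_inner_comm]; exact hef
  have h1 : (kap e f (a • e + b • f)).re = a := by
    show inner ℝ (a • e + b • f) e = a
    rw [inner_add_left, real_inner_smul_left, real_inner_smul_left, hfe,
      real_inner_self_eq_norm_sq, he]
    ring
  have h2 : (kap e f (a • e + b • f)).im = b := by
    show inner ℝ (a • e + b • f) f = b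
    rw [inner_add_left, real_inner_smul_left, real_inner_smul_left, hef,
      real_inner_self_eq_norm_sq, hf]
    ring
  rw [h1, h2]

theorem frames_eq_inner (e f : R4) (he : ‖e‖ = 1) (hf : ‖f‖ = 1) (hef : inner ℝ e f = 0)
    (c c' : R4) (hc : c ∈ PiS e f) :
    inner ℝ c c' = (kap e f c).re * (kap e f c').re + (kap e f c).im * (kap e f c').im := by
  conv_lhs => rw [frames_eq_dec e f he hf hef c hc]
  rw [inner_add_left, real_inner_smul_left, real_inner_smul_left]
  show _ = (kap e f c).re * inner ℝ c' e + (kap e f c).im * inner ℝ c' f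
  rw [real_inner_comm c' e, real_inner_comm c' f]

theorem frames_eq (e f : R4) (he : ‖e‖ = 1) (hf : ‖f‖ = 1) (hef : inner ℝ e f = 0) (c c' : R4)
    (hc : c ∈ PiS e f) (hc' : c' ∈ PiS e f) (hc0 : c ≠ 0) (hc0' : c' ≠ 0) :
    (kap e f c / (‖kap e f c‖ : ℂ)) ^ 4 = (kap e f c' / (‖kap e f c'‖ : ℂ)) ^ 4 ↔
      inner ℝ c c' = 0 ∨ ∃ a : ℝ, c' = a • c := by
  have hN : 0 < ‖kap e f c‖ := by
    rw [norm_kap e f he hf hef c hc]; exact norm_pos_iff.2 hc0
  have hM : 0 < ‖kap e f c'‖ := by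
    rw [norm_kap e f he hf hef c' hc']; exact norm_pos_iff.2 hc0'
  have hdec := frames_eq_dec e f he hf hef c hc
  have hdec' := frames_eq_dec e f he hf hef c' hc'
  have hinn := frames_eq_inner e f he hf hef c c' hc
  have hz0 : kap e f c ≠ 0 := norm_pos_iff.1 hN
  generalize hz : kap e f c = z at *
  generalize hz' : kap e f c' = z' at *
  have hp : ‖z / (‖z‖ : ℂ)‖ = 1 := by
    rw [norm_div, Complex.norm_real, norm_norm, div_self hN.ne']
  have hq : ‖z' / (‖z'‖ : ℂ)‖ = 1 := by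
    rw [norm_div, Complex.norm_real, norm_norm, div_self hM.ne']
  rw [frames_eq_aux2 _ _ hp hq]
  have e0 : z / (‖z‖ : ℂ) * (starRingEnd ℂ) (z' / (‖z'‖ : ℂ)) =
      ((1 / (‖z‖ * ‖z'‖) : ℝ) : ℂ) * (z * (starRingEnd ℂ) z') := by
    rw [map_div₀, Complex.conj_ofReal]
    push_cast
    field_simp
  have hk : (1 / (‖z‖ * ‖z'‖) : ℝ) ≠ 0 := by positivity
  rw [e0, Complex.re_ofReal_mul, Complex.im_ofReal_mul]
  have hre : (z * (starRingEnd ℂ) z').re = z.re * z'.re + z.im * z'.im := by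
    simp [Complex.mul_re]
  have him : (z * (starRingEnd ℂ) z').im = z.im * z'.re - z.re * z'.im := by
    simp [Complex.mul_im]
    ring
  rw [hre, him, hinn, mul_eq_zero, mul_eq_zero, or_iff_right hk, or_iff_right hk]
  apply or_congr Iff.rfl
  constructor
  · intro h
    have hns : z.re ^ 2 + z.im ^ 2 ≠ 0 := by
      intro h0
      apply hz0
      apply Complex.ext
      · rw [Complex.zero_re]; nlinarith [sq_nonneg z.re, sq_nonneg z.im]
      · rw [Complex.zero_im]; nlinarith [sq_nonneg z.re, sq_nonneg z.im]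
    refine ⟨(z.re * z'.re + z.im * z'.im) / (z.re ^ 2 + z.im ^ 2), ?_⟩
    have h1 : z'.re = (z.re * z'.re + z.im * z'.im) / (z.re ^ 2 + z.im ^ 2) * z.re := by
      field_simp
      linear_combination z.im * h
    have h2 : z'.im = (z.re * z'.re + z.im * z'.im) / (z.re ^ 2 + z.im ^ 2) * z.im := by
      field_simp
      linear_combination (-z.re) * h
    conv_lhs => rw [hdec']
    conv_rhs => rw [hdec]
    rw [smul_add, smul_smul, smul_smul, ← h1, ← h2]
  · rintro ⟨a, ha⟩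
    have : z' = (a : ℂ) * z := by
      rw [← hz', ha, kap_smul, hz]
    rw [this]
    simp [Complex.mul_re, Complex.mul_im]
    ring

theorem frame_eq (e f : R4) (he : ‖e‖ = 1) (hf : ‖f‖ = 1) (hef : inner ℝ e f = 0) (B : Box)
    (k : Fin 3) (hk : B.v k ∈ PiS e f) :
    frame e f B = (kap e f (B.v k) / (‖kap e f (B.v k)‖ : ℂ)) ^ 4 := by
  have h : ∃ k, B.v k ∈ PiS e f := ⟨k, hk⟩
  unfold frame
  rw [dif_pos h]
  by_cases hk0 : h.choose = k
  · rw [hk0]
  · exact (frames_eq e f he hf hef (B.v h.choose) (B.v k) h.choose_spec hk (B.ne _) (B.ne _)).mpr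
      (Or.inl (B.orth _ _ hk0))

theorem piB_add' (e f : R4) (B : Box) (w w' : R4) :
    piB e f B (w + w') = piB e f B w + piB e f B w' := by
  unfold piB
  rw [← Finset.sum_add_distrib]
  apply Finset.sum_congr rfl
  intro k _
  split_ifs with h
  · rw [dc_add, Complex.ofReal_add, add_mul]
  · rw [add_zero]

theorem piB_zero' (e f : R4) (B : Box) : piB e f B 0 = 0 := by
  have h := piB_add' e f B 0 0
  rw [add_zero] at h
  have h2 : piB e f B 0 + 0 = piB e f B 0 + piB e f B 0 := by rw [add_zero]; exact h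
  exact (add_left_cancel h2).symm

theorem hol_add (e f : R4) (B : Box) (w w' : R4) :
    hol e f B (w + w') = hol e f B w * hol e f B w' := by
  unfold hol
  rw [piB_add', ofAdd_add, map_mul]

theorem hol_zero (e f : R4) (B : Box) : hol e f B 0 = 1 := by
  unfold hol
  rw [piB_zero', ofAdd_zero, map_one]

theorem hol_fin3 (k : Fin 3) : ∃ a1 a2 : Fin 3, a1 ≠ k ∧ a2 ≠ k ∧ a1 ≠ a2 := by
  fin_cases k
  · exact ⟨1, 2, by decide, by decide, by decide⟩
  · exact ⟨0, 2, by decide, by decide, by decide⟩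
  · exact ⟨0, 1, by decide, by decide, by decide⟩

theorem hol_sum3 {M : Type*} [AddCommMonoid M] (k a1 a2 : Fin 3) (h1 : a1 ≠ k) (h2 : a2 ≠ k)
    (h12 : a1 ≠ a2) (F : Fin 3 → M) : ∑ m, F m = F k + F a1 + F a2 := by
  rw [Fin.sum_univ_three]
  fin_cases k <;> fin_cases a1 <;> fin_cases a2 <;>
    first
    | exact absurd rfl h1
    | exact absurd rfl h2
    | exact absurd rfl h12
    | (simp only [Fin.zero_eta, Fin.mk_one, Fin.reduceFinMk]; done)
    | (simp only [Fin.zero_eta, Fin.mk_one, Fin.reduceFinMk]; abel)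

theorem hol_le (D : Submodule ℝ R4) (hD : finrank ℝ D = 2) (A : Box) (k : Fin 3)
    (hA : FacePl A D k) : D ≤ A.dirs := by
  obtain ⟨a1, a2, h1, h2, h12⟩ := hol_fin3 k
  have hinj : Function.Injective ![a1, a2] := by
    intro i j hij
    fin_cases i <;> fin_cases j
    · rfl
    · exact absurd hij h12
    · exact absurd hij.symm h12
    · rfl
  have hli : LinearIndependent ℝ (A.v ∘ ![a1, a2]) := (linInd_v A).comp _ hinj
  have hfr := finrank_span_eq_card hli
  rw [Fintype.card_fin] at hfr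
  have hle : Submodule.span ℝ (Set.range (A.v ∘ ![a1, a2])) ≤ D := by
    rw [Submodule.span_le]
    rintro x ⟨i, rfl⟩
    fin_cases i
    · exact (hA.1 a1).2 h1
    · exact (hA.1 a2).2 h2
  have heq := Submodule.eq_of_le_of_finrank_eq hle (hfr.trans hD.symm)
  rw [← heq, Submodule.span_le]
  rintro x ⟨i, rfl⟩
  exact v_mem_dirs A _

theorem hol_c_ne (A B : Box) (a b : Fin 3) (c : ℝ) (h : B.v b = c • A.v a) : c ≠ 0 := by
  rintro rfl
  exact B.ne b (by rw [h, zero_smul])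

theorem hol_mem (e f : R4) (A B : Box) (a b : Fin 3) (c : ℝ) (h : B.v b = c • A.v a) :
    B.v b ∈ PiS e f ↔ A.v a ∈ PiS e f := by
  rw [h]
  exact Submodule.smul_mem_iff _ (hol_c_ne A B a b c h)

open Classical in
theorem hol_term (e f : R4) (A B : Box) (a b : Fin 3) (c : ℝ) (h : B.v b = c • A.v a) (w : R4) :
    (if B.v b ∈ PiS e f then (B.dc w b : ℂ) * kap e f (B.v b) else 0) =
      if A.v a ∈ PiS e f then (A.dc w a : ℂ) * kap e f (A.v a) else 0 := by
  have hc := hol_c_ne A B a b c h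
  have hmem := hol_mem e f A B a b c h
  by_cases hA : A.v a ∈ PiS e f
  · rw [if_pos (hmem.2 hA), if_pos hA, h, kap_smul]
    have hn : ‖A.v a‖ ≠ 0 := norm_ne_zero_iff.2 (A.ne a)
    have h3 : B.dc w b * c = A.dc w a := by
      unfold Box.dc
      rw [h, inner_smul_right, norm_smul, mul_pow, Real.norm_eq_abs, sq_abs]
      field_simp
    rw [← mul_assoc, ← Complex.ofReal_mul, h3]
  · rw [if_neg (fun hB => hA (hmem.1 hB)), if_neg hA]

theorem hol_frame (e f : R4) (he : ‖e‖ = 1) (hf : ‖f‖ = 1) (hef : inner ℝ e f = 0)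
    (A B : Box) (a b : Fin 3) (c : ℝ) (h : B.v b = c • A.v a) (hA : A.v a ∈ PiS e f) :
    frame e f A = frame e f B := by
  have hB := (hol_mem e f A B a b c h).2 hA
  rw [frame_eq e f he hf hef A a hA, frame_eq e f he hf hef B b hB]
  exact (frames_eq e f he hf hef (A.v a) (B.v b) hA hB (A.ne a) (B.ne b)).2 (Or.inr ⟨c, h⟩)

/-- if `x` in `D` is orthogonal to `A.v a1` then it is a multiple of `A.v a2` -/
theorem hol_par (D : Submodule ℝ R4) (hD : finrank ℝ D = 2) (A : Box) (k a1 a2 : Fin 3)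
    (hA : FacePl A D k) (h1 : a1 ≠ k) (h2 : a2 ≠ k) (h12 : a1 ≠ a2) (x : R4) (hx : x ∈ D)
    (ho : inner ℝ x (A.v a1) = 0) : ∃ c : ℝ, x = c • A.v a2 := by
  have hs := sum_dc A (hol_le D hD A k hA hx)
  rw [hol_sum3 k a1 a2 h1 h2 h12, (dc_eq_zero_iff A x k).2 (hA.2 x hx),
    (dc_eq_zero_iff A x a1).2 ho, zero_smul, zero_smul, zero_add, zero_add] at hs
  exact ⟨_, hs.symm⟩

open Classical in
theorem hol_final (e f : R4) (he : ‖e‖ = 1) (hf : ‖f‖ = 1) (hef : inner ℝ e f = 0)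
    (D : Submodule ℝ R4) (A B : Box) (k l a1 a2 b1 b2 : Fin 3) (hA : FacePl A D k)
    (hB : FacePl B D l) (ha1 : a1 ≠ k) (ha2 : a2 ≠ k) (ha : a1 ≠ a2)
    (hb1 : b1 ≠ l) (hb2 : b2 ≠ l) (hb : b1 ≠ b2) (c d : ℝ) (h1 : B.v b1 = c • A.v a1)
    (h2 : B.v b2 = d • A.v a2) (w : R4) (hw : w ∈ D) :
    hol e f A w = hol e f B w := by
  have hpA : piB e f A w = (if A.v a1 ∈ PiS e f then (A.dc w a1 : ℂ) * kap e f (A.v a1) else 0) +
      (if A.v a2 ∈ PiS e f then (A.dc w a2 : ℂ) * kap e f (A.v a2) else 0) := by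
    unfold piB
    rw [hol_sum3 k a1 a2 ha1 ha2 ha, (dc_eq_zero_iff A w k).2 (hA.2 w hw)]
    simp
  have hpB : piB e f B w = (if B.v b1 ∈ PiS e f then (B.dc w b1 : ℂ) * kap e f (B.v b1) else 0) +
      (if B.v b2 ∈ PiS e f then (B.dc w b2 : ℂ) * kap e f (B.v b2) else 0) := by
    unfold piB
    rw [hol_sum3 l b1 b2 hb1 hb2 hb, (dc_eq_zero_iff B w l).2 (hB.2 w hw)]
    simp
  have hpi : piB e f A w = piB e f B w := by
    rw [hpA, hpB, hol_term e f A B a1 b1 c h1 w, hol_term e f A B a2 b2 d h2 w]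
  have hcong : ∀ (i j : ℂ) (x y : Multiplicative ℂ), i = j → x = y →
      (Monoid.CoprodI.of (M := fun _ : ℂ => Multiplicative ℂ) (i := i) x : G) =
        Monoid.CoprodI.of (M := fun _ : ℂ => Multiplicative ℂ) (i := j) y := by
    rintro i _ x _ rfl rfl
    rfl
  unfold hol
  by_cases hm1 : A.v a1 ∈ PiS e f
  · exact hcong _ _ _ _ (hol_frame e f he hf hef A B a1 b1 c h1 hm1) (by rw [hpi])
  · by_cases hm2 : A.v a2 ∈ PiS e f
    · exact hcong _ _ _ _ (hol_frame e f he hf hef A B a2 b2 d h2 hm2) (by rw [hpi])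
    · have h0 : piB e f A w = 0 := by
        rw [hpA, if_neg hm1, if_neg hm2, add_zero]
      rw [← hpi, h0, ofAdd_zero, map_one, map_one]

theorem hol_eq_of_aligned (e f : R4) (he : ‖e‖ = 1) (hf : ‖f‖ = 1) (hef : inner ℝ e f = 0)
    (D : Submodule ℝ R4) (hD : finrank ℝ D = 2) (A B : Box) (k l : Fin 3) (hA : FacePl A D k)
    (hB : FacePl B D l) (hal : Aligned D A B) (w : R4) (hw : w ∈ D) :
    hol e f A w = hol e f B w := by
  obtain ⟨a1, a2, ha1, ha2, ha⟩ := hol_fin3 k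
  obtain ⟨b1, b2, hb1, hb2, hb⟩ := hol_fin3 l
  have hb1D : B.v b1 ∈ D := (hB.1 b1).2 hb1
  have hb2D : B.v b2 ∈ D := (hB.1 b2).2 hb2
  have ha1D : A.v a1 ∈ D := (hA.1 a1).2 ha1
  rcases hal a1 b1 ha1D hb1D with h | ⟨c, hc⟩
  · -- `B.v b1` orthogonal to `A.v a1`
    rw [real_inner_comm] at h
    obtain ⟨c, hc⟩ := hol_par D hD A k a1 a2 hA ha1 ha2 ha _ hb1D h
    have hc0 := hol_c_ne A B a2 b1 c hc
    have h2 : inner ℝ (B.v b2) (A.v a2) = 0 := by
      have h3 := B.orth b2 b1 (Ne.symm hb)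
      rw [hc, inner_smul_right] at h3
      exact (mul_eq_zero.1 h3).resolve_left hc0
    obtain ⟨d, hd⟩ := hol_par D hD A k a2 a1 hA ha2 ha1 (Ne.symm ha) _ hb2D h2
    exact hol_final e f he hf hef D A B k l a2 a1 b1 b2 hA hB ha2 ha1 (Ne.symm ha) hb1 hb2 hb
      c d hc hd w hw
  · have hc0 := hol_c_ne A B a1 b1 c hc
    have h2 : inner ℝ (B.v b2) (A.v a1) = 0 := by
      have h3 := B.orth b2 b1 (Ne.symm hb)
      rw [hc, inner_smul_right] at h3
      exact (mul_eq_zero.1 h3).resolve_left hc0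
    obtain ⟨d, hd⟩ := hol_par D hD A k a1 a2 hA ha1 ha2 ha _ hb2D h2
    exact hol_final e f he hf hef D A B k l a1 a2 b1 b2 hA hB ha1 ha2 ha hb1 hb2 hb
      c d hc hd w hw

theorem exists_gen_on_segment {ι : Type} [Finite ι] (b : ι → Box) (x y : R4) (hxy : x ≠ y) :
    ∃ s : ℝ, 0 < s ∧ s < 1 ∧ Gen b (Submodule.span ℝ {y - x}) (x + s • (y - x)) := by
  classical
  let L : ℝ → R4 := fun s => x + s • (y - x)
  let I : ι → Set ℝ := fun j => {s | L s ∈ (b j).carrier}
  have hLc : Continuous L := by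
    show Continuous fun s : ℝ => x + s • (y - x)
    fun_prop
  have hIcl : ∀ j, IsClosed (I j) := fun j => (isCompact_carrier (b j)).isClosed.preimage hLc
  have hIcv : ∀ j, Convex ℝ (I j) := by
    intro j s hs t ht a c ha hc hac
    show x + (a • s + c • t) • (y - x) ∈ (b j).carrier
    have h := convex_carrier (b j) hs ht ha hc hac
    have : x + (a • s + c • t) • (y - x) = a • L s + c • L t := by
      show x + (a • s + c • t) • (y - x) = a • (x + s • (y - x)) + c • (x + t • (y - x))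
      have hx : x = (a + c) • x := by rw [hac, one_smul]
      nth_rewrite 1 [hx]
      simp only [smul_eq_mul, smul_add, add_smul, mul_smul]
      abel
    rw [this]
    exact h
  have hnull : (volume : Measure ℝ) (⋃ j, frontier (I j)) = 0 := by
    haveI : Countable ι := Finite.to_countable
    rw [measure_iUnion_null_iff]
    exact fun j => (hIcv j).addHaar_frontier volume
  have hex : ∃ s ∈ Ioo (0 : ℝ) 1, s ∉ ⋃ j, frontier (I j) := by
    by_contra hcon
    push Not at hcon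
    have h1 : (volume : Measure ℝ) (Ioo (0 : ℝ) 1) ≤ volume (⋃ j, frontier (I j)) :=
      measure_mono hcon
    rw [hnull, Real.volume_Ioo] at h1
    simp at h1
  obtain ⟨s, hs, hsf⟩ := hex
  refine ⟨s, hs.1, hs.2, ?_⟩
  have hδ : ∀ j, ∃ δ > 0, s ∈ I j → Metric.ball s δ ⊆ I j := by
    intro j
    by_cases hj : s ∈ I j
    · have hint : s ∈ interior (I j) := by
        by_contra hni
        apply hsf
        rw [mem_iUnion]
        exact ⟨j, subset_closure hj, hni⟩
      obtain ⟨δ, hδ, hb⟩ := Metric.isOpen_iff.mp isOpen_interior s hint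
      exact ⟨δ, hδ, fun _ => hb.trans interior_subset⟩
    · exact ⟨1, one_pos, fun h => absurd h hj⟩
  choose δ hδ0 hδ using hδ
  have hmin : ∃ d > 0, ∀ j, d ≤ δ j := by
    by_cases hne : Nonempty ι
    · obtain ⟨j0, hj0⟩ := Finite.exists_min δ
      exact ⟨δ j0, hδ0 j0, hj0⟩
    · exact ⟨1, one_pos, fun j => absurd ⟨j⟩ hne⟩
  obtain ⟨d, hd, hdj⟩ := hmin
  have hyx : 0 < ‖y - x‖ := norm_pos_iff.mpr (sub_ne_zero.mpr hxy.symm)
  refine ⟨d * ‖y - x‖, mul_pos hd hyx, ?_⟩
  intro j hj w hw hwn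
  rw [Submodule.mem_span_singleton] at hw
  obtain ⟨t, rfl⟩ := hw
  rw [norm_smul] at hwn
  have ht : ‖t‖ < d := lt_of_mul_lt_mul_right hwn hyx.le
  have hmem : s + t ∈ I j := by
    apply hδ j hj
    rw [Metric.mem_ball, dist_eq_norm, add_sub_cancel_left]
    exact ht.trans_le (hdj j)
  have h2 : x + s • (y - x) + t • (y - x) = L (s + t) := by
    show _ = x + (s + t) • (y - x)
    rw [add_smul, add_assoc]
  rw [h2]
  exact hmem

theorem hol_consistent {ι : Type} {b : ι → Box} (hb : IsBoxSphere b) (e f : R4) (he : ‖e‖ = 1)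
    (hf : ‖f‖ = 1) (hef : inner ℝ e f = 0) (i j : ι) (x y : R4) (hxi : x ∈ (b i).carrier)
    (hyi : y ∈ (b i).carrier) (hxj : x ∈ (b j).carrier) (hyj : y ∈ (b j).carrier) :
    hol e f (b i) (y - x) = hol e f (b j) (y - x) := by
  by_cases hxy : x = y
  · subst hxy
    rw [sub_self, hol_zero, hol_zero]
  haveI := hb.fin
  obtain ⟨s, hs0, hs1, hG⟩ := exists_gen_on_segment b x y hxy
  have hq : ∀ l, x ∈ (b l).carrier → y ∈ (b l).carrier → x + s • (y - x) ∈ (b l).carrier := by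
    intro l hx hy
    exact (convex_carrier (b l)).add_smul_sub_mem hx hy ⟨hs0.le, hs1.le⟩
  have hP : ∀ (D : Submodule ℝ R4) (y' : R4), finrank ℝ D = 2 → (y - x) ∈ D → Gen b D y' →
      ∀ l m, y' ∈ (b l).carrier → y' ∈ (b m).carrier →
      hol e f (b i) (y - x) = hol e f (b l) (y - x) →
      hol e f (b i) (y - x) = hol e f (b m) (y - x) := by
    intro D y' hD hu hG' l m hl hm hP
    by_cases hlm : l = m
    · subst hlm
      exact hP
    have hlc : y' ∉ (b l).core := fun h => hlm (core_unique hb h hm).symm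
    have hmc : y' ∉ (b m).core := fun h => hlm (core_unique hb h hl)
    obtain ⟨ε, hε, hGε⟩ := hG'
    obtain ⟨k, hk, -, -⟩ := face_form (b l) D hD y' hl hlc ⟨ε, hε, hGε l hl⟩
    obtain ⟨k', hk', -, -⟩ := face_form (b m) D hD y' hm hmc ⟨ε, hε, hGε m hm⟩
    have hal := aligned_of_gen hb D hD ⟨ε, hε, hGε⟩ hl hm
    exact hP.trans (hol_eq_of_aligned e f he hf hef D hD (b l) (b m) k k' hk hk' hal (y - x) hu)
  exact line_conn hb (y - x) (sub_ne_zero.2 (Ne.symm hxy)) (x + s • (y - x)) hG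
    (fun l => hol e f (b i) (y - x) = hol e f (b l) (y - x)) hP i j (hq i hxi hyi) (hq j hxj hyj) rfl

/-- developing map -/
theorem exists_dev {ι : Type} {b : ι → Box} (hb : IsBoxSphere b) {H : Type} [Group H]
    (ho : ι → R4 → H) (hadd : ∀ j w w', ho j (w + w') = ho j w * ho j w')
    (hcons : ∀ i j x y, x ∈ (b i).carrier → y ∈ (b i).carrier → x ∈ (b j).carrier →
      y ∈ (b j).carrier → ho i (y - x) = ho j (y - x)) :
    ∃ s : R4 → H, ∀ j x y, x ∈ (b j).carrier → y ∈ (b j).carrier →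
      s y = s x * ho j (y - x) := by
  classical
  haveI := hb.fin
  obtain ⟨h⟩ := hb.sphere
  set M : Set R4 := ⋃ i, (b i).carrier with hM
  haveI : SimplyConnectedSpace M := sc_M h
  haveI : LocallyPathConnectedSpace M := lpc_M h
  have h0 : ∀ j, ho j 0 = 1 := by
    intro j
    have h1 := hadd j 0 0
    rw [add_zero] at h1
    exact (mul_eq_left (a := ho j 0)).mp h1.symm
  choose eps heps0 heps using fun x : R4 => star_lemma b x
  have hex : ∀ y : M, ∃ j, (y : R4) ∈ (b j).carrier := fun y => mem_iUnion.mp y.2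
  choose jj hjj using hex
  let W : M → Set M := fun x => {y | dist (y : R4) (x : R4) < eps x}
  let Dv : M → M → H := fun x y => ho (jj y) ((y : R4) - x)
  have hA : ∀ (x y : M) (j : ι), y ∈ W x → (y : R4) ∈ (b j).carrier →
      Dv x y = ho j ((y : R4) - x) := by
    intro x y j hy hj
    exact hcons (jj y) j x y (heps x (jj y) y (hjj y) hy) (hjj y) (heps x j y hj hy) hj
  have hW : ∀ x, IsOpen (W x) := fun x =>
    isOpen_lt (continuous_subtype_val.dist continuous_const) continuous_const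
  obtain ⟨t, ht1, ht2⟩ := cyc_triv W (fun x x' y => Dv x' y * (Dv x y)⁻¹) hW (by
      rintro x x' y ⟨hy, hy'⟩
      have e1 := (hW x).mem_nhds hy
      have e2 := (hW x').mem_nhds hy'
      have e3 := (hW y).mem_nhds (show y ∈ W y by
        show dist (y : R4) (y : R4) < eps y
        rw [dist_self]; exact heps0 y)
      filter_upwards [e1, e2, e3] with y' hy1 hy2 hy3
      have hj := hjj y'
      have hyj : (y : R4) ∈ (b (jj y')).carrier := heps y (jj y') y' hj hy3
      rw [hA x' y' _ hy2 hj, hA x y' _ hy1 hj, hA x' y _ hy' hyj, hA x y _ hy hyj]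
      have q1 : (y' : R4) - x' = (y - x') + (y' - y) := by abel
      have q2 : (y' : R4) - x = (y - x) + (y' - y) := by abel
      rw [q1, q2, hadd, hadd]
      group) (by
      intro i j k x _ _ _
      group) (by
      intro x
      exact ⟨x, show dist (x : R4) (x : R4) < eps x by rw [dist_self]; exact heps0 x⟩)
  let s : R4 → H := fun y => if hy : y ∈ M then (t ⟨y, hy⟩ ⟨y, hy⟩)⁻¹ else 1
  have hs : ∀ y : M, s (y : R4) = (t y y)⁻¹ := by
    intro y
    show (if hy : (y : R4) ∈ M then (t ⟨y, hy⟩ ⟨y, hy⟩)⁻¹ else 1) = _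
    rw [dif_pos y.2]
  have hself : ∀ x : M, x ∈ W x := by
    intro x
    show dist (x : R4) (x : R4) < eps x
    rw [dist_self]; exact heps0 x
  have hB : ∀ x : M, ∃ δ > 0, ∀ y : M, dist (y : R4) (x : R4) < δ → ∀ j, (y : R4) ∈ (b j).carrier →
      s y = s x * ho j ((y : R4) - x) := by
    intro x
    have e1 := ht1 x x (hself x)
    have e2 : ∀ᶠ y in 𝓝 x, y ∈ W x := (hW x).mem_nhds (hself x)
    obtain ⟨δ, hδ, hball⟩ := Metric.eventually_nhds_iff.mp (e1.and e2)
    refine ⟨δ, hδ, fun y hy j hj => ?_⟩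
    obtain ⟨h1, h2⟩ := hball (show dist y x < δ from hy)
    have h3 := ht2 x y y h2 (hself y)
    have h4 : Dv y y = 1 := by
      show ho (jj y) ((y : R4) - y) = 1
      rw [sub_self, h0]
    rw [hs, hs, h3, h4, h1, ← hA x y j h2 hj]
    group
  refine ⟨s, ?_⟩
  intro j x y hx hy
  letI : TopologicalSpace H := ⊥
  haveI : DiscreteTopology H := ⟨rfl⟩
  have hz : ∀ τ : ℝ, τ ∈ Icc (0 : ℝ) 1 → x + τ • (y - x) ∈ (b j).carrier := by
    intro τ hτ
    exact (convex_carrier (b j)).add_smul_sub_mem hx hy hτ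
  have hzM : ∀ τ : ℝ, τ ∈ Icc (0 : ℝ) 1 → x + τ • (y - x) ∈ M := fun τ hτ =>
    mem_iUnion.mpr ⟨j, hz τ hτ⟩
  have hcont : Continuous fun τ : ℝ => x + τ • (y - x) := by fun_prop
  have hF : ContinuousOn (fun τ : ℝ => s (x + τ • (y - x)) * (ho j (τ • (y - x)))⁻¹)
      (Icc (0 : ℝ) 1) := by
    intro τ hτ
    obtain ⟨δ, hδ, hBx⟩ := hB ⟨x + τ • (y - x), hzM τ hτ⟩
    have hn : ∀ᶠ τ' in 𝓝 τ, dist (x + τ' • (y - x)) (x + τ • (y - x)) < δ :=
      (hcont.tendsto τ).eventually (Metric.ball_mem_nhds _ hδ)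
    refine (continuousWithinAt_const (b := s (x + τ • (y - x)) * (ho j (τ • (y - x)))⁻¹)).congr_of_eventuallyEq ?_ rfl
    filter_upwards [self_mem_nhdsWithin, mem_nhdsWithin_of_mem_nhds hn] with τ' hτ' hd
    have h1 := hBx ⟨x + τ' • (y - x), hzM τ' hτ'⟩ hd j (hz τ' hτ')
    dsimp only at h1
    have h2 : τ' • (y - x) = τ • (y - x) + ((x + τ' • (y - x)) - (x + τ • (y - x))) := by abel
    rw [h1]
    conv_lhs => rw [h2, hadd]
    rw [← h2]
    group
  have hfin := isPreconnected_Icc.constant hF (left_mem_Icc.mpr zero_le_one)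
    (right_mem_Icc.mpr (zero_le_one (α := ℝ)))
  rw [zero_smul, add_zero, h0, inv_one, mul_one, one_smul, add_sub_cancel] at hfin
  rw [hfin, inv_mul_cancel_right]

/-! ## The belt -/

theorem gen_shift {ι : Type} [Finite ι] (b : ι → Box) (D : Submodule ℝ R4) (Z : Set R4)
    (hZ : Z.Finite) (δ : ℝ) (hδ : 0 < δ) : ∃ d ∈ D, ‖d‖ < δ ∧ ∀ z ∈ Z, Gen b D (z + d) := by
  classical
  let μ : Measure D := Measure.addHaar
  let K : R4 → ι → Set D := fun z j => {d | z + (d : R4) ∈ (b j).carrier}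
  have hKc : ∀ z j, IsClosed (K z j) := fun z j =>
    (isCompact_carrier (b j)).isClosed.preimage (by fun_prop)
  have hKv : ∀ z j, Convex ℝ (K z j) := by
    intro z j x hx y hy a c ha hc hac
    show z + ((a • x + c • y : D) : R4) ∈ (b j).carrier
    have h := convex_carrier (b j) hx hy ha hc hac
    have e : a • (z + (x : R4)) + c • (z + (y : R4)) = z + ((a • x + c • y : D) : R4) := by
      rw [smul_add, smul_add, Submodule.coe_add, Submodule.coe_smul, Submodule.coe_smul]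
      have : a • z + c • z = z := by rw [← add_smul, hac, one_smul]
      calc a • z + a • (x : R4) + (c • z + c • (y : R4))
          = (a • z + c • z) + (a • (x : R4) + c • (y : R4)) := by abel
        _ = z + (a • (x : R4) + c • (y : R4)) := by rw [this]
    rw [e] at h
    exact h
  have hnull : μ (⋃ z ∈ Z, ⋃ j, frontier (K z j)) = 0 := by
    rw [measure_biUnion_null_iff hZ.countable]
    intro z _
    exact measure_iUnion_null fun j => (hKv z j).addHaar_frontier μ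
  have hpos : 0 < μ (ball (0 : D) δ) := measure_ball_pos μ 0 hδ
  obtain ⟨d, hd1, hd2⟩ : ∃ d ∈ ball (0 : D) δ, d ∉ ⋃ z ∈ Z, ⋃ j, frontier (K z j) := by
    by_contra hcon
    push Not at hcon
    have : μ (ball (0 : D) δ) ≤ 0 := hnull ▸ measure_mono (fun x hx => hcon x hx)
    exact absurd hpos (not_lt.mpr this)
  refine ⟨d, d.2, ?_, ?_⟩
  · rw [mem_ball_zero_iff] at hd1
    simpa using hd1
  · intro z hz
    have hev : ∀ᶠ w : D in 𝓝 0, ∀ j, z + (d : R4) ∈ (b j).carrier →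
        z + (d : R4) + (w : R4) ∈ (b j).carrier := by
      rw [Filter.eventually_all]
      intro j
      by_cases hj : z + (d : R4) ∈ (b j).carrier
      · have hdK : d ∈ K z j := hj
        have hdf : d ∉ frontier (K z j) := by
          intro h
          exact hd2 (mem_iUnion₂.mpr ⟨z, hz, mem_iUnion.mpr ⟨j, h⟩⟩)
        have hdi : d ∈ interior (K z j) := by
          by_contra h
          exact hdf ⟨subset_closure hdK, h⟩
        have h1 : K z j ∈ 𝓝 d := mem_interior_iff_mem_nhds.mp hdi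
        have h2 : Filter.Tendsto (fun w : D => d + w) (𝓝 0) (𝓝 d) := by
          have : Filter.Tendsto (fun w : D => d + w) (𝓝 0) (𝓝 (d + 0)) :=
            (continuous_const.add continuous_id).tendsto 0
          rwa [add_zero] at this
        filter_upwards [h2 h1] with w hw _
        have hw' : z + ((d + w : D) : R4) ∈ (b j).carrier := hw
        rw [Submodule.coe_add, ← add_assoc] at hw'
        exact hw'
      · exact Filter.Eventually.of_forall fun w h => absurd h hj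
    rw [Metric.eventually_nhds_iff] at hev
    obtain ⟨ε, hε, hev⟩ := hev
    refine ⟨ε, hε, fun j hj w hw hwε => ?_⟩
    refine hev (y := ⟨w, hw⟩) ?_ j hj
    rw [dist_zero_right]
    exact hwε

theorem cs_le_dirs (B : Box) (D : Submodule ℝ R4) (hD : finrank ℝ D = 2) (k : Fin 3)
    (hk : FacePl B D k) : D ≤ B.dirs := by
  have h1 : LinearIndependent ℝ (fun l : {l : Fin 3 // l ≠ k} => B.v l.1) :=
    (linInd_v B).comp _ Subtype.val_injective
  have h2 : finrank ℝ (Submodule.span ℝ (Set.range (fun l : {l : Fin 3 // l ≠ k} => B.v l.1))) = 2 := by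
    rw [finrank_span_eq_card h1]
    have h9 : ∀ k : Fin 3, Fintype.card {l : Fin 3 // l ≠ k} = 2 := by decide
    exact h9 k
  have h3 : Submodule.span ℝ (Set.range (fun l : {l : Fin 3 // l ≠ k} => B.v l.1)) ≤ D := by
    rw [Submodule.span_le]
    rintro _ ⟨l, rfl⟩
    exact (hk.1 l.1).mpr l.2
  have h4 : Submodule.span ℝ (Set.range (fun l : {l : Fin 3 // l ≠ k} => B.v l.1)) = D :=
    Submodule.eq_of_le_of_finrank_eq h3 (by rw [h2, hD])
  rw [← h4, Submodule.span_le]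
  rintro _ ⟨l, rfl⟩
  exact v_mem_dirs B l.1

theorem cs_zero (B : Box) (D : Submodule ℝ R4) (k : Fin 3)
    (hk : FacePl B D k) (w : R4) (hw : w ∈ Dᗮ) (hwd : w ∈ B.dirs) (h0 : B.dc w k = 0) : w = 0 := by
  rw [← sum_dc B hwd]
  apply Finset.sum_eq_zero
  intro m _
  by_cases hm : m = k
  · rw [hm, h0, zero_smul]
  · have h1 : B.v m ∈ D := (hk.1 m).mpr hm
    have h2 : inner ℝ w (B.v m) = 0 := Submodule.inner_left_of_mem_orthogonal h1 hw
    rw [(dc_eq_zero_iff B w m).mpr h2, zero_smul]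

theorem cand_shift {ι : Type} [Finite ι] (b : ι → Box) (D : Submodule ℝ R4)
    (hD : finrank ℝ D = 2) (x0 : R4) (δ : ℝ) (hδ : 0 < δ) :
    ∃ d ∈ D, ‖d‖ < δ ∧ Gen b D (x0 + d) ∧ ∀ y ∈ Cand b D (x0 + d), Gen b D y := by
  set Zf : ι × Fin 3 × Bool → Set R4 := fun p => {z | z - x0 ∈ Dᗮ ∧ FacePl (b p.1) D p.2.1 ∧
    z - (b p.1).p ∈ (b p.1).dirs ∧ (b p.1).coord z p.2.1 = if p.2.2 then 1 else 0} with hZf
  have hsub : ∀ p, (Zf p).Subsingleton := by
    rintro ⟨l, k, c⟩ z ⟨hz1, hz2, hz3, hz4⟩ z' ⟨hz1', _, hz3', hz4'⟩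
    have h1 : z - z' ∈ Dᗮ := by
      have := Dᗮ.sub_mem hz1 hz1'
      rwa [sub_sub_sub_cancel_right] at this
    have h2 : z - z' ∈ (b l).dirs := by
      have := (b l).dirs.sub_mem hz3 hz3'
      rwa [sub_sub_sub_cancel_right] at this
    have h3 : (b l).dc (z - z') k = 0 := by
      have h4 := coord_add (b l) z' (z - z') k
      rw [add_sub_cancel] at h4
      simp only at hz4 hz4'
      rw [hz4, hz4'] at h4
      linarith
    exact sub_eq_zero.mp (cs_zero (b l) D k hz2 _ h1 h2 h3)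
  have hfin : ({x0} ∪ ⋃ p, Zf p).Finite :=
    (Set.finite_singleton x0).union (Set.finite_iUnion fun p => (hsub p).finite)
  obtain ⟨d, hd, hdn, hG⟩ := gen_shift b D _ hfin δ hδ
  refine ⟨d, hd, hdn, hG x0 (Or.inl rfl), ?_⟩
  rintro y ⟨hy1, l, k, hk, hyc, hy2⟩
  have h1 : y - d ∈ {x0} ∪ ⋃ p, Zf p := by
    right
    have h2 : ∃ c : Bool, (b l).coord y k = if c then 1 else 0 := by
      rcases hy2 with h | h
      · exact ⟨false, by simpa using h⟩
      · exact ⟨true, by simpa using h⟩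
    obtain ⟨c, hc⟩ := h2
    refine Set.mem_iUnion.mpr ⟨(l, k, c), ?_, hk, ?_, ?_⟩
    · have h3 : y - d - x0 = y - (x0 + d) := by abel
      rw [h3]; exact hy1
    · have h3 : y - d - (b l).p = (y - (b l).p) - d := by abel
      simp only
      rw [h3]
      exact (b l).dirs.sub_mem ((mem_carrier_iff (b l) y).mp hyc).1 (cs_le_dirs (b l) D hD k hk hd)
    · simp only
      rw [sub_eq_add_neg, coord_add, hc,
        (dc_eq_zero_iff (b l) (-d) k).mpr (hk.2 _ (D.neg_mem hd)), add_zero]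
  have h5 := hG _ h1
  rwa [sub_add_cancel] at h5

theorem facePl_unique {B : Box} {D : Submodule ℝ R4} {k k' : Fin 3} (h : FacePl B D k)
    (h' : FacePl B D k') : k = k' := by
  by_contra hne
  have h1 : B.v k ∈ D := (h'.1 k).2 hne
  exact ((h.1 k).1 h1) rfl

theorem belt_pt_eq {B : Box} {D : Submodule ℝ R4} {k : Fin 3} (h : FacePl B D k) {y0 y y' : R4}
    (hy : y ∈ B.carrier) (hy' : y' ∈ B.carrier) (ho : y - y0 ∈ Dᗮ) (ho' : y' - y0 ∈ Dᗮ)
    (hc : B.coord y k = B.coord y' k) : y = y' := by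
  have hd : y' - y ∈ B.dirs := sub_mem_dirs B hy hy'
  have hO : y' - y ∈ Dᗮ := by
    have := Submodule.sub_mem _ ho' ho
    have e : y' - y0 - (y - y0) = y' - y := by abel
    rwa [e] at this
  have hz : ∀ l, B.dc (y' - y) l = 0 := by
    intro l
    by_cases hl : l = k
    · subst hl
      have := coord_add B y (y' - y) l
      rw [add_sub_cancel] at this
      linarith
    · rw [dc_eq_zero_iff]
      have hv : B.v l ∈ D := (h.1 l).2 hl
      have := (Submodule.mem_orthogonal D _).1 hO _ hv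
      rw [real_inner_comm]
      exact this
  have hs := sum_dc B hd
  simp only [hz, zero_smul, Finset.sum_const_zero] at hs
  exact (sub_eq_zero.1 hs.symm).symm

/-- darts -/
def BDart {ι : Type} (b : ι → Box) (D : Submodule ℝ R4) (y0 : R4) (l : ι) (y : R4) : Prop :=
  y ∈ (b l).carrier ∧ y - y0 ∈ Dᗮ ∧
    ∃ k, FacePl (b l) D k ∧ ((b l).coord y k = 0 ∨ (b l).coord y k = 1)

theorem BDart.unique {ι : Type} {b : ι → Box} {D : Submodule ℝ R4} {y0 : R4} {l : ι}
    {y y' y'' : R4} (h : BDart b D y0 l y) (h' : BDart b D y0 l y') (h'' : BDart b D y0 l y'')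
    (hne : y ≠ y') (hne' : y'' ≠ y') : y = y'' := by
  obtain ⟨h1, h2, k, hk, h3⟩ := h
  obtain ⟨h1', h2', k', hk', h3'⟩ := h'
  obtain ⟨h1'', h2'', k'', hk'', h3''⟩ := h''
  have e1 : k' = k := facePl_unique hk' hk
  have e2 : k'' = k := facePl_unique hk'' hk
  subst e1
  subst e2
  have n1 : (b l).coord y k'' ≠ (b l).coord y' k'' := fun hc =>
    hne (belt_pt_eq hk h1 h1' h2 h2' hc)
  have n2 : (b l).coord y'' k'' ≠ (b l).coord y' k'' := fun hc =>
    hne' (belt_pt_eq hk h1'' h1' h2'' h2' hc)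
  apply belt_pt_eq hk h1 h1'' h2 h2''
  rcases h3 with h | h <;> rcases h3' with h' | h' <;> rcases h3'' with h'' | h'' <;>
    simp_all

theorem BDart.flip {ι : Type} {b : ι → Box} {D : Submodule ℝ R4} {y0 : R4} {l : ι}
    {y : R4} (h : BDart b D y0 l y) : ∃ y', BDart b D y0 l y' ∧ y' ≠ y ∧
      ∃ k, FacePl (b l) D k ∧ ∃ c : ℝ, y' - y = c • (b l).v k := by
  obtain ⟨h1, h2, k, hk, h3⟩ := h
  set c : ℝ := 1 - 2 * (b l).coord y k with hc
  have hcoord : ∀ m, (b l).coord (y + c • (b l).v k) m =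
      if m = k then 1 - (b l).coord y k else (b l).coord y m := by
    intro m
    rw [coord_add, dc_smul, dc_v]
    by_cases hm : m = k
    · subst hm
      simp only [if_true]
      rw [hc]; ring
    · have hm' : ¬ k = m := fun h => hm h.symm
      simp [hm]
  rw [mem_carrier_iff] at h1
  have hvO : (b l).v k ∈ Dᗮ := by
    rw [Submodule.mem_orthogonal]
    intro w hw
    exact hk.2 w hw
  refine ⟨y + c • (b l).v k, ⟨?_, ?_, k, hk, ?_⟩, ?_, k, hk, c, by abel⟩
  · rw [mem_carrier_iff]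
    refine ⟨?_, ?_⟩
    · have e : y + c • (b l).v k - (b l).p = (y - (b l).p) + c • (b l).v k := by abel
      rw [e]
      exact Submodule.add_mem _ h1.1 (Submodule.smul_mem _ _ (v_mem_dirs _ _))
    · intro m
      rw [hcoord]
      by_cases hm : m = k
      · rw [if_pos hm]
        have := h1.2 k
        constructor <;> linarith [this.1, this.2]
      · rw [if_neg hm]
        exact h1.2 m
  · have e : y + c • (b l).v k - y0 = (y - y0) + c • (b l).v k := by abel
    rw [e]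
    exact Submodule.add_mem _ h2 (Submodule.smul_mem _ _ hvO)
  · rw [hcoord, if_pos rfl]
    rcases h3 with h | h
    · right; rw [h]; ring
    · left; rw [h]; ring
  · intro he
    have hz : c • (b l).v k = 0 := by
      have : y + c • (b l).v k = y + 0 := by rw [he, add_zero]
      exact add_left_cancel this
    rcases smul_eq_zero.1 hz with h | h
    · rcases h3 with h' | h' <;> rw [hc, h'] at h <;> norm_num at h
    · exact (b l).ne k h

theorem BDart.not_core {ι : Type} {b : ι → Box} {D : Submodule ℝ R4} {y0 : R4} {l : ι}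
    {y : R4} (h : BDart b D y0 l y) : y ∉ (b l).core := by
  obtain ⟨h1, h2, k, hk, h3⟩ := h
  rw [mem_core_iff]
  rintro ⟨-, h⟩
  have := h k
  rcases h3 with h' | h' <;> rw [h'] at this
  · exact lt_irrefl _ this.1
  · exact lt_irrefl _ this.2

theorem BDart.of_gen {ι : Type} {b : ι → Box} (hb : IsBoxSphere b) {D : Submodule ℝ R4}
    (hD : finrank ℝ D = 2) {y0 : R4} {l l' : ι} {y : R4} (hG : Gen b D y)
    (hl : y ∈ (b l).carrier) (hl' : y ∈ (b l').carrier) (hne : l' ≠ l) (hO : y - y0 ∈ Dᗮ) :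
    BDart b D y0 l y := by
  have hc : y ∉ (b l).core := fun h => hne (core_unique hb h hl')
  obtain ⟨ε, hε, H⟩ := hG
  obtain ⟨k, hk, h3, -⟩ := face_form (b l) D hD y hl hc ⟨ε, hε, H l hl⟩
  exact ⟨hl, hO, k, hk, h3⟩

theorem BDart.gen {ι : Type} {b : ι → Box} {D : Submodule ℝ R4} {y0 : R4}
    (hX : ∀ y ∈ Cand b D y0, Gen b D y) {l : ι} {y : R4} (h : BDart b D y0 l y) : Gen b D y := by
  obtain ⟨h1, h2, k, hk, h3⟩ := h
  exact hX y ⟨h2, l, k, hk, h1, h3⟩

theorem BDart.turn {ι : Type} {b : ι → Box} (hb : IsBoxSphere b) {D : Submodule ℝ R4}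
    (hD : finrank ℝ D = 2) {y0 : R4} (hX : ∀ y ∈ Cand b D y0, Gen b D y) {l : ι} {y : R4}
    (h : BDart b D y0 l y) : ∃ l', l' ≠ l ∧ BDart b D y0 l' y := by
  obtain ⟨l', hne, hl'⟩ := exists_second hb h.1 h.not_core
  exact ⟨l', hne, BDart.of_gen hb hD (h.gen hX) hl' h.1 hne.symm h.2.1⟩

theorem BDart.turn_unique {ι : Type} {b : ι → Box} (hb : IsBoxSphere b) {D : Submodule ℝ R4}
    (hD : finrank ℝ D = 2) {y0 : R4} (hX : ∀ y ∈ Cand b D y0, Gen b D y) {l l' l'' : ι} {y : R4}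
    (h : BDart b D y0 l y) (h' : y ∈ (b l').carrier) (h'' : y ∈ (b l'').carrier)
    (hne : l' ≠ l) (hne' : l'' ≠ l) : l' = l'' := by
  by_contra hc
  exact no_third hb D hD (h.gen hX) hne.symm hne'.symm hc h.1 h' h''

theorem BDart.finite {ι : Type} [Finite ι] (b : ι → Box) (D : Submodule ℝ R4) (y0 : R4) :
    Finite {p : ι × R4 // BDart b D y0 p.1 p.2} := by
  let φ : {p : ι × R4 // BDart b D y0 p.1 p.2} → ι × Prop := fun p =>
    (p.1.1, ∃ k, FacePl (b p.1.1) D k ∧ (b p.1.1).coord p.1.2 k = 0)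
  refine Finite.of_injective φ ?_
  rintro ⟨⟨l, y⟩, h⟩ ⟨⟨l', y'⟩, h'⟩ he
  simp only [φ, Prod.mk.injEq] at he
  obtain ⟨e1, e2⟩ := he
  subst e1
  apply Subtype.ext
  show (l, y) = (l, y')
  congr 1
  obtain ⟨h1, h2, k, hk, h3⟩ := h
  obtain ⟨h1', h2', k', hk', h3'⟩ := h'
  have e3 : k' = k := facePl_unique hk' hk
  subst e3
  apply belt_pt_eq hk h1 h1' h2 h2'
  rcases h3 with h | h <;> rcases h3' with h' | h'
  · exact h.trans h'.symm
  · exfalso
    have hp : ∃ k, FacePl (b l) D k ∧ (b l).coord y k = 0 := ⟨k', hk, h⟩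
    rw [e2] at hp
    obtain ⟨k'', hk'', h4⟩ := hp
    have e4 : k'' = k' := facePl_unique hk'' hk
    subst e4
    rw [h'] at h4
    norm_num at h4
  · exfalso
    have hp : ∃ k, FacePl (b l) D k ∧ (b l).coord y' k = 0 := ⟨k', hk, h'⟩
    rw [← e2] at hp
    obtain ⟨k'', hk'', h4⟩ := hp
    have e4 : k'' = k' := facePl_unique hk'' hk
    subst e4
    rw [h] at h4
    norm_num at h4
  · exact h.trans h'.symm

theorem belt {ι : Type} {b : ι → Box} (hb : IsBoxSphere b) (D : Submodule ℝ R4)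
    (hD : finrank ℝ D = 2) (y0 : R4) (hG0 : Gen b D y0) (hX : ∀ y ∈ Cand b D y0, Gen b D y)
    (i0 l0 : ι) (hne : i0 ≠ l0) (hi0 : y0 ∈ (b i0).carrier) (hl0 : y0 ∈ (b l0).carrier) :
    ∃ K > 0, ∃ l : ℕ → ι, ∃ x : ℕ → R4, l 0 = l0 ∧ x 0 = y0 ∧
      (∀ n, x n ∈ (b (l n)).carrier ∧ x (n + 1) ∈ (b (l n)).carrier ∧ x n - y0 ∈ Dᗮ ∧
        ∃ k, FacePl (b (l n)) D k ∧ ∃ c : ℝ, x (n + 1) - x n = c • (b (l n)).v k) ∧
      x K = y0 ∧ (∀ m < K, ∀ n < K, x m = x n → m = n) ∧ l (K - 1) = i0 := by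
  haveI := hb.fin
  haveI := BDart.finite b D y0
  have hfex : ∀ p : {p : ι × R4 // BDart b D y0 p.1 p.2},
      ∃ q : {p : ι × R4 // BDart b D y0 p.1 p.2}, q.1.1 = p.1.1 ∧ q ≠ p ∧
        ∃ k, FacePl (b p.1.1) D k ∧ ∃ c : ℝ, q.1.2 - p.1.2 = c • (b p.1.1).v k := by
    rintro ⟨⟨l, y⟩, h⟩
    obtain ⟨y', h', hne', k, hk, c, hc⟩ := h.flip
    refine ⟨⟨(l, y'), h'⟩, rfl, ?_, k, hk, c, hc⟩
    intro he
    exact hne' (congrArg (fun q => q.1.2) he)
  have hmex : ∀ p : {p : ι × R4 // BDart b D y0 p.1 p.2},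
      ∃ q : {p : ι × R4 // BDart b D y0 p.1 p.2}, q.1.2 = p.1.2 ∧ q.1.1 ≠ p.1.1 := by
    rintro ⟨⟨l, y⟩, h⟩
    obtain ⟨l', hne', h'⟩ := h.turn hb hD hX
    exact ⟨⟨(l', y), h'⟩, rfl, hne'⟩
  choose f hf1 hf2 hf3 using hfex
  choose μ hμ1 hμ2 using hmex
  have hsame : ∀ p q : {p : ι × R4 // BDart b D y0 p.1 p.2}, p.1.1 = q.1.1 → p.1.2 = q.1.2 →
      p = q := fun p q h1 h2 => Subtype.ext (Prod.ext h1 h2)
  have hff : ∀ τ, f (f τ) = τ := by
    intro τ
    apply hsame _ _ ((hf1 _).trans (hf1 _))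
    have d1 : BDart b D y0 τ.1.1 (f (f τ)).1.2 := by
      have := (f (f τ)).2
      rwa [hf1, hf1] at this
    have d2 : BDart b D y0 τ.1.1 (f τ).1.2 := by
      have := (f τ).2
      rwa [hf1] at this
    refine d1.unique d2 τ.2 ?_ ?_
    · intro he
      exact hf2 (f τ) (hsame _ _ (hf1 _) he)
    · intro he
      exact hf2 τ (hsame _ _ (hf1 _) he.symm)
  have hμu : ∀ p q : {p : ι × R4 // BDart b D y0 p.1 p.2}, q.1.2 = p.1.2 → q.1.1 ≠ p.1.1 →
      q = μ p := by
    intro p q h1 h2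
    apply hsame
    · refine p.2.turn_unique hb hD hX ?_ ?_ h2 (hμ2 p)
      · have := q.2.1
        rwa [h1] at this
      · have := (μ p).2.1
        rwa [hμ1] at this
    · rw [h1, hμ1]
  have hμμ : ∀ τ, μ (μ τ) = τ := by
    intro τ
    exact (hμu (μ τ) τ (hμ1 τ).symm (hμ2 τ).symm).symm
  have hμ0 : ∀ τ, μ τ ≠ τ := fun τ he => hμ2 τ (congrArg (fun q => q.1.1) he)
  have hd0 : BDart b D y0 l0 y0 :=
    BDart.of_gen hb hD hG0 hl0 hi0 hne (by rw [sub_self]; exact Submodule.zero_mem _)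
  obtain ⟨K, hK, τ, h0, hstep, hKK, hinj, -, hinj2⟩ :=
    orbit f μ hff hμμ hf2 hμ0 ⟨(l0, y0), hd0⟩
  refine ⟨K, hK, fun n => (τ n).1.1, fun n => (τ n).1.2, ?_, ?_, ?_, ?_, ?_, ?_⟩
  · show (τ 0).1.1 = l0
    rw [h0]
  · show (τ 0).1.2 = y0
    rw [h0]
  · intro n
    have e : (τ (n + 1)).1.2 = (f (τ n)).1.2 := by rw [hstep, hμ1]
    refine ⟨(τ n).2.1, ?_, (τ n).2.2.1, ?_⟩
    · show (τ (n + 1)).1.2 ∈ (b (τ n).1.1).carrier
      rw [e]
      have := (f (τ n)).2.1
      rwa [hf1] at this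
    · obtain ⟨k, hk, c, hc⟩ := hf3 (τ n)
      refine ⟨k, hk, c, ?_⟩
      show (τ (n + 1)).1.2 - (τ n).1.2 = c • (b (τ n).1.1).v k
      rw [e]
      exact hc
  · show (τ K).1.2 = y0
    rw [hKK]
  · intro m hm n hn he
    by_contra hmn
    by_cases hl : (τ m).1.1 = (τ n).1.1
    · exact hmn (hinj m hm n hn (hsame _ _ hl he))
    · exact hinj2 m hm n hn (hμu (τ n) (τ m) he hl)
  · show (τ (K - 1)).1.1 = i0
    have e1 : τ K = μ (f (τ (K - 1))) := by
      have := hstep (K - 1)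
      rwa [Nat.sub_add_cancel hK] at this
    rw [hKK] at e1
    have e2 : μ ⟨(l0, y0), hd0⟩ = f (τ (K - 1)) := by
      rw [e1, hμμ]
    have e3 : (μ ⟨(l0, y0), hd0⟩).1.1 = i0 := by
      refine hd0.turn_unique hb hD hX ?_ hi0 (hμ2 _) hne
      have := (μ ⟨(l0, y0), hd0⟩).2.1
      rwa [hμ1] at this
    rw [e2, hf1] at e3
    exact e3

theorem belt_contra {ι : Type} {b : ι → Box} (hb : IsBoxSphere b) (D : Submodule ℝ R4)
    (hD : finrank ℝ D = 2) (e f : R4) (he : ‖e‖ = 1) (hf : ‖f‖ = 1) (hef : inner ℝ e f = 0)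
    (hPi : PiS e f = Dᗮ) (x0 : R4) (hG : Gen b D x0) (i j : ι) (hij : i ≠ j)
    (hi : x0 ∈ (b i).carrier) (hj : x0 ∈ (b j).carrier) :
    frame e f (b i) = frame e f (b j) := by
  classical
  by_contra hne
  haveI : Finite ι := hb.fin
  obtain ⟨ε, hε, hG'⟩ := hG
  obtain ⟨d, hdD, hdε, hG1, hC⟩ := cand_shift b D hD x0 ε hε
  have hyi : x0 + d ∈ (b i).carrier := hG' i hi d hdD hdε
  have hyj : x0 + d ∈ (b j).carrier := hG' j hj d hdD hdε
  obtain ⟨K, hK, l, x, hl0, hx0, hstep, hxK, hinj, hlK⟩ :=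
    belt hb D hD (x0 + d) hG1 hC i j hij hyi hyj
  obtain ⟨s, hs⟩ := exists_dev hb (fun l w => hol e f (b l) w) (fun j w w' => hol_add e f (b j) w w')
    (fun i j x y hxi hyi hxj hyj => hol_consistent hb e f he hf hef i j x y hxi hyi hxj hyj)
  have hkd : ∀ m n : ℕ, kap e f (x m) = kap e f (x n) + kap e f (x m - x n) := by
    intro m n
    rw [← kap_add, add_sub_cancel]
  refine fp K hK (fun n => frame e f (b (l n))) (fun n => kap e f (x n)) (fun n => s (x n))
    ?_ ?_ ?_ ?_ ?_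
  · intro n _
    obtain ⟨h1, h2, -, k, hk, c, hc⟩ := hstep n
    have h3 := hs (l n) (x n) (x (n + 1)) h1 h2
    have hvk : (b (l n)).v k ∈ PiS e f := by
      rw [hPi, Submodule.mem_orthogonal]
      exact hk.2
    have hpi : piB e f (b (l n)) (x (n + 1) - x n) = kap e f (x (n + 1)) - kap e f (x n) := by
      rw [hkd (n + 1) n, add_sub_cancel_left, hc]
      unfold piB
      rw [Finset.sum_eq_single k]
      · rw [if_pos hvk, dc_smul, dc_v, if_pos rfl, mul_one, kap_smul]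
      · intro m _ hm
        split_ifs
        · rw [dc_smul, dc_v, if_neg hm, mul_zero, Complex.ofReal_zero, zero_mul]
        · rfl
      · intro h
        exact absurd (Finset.mem_univ k) h
    show s (x (n + 1)) = _
    rw [h3]
    show s (x n) * hol e f (b (l n)) (x (n + 1) - x n) = _
    unfold hol
    rw [hpi]
  · show kap e f (x K) = kap e f (x 0)
    rw [hxK, hx0]
  · intro m hm n hn hmn
    have hmn' : kap e f (x m) = kap e f (x n) := hmn
    apply hinj m hm n hn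
    have h1 : kap e f (x m - x n) = 0 := by
      have := hkd m n
      rw [hmn'] at this
      exact left_eq_add.1 this
    have h2 : x m - x n ∈ PiS e f := by
      rw [hPi]
      have h3 := (hstep m).2.2.1
      have h4 := (hstep n).2.2.1
      have h5 := Submodule.sub_mem _ h3 h4
      rwa [sub_sub_sub_cancel_right] at h5
    have h3 := norm_kap e f he hf hef _ h2
    rw [h1, norm_zero] at h3
    exact sub_eq_zero.1 (norm_eq_zero.1 h3.symm)
  · show frame e f (b (l (K - 1))) ≠ frame e f (b (l 0))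
    rw [hlK, hl0]
    exact hne
  · show s (x K) = s (x 0)
    rw [hxK, hx0]

/-! ## Adjacent boxes -/

theorem adj_gen_line {C : Set R4} (hpos : 0 < (μH[2] : Measure R4) C) (p v : R4) :
    ¬ (C ⊆ range (fun r : ℝ => p + r • v)) := by
  intro hsub
  have hL : LipschitzWith ‖v‖₊ (fun r : ℝ => p + r • v) := by
    apply LipschitzWith.of_dist_le_mul
    intro x y
    rw [dist_eq_norm, dist_eq_norm]
    have e : p + x • v - (p + y • v) = (x - y) • v := by
      rw [sub_smul]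
      abel
    rw [e, norm_smul, coe_nnnorm, mul_comm]
  have h1 : dimH (range (fun r : ℝ => p + r • v)) ≤ 1 :=
    hL.dimH_range_le.trans (by rw [Real.dimH_univ])
  have h2 : (μH[((2 : NNReal) : ℝ)] : Measure R4) (range (fun r : ℝ => p + r • v)) = 0 := by
    apply hausdorffMeasure_of_dimH_lt
    refine lt_of_le_of_lt h1 ?_
    norm_num
  rw [NNReal.coe_ofNat] at h2
  exact hpos.ne' (measure_mono_null hsub h2)

theorem adj_gen {ι : Type} [Finite ι] (b : ι → Box) (i j : ι) (hadj : Adjacent (b i) (b j)) :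
    ∃ D : Submodule ℝ R4, finrank ℝ D = 2 ∧ ∃ x0, x0 ∈ (b i).carrier ∧ x0 ∈ (b j).carrier ∧
      Gen b D x0 := by
  classical
  have hCc : Convex ℝ ((b i).carrier ∩ (b j).carrier) :=
    (convex_carrier _).inter (convex_carrier _)
  have hpos : 0 < (μH[2] : Measure R4) ((b i).carrier ∩ (b j).carrier) := hadj
  obtain ⟨C, hC⟩ : ∃ C, C = (b i).carrier ∩ (b j).carrier := ⟨_, rfl⟩
  rw [← hC] at hCc hpos
  have hline := adj_gen_line hpos
  obtain ⟨a0, ha0⟩ : C.Nonempty := by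
    by_contra h
    rw [Set.not_nonempty_iff_eq_empty] at h
    rw [h, measure_empty] at hpos
    exact lt_irrefl _ hpos
  obtain ⟨a1, ha1, hne⟩ : ∃ a1 ∈ C, a1 ≠ a0 := by
    by_contra hcon
    push Not at hcon
    apply hline a0 0
    intro x hx
    exact ⟨0, by simp [hcon x hx]⟩
  obtain ⟨a2, ha2, hns⟩ : ∃ a2 ∈ C, ∀ r : ℝ, a2 ≠ a0 + r • (a1 - a0) := by
    by_contra hcon
    push Not at hcon
    apply hline a0 (a1 - a0)
    intro x hx
    obtain ⟨r, hr⟩ := hcon x hx
    exact ⟨r, hr.symm⟩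
  obtain ⟨u, hu⟩ : ∃ u, u = a1 - a0 := ⟨_, rfl⟩
  obtain ⟨w, hw⟩ : ∃ w, w = a2 - a0 := ⟨_, rfl⟩
  obtain ⟨T, hT⟩ : ∃ T : (ℝ × ℝ) →ₗ[ℝ] R4, ∀ z, T z = z.1 • u + z.2 • w :=
    ⟨(LinearMap.toSpanSingleton ℝ R4 u).coprod (LinearMap.toSpanSingleton ℝ R4 w), fun z => by
      simp [LinearMap.coprod_apply, LinearMap.toSpanSingleton_apply]⟩
  have hker : LinearMap.ker T = ⊥ := by
    rw [LinearMap.ker_eq_bot']
    rintro ⟨α, β⟩ hz
    rw [hT] at hz
    beta_reduce at hz
    have hβ : β = 0 := by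
      by_contra hβ
      apply hns (-(α / β))
      have e1 : β • w = -(α • u) := by
        rw [add_comm] at hz
        exact eq_neg_of_add_eq_zero_left hz
      have e2 : w = (-(α / β)) • u := by
        have := congrArg (fun x => β⁻¹ • x) e1
        beta_reduce at this
        rw [smul_smul, inv_mul_cancel₀ hβ, one_smul, smul_neg, smul_smul, ← neg_smul] at this
        rw [this]
        congr 1
        field_simp
      rw [hw, hu] at e2
      rw [← e2]
      abel
    subst hβ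
    rw [zero_smul, add_zero] at hz
    have hu0 : u ≠ 0 := by
      rw [hu]
      exact sub_ne_zero.2 hne
    have hα : α = 0 := (smul_eq_zero.1 hz).resolve_right hu0
    rw [hα]
    rfl
  obtain ⟨K, hK, hanti⟩ := T.exists_antilipschitzWith hker
  have hKpos : (0 : ℝ) < K := by exact_mod_cast hK
  have hfr : finrank ℝ (LinearMap.range T) = 2 := by
    rw [LinearMap.finrank_range_of_inj (LinearMap.ker_eq_bot.1 hker)]
    simp
  obtain ⟨d, hd, hdn, hG⟩ := gen_shift b (LinearMap.range T) {a0 + (1 / 3 : ℝ) • u + (1 / 3 : ℝ) • w}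
    (Set.finite_singleton _) (1 / (6 * K)) (by positivity)
  obtain ⟨⟨α, β⟩, rfl⟩ := hd
  have hb : ‖((α, β) : ℝ × ℝ)‖ ≤ 1 / 6 := by
    have h1 := hanti.le_mul_dist (α, β) 0
    rw [dist_zero_right, map_zero, dist_zero_right] at h1
    have h2 : (K : ℝ) * ‖T (α, β)‖ ≤ K * (1 / (6 * K)) :=
      mul_le_mul_of_nonneg_left hdn.le hKpos.le
    have h3 : (K : ℝ) * (1 / (6 * K)) = 1 / 6 := by
      field_simp
    linarith
  have hα : |α| ≤ 1 / 6 := by
    have := (norm_fst_le ((α, β) : ℝ × ℝ)).trans hb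
    rwa [Real.norm_eq_abs] at this
  have hβ : |β| ≤ 1 / 6 := by
    have := (norm_snd_le ((α, β) : ℝ × ℝ)).trans hb
    rwa [Real.norm_eq_abs] at this
  have hα' := abs_le.1 hα
  have hβ' := abs_le.1 hβ
  have hmem : a0 + (1 / 3 : ℝ) • u + (1 / 3 : ℝ) • w + T (α, β) ∈ C := by
    have h1 := hCc.sum_mem (t := Finset.univ) (w := ![1 / 3 - α - β, 1 / 3 + α, 1 / 3 + β])
      (z := ![a0, a1, a2]) (by
        intro k _
        fin_cases k
        · show (0 : ℝ) ≤ 1 / 3 - α - β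
          linarith [hα'.2, hβ'.2]
        · show (0 : ℝ) ≤ 1 / 3 + α
          linarith [hα'.1]
        · show (0 : ℝ) ≤ 1 / 3 + β
          linarith [hβ'.1]) (by
        rw [Fin.sum_univ_three]
        show (1 / 3 - α - β) + (1 / 3 + α) + (1 / 3 + β) = (1 : ℝ)
        ring) (by
        intro k _
        fin_cases k
        · exact ha0
        · exact ha1
        · exact ha2)
    rw [Fin.sum_univ_three] at h1
    have e : a0 + (1 / 3 : ℝ) • u + (1 / 3 : ℝ) • w + T (α, β) =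
        (1 / 3 - α - β) • a0 + (1 / 3 + α) • a1 + (1 / 3 + β) • a2 := by
      rw [hT, hu, hw]
      simp only
      module
    rw [e]
    exact h1
  rw [hC] at hmem
  exact ⟨LinearMap.range T, hfr, _, hmem.1, hmem.2, hG _ rfl⟩

theorem aux_p_mem (B : Box) : B.p ∈ B.carrier := by
  refine ⟨fun _ => 0, fun k => ⟨le_rfl, zero_le_one⟩, ?_⟩
  simp

theorem aux_pv_mem (B : Box) (k : Fin 3) : B.p + B.v k ∈ B.carrier := by
  refine ⟨fun l => if l = k then 1 else 0, ?_, ?_⟩
  · intro l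
    dsimp only
    split_ifs
    · exact ⟨zero_le_one, le_rfl⟩
    · exact ⟨le_rfl, zero_le_one⟩
  · simp

theorem flat_direction (B : Box) : B.flat.direction = B.dirs := by
  unfold Box.flat
  rw [direction_affineSpan]
  apply le_antisymm
  · rw [vectorSpan_def, Submodule.span_le]
    rintro w ⟨x, hx, y, hy, rfl⟩
    exact sub_mem_dirs B hy hx
  · unfold Box.dirs
    rw [Submodule.span_le]
    rintro _ ⟨k, rfl⟩
    have h := vsub_mem_vectorSpan ℝ (aux_pv_mem B k) (aux_p_mem B)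
    rw [vsub_eq_sub, add_sub_cancel_left] at h
    exact h

theorem flat_eq_of_dirs (A B : Box) (x : R4) (hA : x ∈ A.carrier) (hB : x ∈ B.carrier)
    (h : A.dirs = B.dirs) : A.flat = B.flat := by
  refine AffineSubspace.ext_of_direction_eq ?_ ⟨x, ?_, ?_⟩
  · rw [flat_direction, flat_direction, h]
  · exact subset_affineSpan ℝ _ hA
  · exact subset_affineSpan ℝ _ hB

theorem auxFC_dirs (A : Box) (D : Submodule ℝ R4) (hD : finrank ℝ D = 2) (k : Fin 3)
    (hk : FacePl A D k) : A.dirs = D ⊔ Submodule.span ℝ {A.v k} := by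
  have hle : A.dirs ≤ D ⊔ Submodule.span ℝ {A.v k} := by
    unfold Box.dirs
    rw [Submodule.span_le]
    rintro _ ⟨l', rfl⟩
    by_cases h : l' = k
    · subst h
      exact Submodule.mem_sup_right (Submodule.mem_span_singleton_self _)
    · exact Submodule.mem_sup_left ((hk.1 l').2 h)
  apply Submodule.eq_of_le_of_finrank_le hle
  have h1 := Submodule.finrank_add_le_finrank_add_finrank D (Submodule.span ℝ {A.v k})
  rw [finrank_span_singleton (A.ne k), hD] at h1
  rw [finrank_dirs]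
  exact h1

theorem final_cases (A B : Box) (D : Submodule ℝ R4) (hD : finrank ℝ D = 2) (k l : Fin 3)
    (hk : FacePl A D k) (hl : FacePl B D l) (x : R4) (hA : x ∈ A.carrier) (hB : x ∈ B.carrier)
    (h : inner ℝ (A.v k) (B.v l) = 0 ∨ ∃ a : ℝ, B.v l = a • A.v k) :
    A.flat = B.flat ∨ OrthFlats A.flat B.flat := by
  have hdA := auxFC_dirs A D hD k hk
  have hdB := auxFC_dirs B D hD l hl
  rcases h with h | ⟨a, ha⟩
  · right
    intro m n hm hn hmA hnB
    rw [flat_direction] at hmA hnB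
    have h1 : B.v l ∈ A.dirsᗮ := by
      rw [Submodule.mem_orthogonal]
      intro w hw
      rw [hdA, Submodule.mem_sup] at hw
      obtain ⟨d, hd, y, hy, rfl⟩ := hw
      rw [Submodule.mem_span_singleton] at hy
      obtain ⟨c, rfl⟩ := hy
      rw [inner_add_left, hl.2 d hd, inner_smul_left, h]
      simp
    have h2 : m ∈ A.dirsᗮ := by
      rw [Submodule.mem_orthogonal']
      exact hmA
    have h3 : finrank ℝ A.dirsᗮ = 1 := by
      have h4 := Submodule.finrank_add_finrank_orthogonal A.dirs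
      rw [finrank_dirs] at h4
      have h5 : finrank ℝ R4 = 4 := by simp
      omega
    have h6 := (finrank_eq_one_iff_of_nonzero' (⟨B.v l, h1⟩ : A.dirsᗮ)
      (by
        intro h0
        exact B.ne l (congrArg Subtype.val h0))).1 h3 ⟨m, h2⟩
    obtain ⟨c, hc⟩ := h6
    have h7 : c • B.v l = m := congrArg Subtype.val hc
    rw [← h7, inner_smul_left]
    have h8 := hnB (B.v l) (v_mem_dirs B l)
    rw [real_inner_comm] at h8
    rw [h8, mul_zero]
  · left
    have ha0 : a ≠ 0 := by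
      rintro rfl
      rw [zero_smul] at ha
      exact B.ne l ha
    apply flat_eq_of_dirs A B x hA hB
    rw [hdA, hdB, ha]
    congr 1
    exact (Submodule.span_singleton_smul_eq (IsUnit.mk0 a ha0) _).symm

theorem main {ι : Type} (b : ι → Box) (hb : IsBoxSphere b) (i j : ι) (hij : i ≠ j)
    (hadj : Adjacent (b i) (b j)) :
    (b i).flat = (b j).flat ∨ OrthFlats (b i).flat (b j).flat := by
  haveI := hb.fin
  obtain ⟨D, hD, x0, hi, hj, hG⟩ := adj_gen b i j hadj
  have hci : x0 ∉ (b i).core := fun h => hij (core_unique hb h hj).symm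
  have hcj : x0 ∉ (b j).core := fun h => hij (core_unique hb h hi)
  obtain ⟨ε, hε, hGε⟩ := hG
  obtain ⟨k, hk, -, -⟩ := face_form (b i) D hD x0 hi hci ⟨ε, hε, hGε i hi⟩
  obtain ⟨l, hl, -, -⟩ := face_form (b j) D hD x0 hj hcj ⟨ε, hε, hGε j hj⟩
  have hDo : finrank ℝ Dᗮ = 2 := by
    have h1 := D.finrank_add_finrank_orthogonal
    rw [hD, finrank_euclideanSpace_fin] at h1
    omega
  let B : OrthonormalBasis (Fin 2) ℝ Dᗮ := (stdOrthonormalBasis ℝ Dᗮ).reindex (finCongr hDo)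
  have he : ‖((B 0 : Dᗮ) : R4)‖ = 1 := B.orthonormal.1 0
  have hf : ‖((B 1 : Dᗮ) : R4)‖ = 1 := B.orthonormal.1 1
  have hef : inner ℝ ((B 0 : Dᗮ) : R4) ((B 1 : Dᗮ) : R4) = 0 :=
    B.orthonormal.2 (by decide : (0 : Fin 2) ≠ 1)
  have hPi : PiS ((B 0 : Dᗮ) : R4) ((B 1 : Dᗮ) : R4) = Dᗮ := by
    apply le_antisymm
    · unfold PiS
      rw [Submodule.span_le]
      intro w hw
      rcases hw with rfl | hw
      · exact (B 0).2
      · rw [Set.mem_singleton_iff] at hw
        rw [hw]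
        exact (B 1).2
    · intro w hw
      unfold PiS
      rw [Submodule.mem_span_pair]
      have h1 := B.sum_repr ⟨w, hw⟩
      rw [Fin.sum_univ_two] at h1
      exact ⟨_, _, congrArg Subtype.val h1⟩
  have hmem : ∀ (A : Box) (m : Fin 3), FacePl A D m →
      A.v m ∈ PiS ((B 0 : Dᗮ) : R4) ((B 1 : Dᗮ) : R4) := by
    intro A m hA
    rw [hPi, Submodule.mem_orthogonal]
    exact hA.2
  have hfr := belt_contra hb D hD _ _ he hf hef hPi x0 ⟨ε, hε, hGε⟩ i j hij hi hj
  rw [frame_eq _ _ he hf hef (b i) k (hmem (b i) k hk),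
    frame_eq _ _ he hf hef (b j) l (hmem (b j) l hl)] at hfr
  have h2 := (frames_eq _ _ he hf hef _ _ (hmem (b i) k hk) (hmem (b j) l hl) ((b i).ne k)
    ((b j).ne l)).mp hfr
  exact final_cases (b i) (b j) D hD k l hk hl x0 hi hj h2

end Pool.Agent.Helper206.BoxS
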