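import Mathlib
set_option autoImplicit false
open Set Filter Topology

/-! Cocycles with values in a group. -/

namespace Pool.Agent.Helper206.BoxS.Cyc

/-- A `G`-valued Cech 1-cocycle on a family of open sets: charts `W i`, transitions `c i j`. -/
structure Cyc (X : Type) [TopologicalSpace X] (G : Type) [Group G] (ι : Type) where
  W : ι → Set X
  c : ι → ι → X → G
  isOpen_W : ∀ i, IsOpen (W i)
  loc : ∀ i j, ∀ x ∈ W i ∩ W j, ∀ᶠ y in 𝓝 x, c i j y = c i j x
  cocycle : ∀ i j k, ∀ x, x ∈ W i → x ∈ W j → x ∈ W k → c j k x * c i j x = c i k x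

/-- `t` is a trivialisation of the cocycle over the set `B`. -/
structure IsTriv {X : Type} [TopologicalSpace X] {G : Type} [Group G] {ι : Type}
    (C : Cyc X G ι) (B : Set X) (t : ι → X → G) : Prop where
  loc : ∀ i, ∀ x ∈ B ∩ C.W i, ∀ᶠ y in 𝓝[B] x, t i y = t i x
  compat : ∀ i j, ∀ x ∈ B, x ∈ C.W i → x ∈ C.W j → t j x = C.c i j x * t i x

end Pool.Agent.Helper206.BoxS.Cyc
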